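import Mathlib
import Pool.Graph.R_seed8.W23.DC.Defs

open Finset

/-! Richert's logarithmic weights (helper536). -/

namespace Pool.Agent.H536.OR

open Pool.Agent.W23.DC (tt pr)

/-- Richert's weights -/
noncomputable def rk (Y p : ℕ) : ℝ := 27 / 40 * (1 - tt Y p / (9 / 20))

theorem rk_le {Y p : ℕ} {a : ℝ} (h : a ≤ tt Y p) : rk Y p ≤ 27 / 40 * (1 - a / (9 / 20)) := by
  unfold rk
  have : a / (9 / 20) ≤ tt Y p / (9 / 20) := div_le_div_of_nonneg_right h (by norm_num)
  linarith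

theorem rk_nonneg {Y p : ℕ} (h : tt Y p ≤ 9 / 20) : 0 ≤ rk Y p := by
  unfold rk
  have : tt Y p / (9 / 20) ≤ 1 := by
    rw [div_le_one (by norm_num)]
    exact h
  linarith

end Pool.Agent.H536.OR
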