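import Mathlib
import Pool.Agent.H536.OC.Wd
import Pool.Agent.H536.OR.R0

open Finset Filter Topology

/-! Statements of the pieces, Richert's weights (helper536). -/

namespace Pool.Agent.H536.OR

open Pool.Agent.Y882 Pool.Agent.W23.DC Pool.Agent.H536.OB
open Pool.Agent.H318R2.Cr (V Pz mem_Pz V_pos cz_bounds one_sub_inv_pos)
open Pool.Agent.H262R3.Lk (wM)

open Classical in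
/-- the sieve situation: `H p` are the forbidden classes of `t` modulo `p`, the primes are `Q t + B` -/
structure Sit (κ : ℕ) (δ T : ℝ) (Q B w : ℕ) (H : ℕ → Finset ℕ) (Sq : ℕ → ℕ → Prop) : Prop where
  hB1 : 1 ≤ B
  hBQ : B ≤ Q
  hco : B.Coprime Q
  hQ : Q ≤ ⌊Real.exp (δ * T)⌋₊ ^ 2
  hwM : wM ⌊Real.exp (δ * T)⌋₊ ≤ w
  hw1 : T ≤ (w : ℝ) ^ 2
  hw2 : (w : ℝ) ≤ T
  hwQ : ∀ p : ℕ, p.Prime → p ≤ w → p ∣ Q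
  hH : ∀ p : ℕ, p.Prime → w < p → H p ⊆ range p ∧ (H p).card ≤ κ ∧ ∀ c ∈ H p, ¬ p ∣ Q * c + B
  hSq : ∀ p n : ℕ, p ∈ pr ⌊Real.exp T⌋₊ (1 / 8) (9 / 20) → (((range n).filter (fun t => Sq p t)).card : ℝ) ≤ (n : ℝ) / (p : ℝ) ^ 2 + 3

open Classical in
/-- the conclusion: there are more than `exp (99/100 T)` good `t` -/
def Good (T : ℝ) (Q B w : ℕ) (H : ℕ → Finset ℕ) (Sq : ℕ → ℕ → Prop) : Prop :=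
  ∀ G : Finset ℕ, (G.card : ℝ) ≤ Real.exp (99 / 100 * T) → ∃ t : ℕ, t ∉ G ∧ (Q * t + B).Prime ∧ Real.exp (T / 2) < ((Q * t + B : ℕ) : ℝ) ∧ ((Q * t + B : ℕ) : ℝ) ≤ 3 * Real.exp (101 / 100 * T) ∧
    (∀ p : ℕ, p.Prime → w < p → tt ⌊Real.exp T⌋₊ p < 1 / 8 → t % p ∉ H p) ∧
    ∑ p ∈ (pr ⌊Real.exp T⌋₊ (1 / 8) (9 / 20)).filter (fun p => t % p ∈ H p), rk ⌊Real.exp T⌋₊ p < 1 ∧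
    ∀ p ∈ pr ⌊Real.exp T⌋₊ (1 / 8) (9 / 20), ¬ Sq p t

/-- the situation without a very exceptional character with `χ(B) = 1` -/
def S_NPW : Prop := ∀ κ : ℕ, ∃ ε₁ η CE : ℝ, 0 < ε₁ ∧ ε₁ ≤ 1 / 8 ∧ 0 < η ∧ 0 < CE ∧
  ∀ c2 : ℝ, 0 < c2 → c2 ≤ 1 → ∃ δ0 : ℝ, 0 < δ0 ∧ ∀ δ : ℝ, 0 < δ → δ ≤ δ0 → ∃ T0 : ℝ, ∀ T : ℝ, T0 ≤ T →
  ∀ (Q B w : ℕ) [NeZero Q] (H : ℕ → Finset ℕ) (Sq : ℕ → ℕ → Prop), Sit κ δ T Q B w H Sq →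
  Mer (pr ⌊Real.exp T⌋₊ ε₁ (9 / 20)) (tt ⌊Real.exp T⌋₊) (fun p => ((H p).card : ℝ) / ((p : ℝ) - 1)) ε₁ (9 / 20) η →
  (∃ χ : DirichletCharacter ℂ Q, χ ≠ 1 ∧ χ ^ 2 = 1 ∧ cr χ B = 1 ∧ ell (⌊Real.exp (δ * T)⌋₊ ^ 32) χ ≤ CE * c2 * δ) ∨
    Good T Q B w H Sq

/-- the situation with a very exceptional character with `χ(B) = 1` -/
def S_PW : Prop := ∀ κ : ℕ, ∃ ε₁ η c3 : ℝ, 0 < ε₁ ∧ ε₁ ≤ 1 / 8 ∧ 0 < η ∧ 0 < c3 ∧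
  ∃ δ0 : ℝ, 0 < δ0 ∧ ∀ δ : ℝ, 0 < δ → δ ≤ δ0 → ∃ T0 : ℝ, ∀ T : ℝ, T0 ≤ T →
  ∀ (Q B w : ℕ) [NeZero Q] (H : ℕ → Finset ℕ) (Sq : ℕ → ℕ → Prop), Sit κ δ T Q B w H Sq →
  Mer (pr ⌊Real.exp T⌋₊ ε₁ (9 / 20)) (tt ⌊Real.exp T⌋₊) (fun p => ((H p).card : ℝ) / ((p : ℝ) - 1)) ε₁ (9 / 20) η →
  ∀ χ : DirichletCharacter ℂ Q, χ ≠ 1 → χ ^ 2 = 1 → cr χ B = 1 → ell (⌊Real.exp (δ * T)⌋₊ ^ 32) χ ≤ c3 * δ →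
    Good T Q B w H Sq

open Classical in
/-- the weighted linear sieve for the weights `1 * χ` -/
def S_plusAK : Prop := ∀ κ : ℕ, ∃ ε₁ η c₀ : ℝ, 0 < ε₁ ∧ ε₁ ≤ 1 / 8 ∧ 0 < η ∧ 0 < c₀ ∧
    ∃ Y0 : ℕ, ∀ Y : ℕ, Y0 ≤ Y → ∀ (Q : ℕ) [NeZero Q] (χ : DirichletCharacter ℂ Q) (B : ℕ) (H : ℕ → Finset ℕ)
      (P : Finset ℕ), χ ≠ 1 → χ ^ 2 = 1 → 1 ≤ B → B ≤ Q → B.Coprime Q → cr χ B = 1 →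
    (Q : ℝ) ≤ (Y : ℝ) ^ (1 / 10000 : ℝ) → P ⊆ PZ Y (9 / 20) → (∀ p ∈ P, 4 * κ + 4 ≤ p) →
    (∀ p ∈ P, H p ⊆ range p ∧ (H p).card ≤ κ) →
    Mer (pr Y ε₁ (9 / 20)) (tt Y) (fun p => if p ∈ P then gg χ B H p else 0) ε₁ (9 / 20) η →
    c₀ * (Y * (LV χ * ∏ p ∈ P.filter (fun p => tt Y p < 1 / 8), (1 - gg χ B H p))) ≤
      ∑ t ∈ (range Y).filter (fun t => ∀ p ∈ P, tt Y p < 1 / 8 → t % p ∉ H p),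
        rr χ (Q * t + B) * (1 - ∑ p ∈ P.filter (fun p => 1 / 8 ≤ tt Y p ∧ t % p ∈ H p), rk Y p)

end Pool.Agent.H536.OR
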