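import Mathlib
import Pool.Agent.H536.OC.SubA
import Pool.Agent.H536.OR.R0

open Finset

/-! The weighted linear sieve with Richert's weights, from the universal weights `core5`. -/

namespace Pool.Agent.H536.OR

open Pool.Agent.Y882 Pool.Agent.W23.DC
open Pool.Agent.H536.OC.AKL (NN dvd_NN VV_NN sum_VV err upper_gen lower_gen mem_PZ mem_pr PZ_prime PZ_mono filter_pr
  Mer_restrict Mer_pr pr_split pr_disj sum_pr_split pr_subset_PZ notMem_PZ DD E1 BB log_le_quad log_lower)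

namespace AKR

section
open Classical

noncomputable def EA (Y : ℕ) (R : Finset ℕ → ℝ) : ℝ :=
  ∑ T ∈ (PZ Y (9 / 20)).powerset.filter
    (fun T => ((∏ p ∈ T, p : ℕ) : ℝ) ≤ (Y : ℝ) ^ (499 / 1000 : ℝ)), R T

theorem sum_E1_le (Y : ℕ) (R : Finset ℕ → ℝ) (hR : ∀ T, 0 ≤ R T) :
    ∑ p1 ∈ pr Y (1 / 8) (9 / 20), E1 Y R p1 ≤ EA Y R := by
  unfold E1 EA
  rw [sum_sigma']
  have hinj : Set.InjOn (fun x : (_ : ℕ) × Finset ℕ => insert x.1 x.2)
      ((pr Y (1 / 8) (9 / 20)).sigma fun p1 => DD Y p1 : Finset _) := by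
    rintro ⟨p, T⟩ h1 ⟨q, U⟩ h2 h3
    simp only at h3
    rw [mem_coe, mem_sigma] at h1 h2
    simp only [DD, mem_filter, mem_powerset] at h1 h2
    have hpq : p = q := by
      have h4 : p ∈ insert q U := by rw [← h3]; exact mem_insert_self _ _
      rcases mem_insert.1 h4 with h5 | h5
      · exact h5
      · exact absurd (h2.2.1 h5) (notMem_PZ h1.1 le_rfl)
    subst hpq
    have h6 : p ∉ T := fun h => notMem_PZ h1.1 le_rfl (h1.2.1 h)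
    have h7 : p ∉ U := fun h => notMem_PZ h1.1 le_rfl (h2.2.1 h)
    have h8 : T = U := by
      rw [← erase_insert h6, h3, erase_insert h7]
    rw [h8]
  rw [← sum_image (f := R) hinj]
  refine sum_le_sum_of_subset_of_nonneg ?_ fun T _ _ => hR T
  intro T hT
  rw [mem_image] at hT
  obtain ⟨⟨p, U⟩, h1, rfl⟩ := hT
  rw [mem_sigma] at h1
  simp only [DD, mem_filter, mem_powerset] at h1 ⊢
  refine ⟨?_, h1.2.2⟩
  rw [insert_subset_iff]
  exact ⟨pr_subset_PZ le_rfl h1.1, h1.2.1.trans (PZ_mono (by norm_num))⟩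

theorem cell (κ : ℕ) (A0 : ℝ) (F f : ℝ → ℝ) (hSF : SF A0 F f) (a b ε : ℝ) (ha : 1 / 8 ≤ a)
    (hab : a ≤ b) (hb : b ≤ 373 / 1000) (hε : 0 < ε) :
    ∃ ε₁ η : ℝ, 0 < ε₁ ∧ ε₁ ≤ 1 / 8 ∧ 0 < η ∧ ∃ Y0 : ℕ, ∀ Y : ℕ, Y0 ≤ Y →
    ∀ (S : Finset ℕ) (g : ℕ → ℕ → Prop) (h : ℕ → ℝ),
    (∀ p ∈ PZ Y (9 / 20), 0 ≤ h p ∧ h p ≤ 1) →
    (∀ p ∈ PZ Y (1 / 8), κ < p → h p ≤ κ / ((p : ℝ) - 1)) →
    Mer (pr Y ε₁ (1 / 8)) (tt Y) h ε₁ (1 / 8) η →
    ∀ (ω : ℕ → ℝ) (X : ℝ) (R : Finset ℕ → ℝ), (∀ n ∈ S, 0 ≤ ω n) → 0 ≤ X → (∀ T, 0 ≤ R T) →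
    (∀ T : Finset ℕ, T ⊆ PZ Y (9 / 20) → ((∏ p ∈ T, p : ℕ) : ℝ) ≤ (Y : ℝ) ^ (499 / 1000 : ℝ) →
      |∑ n ∈ S.filter (fun n => ∀ p ∈ T, g p n), ω n - X * ∏ p ∈ T, h p| ≤ R T) →
    ∀ p1 ∈ pr Y a b, BB (PZ Y (1 / 8)) S g ω p1 ≤
      X * h p1 * ((F (8 * (498 / 1000 - b)) + ε) * ∏ p ∈ PZ Y (1 / 8), (1 - h p)) +
        5 * Real.log Y * E1 Y R p1 := by
  obtain ⟨ε₁, η, h1, h2, h3, Y0, hY0⟩ := JR.core5 κ A0 F f hSF (498 / 1000 - b) (1 / 8)
    (499 / 1000 - b) ε (by norm_num) (by linarith) (by linarith) (by linarith) hε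
  refine ⟨ε₁, η, h1, h2, h3, max Y0 2, fun Y hY S g h hh hκ hM ω X R hω hX hR hA p1 hp1 => ?_⟩
  obtain ⟨wU, wL, k1, k2, k3, k4⟩ := hY0 Y ((le_max_left _ _).trans hY)
  have hY2 : 2 ≤ Y := (le_max_right _ _).trans hY
  have hYr : (2 : ℝ) ≤ Y := by exact_mod_cast hY2
  have hlog : 0 ≤ Real.log Y := Real.log_nonneg (by linarith)
  have hsub : PZ Y (1 / 8) ⊆ PZ Y (9 / 20) := PZ_mono (by norm_num)
  have hp1' := mem_pr.1 hp1
  have hp1PZ : p1 ∈ PZ Y (9 / 20) := pr_subset_PZ (by linarith) hp1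
  have hp1n : p1 ∉ PZ Y (1 / 8) := notMem_PZ hp1 ha
  have hp1Y : (p1 : ℝ) < (Y : ℝ) ^ b := (tt_lt Y p1 b hY2 hp1'.2.1.pos).1 hp1'.2.2.2
  have key := (k4 h (fun p hp => (hh p (hsub hp)).1) (fun p hp => (hh p (hsub hp)).2) hκ hM).2
  have e8 : (498 / 1000 - b) / (1 / 8) = 8 * (498 / 1000 - b) := by ring
  rw [e8] at key
  have main := upper_gen (P := PZ Y (1 / 8)) PZ_prime g wU (S.filter (fun n => g p1 n)) ω
    (fun n hn => hω n (mem_filter.1 hn).1) (fun T => R (insert p1 T)) (X * h p1)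
    (5 * Real.log Y) h (fun T => (k1 T).1) (by positivity) (DD Y p1) ?_ ?_ (fun T _ => hR _) ?_
  · refine main.trans ?_
    have h4 : X * h p1 * VV (PZ Y (1 / 8)) wU h ≤
        X * h p1 * ((F (8 * (498 / 1000 - b)) + ε) * ∏ p ∈ PZ Y (1 / 8), (1 - h p)) :=
      mul_le_mul_of_nonneg_left key (mul_nonneg hX (hh p1 hp1PZ).1)
    unfold E1
    linarith
  · intro T hT hw
    unfold DD
    rw [mem_filter, mem_powerset]
    refine ⟨hT, ?_⟩
    have h4 := k2 T hT (Or.inl hw)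
    have h5 : p1 ∉ T := fun h => hp1n (hT h)
    rw [prod_insert h5]
    push_cast at h4 ⊢
    have h6 : (Y : ℝ) ^ (499 / 1000 : ℝ) = (Y : ℝ) ^ b * (Y : ℝ) ^ (499 / 1000 - b) := by
      rw [← Real.rpow_add (by linarith)]
      congr 1
      ring
    rw [h6]
    exact mul_le_mul hp1Y.le h4 (by positivity) (by positivity)
  · intro T hT hT'
    unfold DD at hT
    rw [mem_filter, mem_powerset] at hT
    have h5 : p1 ∉ T := fun h => hp1n (hT' h)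
    have h6 := hA (insert p1 T) (insert_subset_iff.2 ⟨hp1PZ, hT'.trans hsub⟩) hT.2
    rw [prod_insert h5, ← mul_assoc] at h6
    rw [filter_filter]
    simp only [forall_mem_insert] at h6
    exact h6
  · intro N
    exact (k3 N).2

theorem PZ_split {Y : ℕ} {a b : ℝ} (h : a ≤ b) : PZ Y b = PZ Y a ∪ pr Y a b := by
  ext p
  rw [mem_union, mem_PZ, mem_PZ, mem_pr]
  constructor
  · rintro ⟨h3, h4, h5⟩
    rcases lt_or_ge (tt Y p) a with h7 | h7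
    · exact Or.inl ⟨h3, h4, h7⟩
    · exact Or.inr ⟨h3, h4, h7, h5⟩
  · rintro (⟨h3, h4, h5⟩ | ⟨h3, h4, h5, h6⟩)
    · exact ⟨h3, h4, h5.trans_le h⟩
    · exact ⟨h3, h4, h6⟩

theorem PZ_disj {Y : ℕ} {a b : ℝ} : Disjoint (PZ Y a) (pr Y a b) := by
  rw [disjoint_left]
  intro p hp hp'
  rw [mem_PZ] at hp
  rw [mem_pr] at hp'
  exact absurd hp.2.2 (not_lt.2 hp'.2.2.1)

/-- the cells beyond the level -/
theorem cell2 (κ : ℕ) (A0 : ℝ) (F f : ℝ → ℝ) (hSF : SF A0 F f) (a b ε : ℝ) (ha : 1 / 8 ≤ a)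
    (hab : a ≤ b) (hb : b ≤ 9 / 20) (hb2 : 373 / 1000 ≤ b) (hε : 0 < ε) :
    ∃ ε₁ η : ℝ, 0 < ε₁ ∧ ε₁ ≤ 1 / 8 ∧ 0 < η ∧ ∃ Y0 : ℕ, ∀ Y : ℕ, Y0 ≤ Y →
    ∀ (S : Finset ℕ) (g : ℕ → ℕ → Prop) (h : ℕ → ℝ),
    (∀ p ∈ PZ Y (9 / 20), 0 ≤ h p ∧ h p ≤ 1) →
    (∀ p ∈ PZ Y (1 / 8), κ < p → h p ≤ κ / ((p : ℝ) - 1)) →
    Mer (pr Y ε₁ (1 / 8)) (tt Y) h ε₁ (1 / 8) η →
    ∀ (ω : ℕ → ℝ) (X : ℝ) (R : Finset ℕ → ℝ), (∀ n ∈ S, 0 ≤ ω n) → 0 ≤ X → (∀ T, 0 ≤ R T) →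
    (∀ T : Finset ℕ, T ⊆ PZ Y (9 / 20) → ((∏ p ∈ T, p : ℕ) : ℝ) ≤ (Y : ℝ) ^ (499 / 1000 : ℝ) →
      |∑ n ∈ S.filter (fun n => ∀ p ∈ T, g p n), ω n - X * ∏ p ∈ T, h p| ≤ R T) →
    ∀ p1 ∈ pr Y a b, BB (PZ Y (1 / 8)) S g ω p1 ≤
      X * h p1 * ((A0 / (8 * (498 / 1000 - b)) + ε) * ∏ p ∈ PZ Y (1 / 8), (1 - h p)) +
        5 * Real.log Y * E1 Y R p1 := by
  obtain ⟨ζ, hζ⟩ : ∃ ζ : ℝ, ζ = 498 / 1000 - b := ⟨_, rfl⟩
  have hζ0 : 48 / 1000 ≤ ζ := by rw [hζ]; linarith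
  have hζ1 : ζ ≤ 1 / 8 := by rw [hζ]; linarith
  have hA0 := hSF.pos
  obtain ⟨κ₀, hκ₀⟩ : ∃ κ₀ : ℝ, κ₀ = ε / (4 * (A0 + ε)) := ⟨_, rfl⟩
  have hκ₀0 : 0 < κ₀ := by rw [hκ₀]; positivity
  have hκ₀1 : κ₀ ≤ 1 / 4 := by
    rw [hκ₀, div_le_div_iff₀ (by positivity) (by norm_num)]
    nlinarith
  have hκ₀e : κ₀ * (A0 + ε) = ε / 4 := by
    rw [hκ₀]
    field_simp
  obtain ⟨ε₁, η, h1, h2, h3, Y0, hY0⟩ := JR.core5 κ A0 F f hSF ζ ζ (499 / 1000 - b) (ε / 10) (by linarith) le_rfl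
    (by linarith) (by rw [hζ]; linarith) (by positivity)
  obtain ⟨Y1, hY1⟩ := JR.prod_large κ (1 / 8) ζ κ₀ (by linarith) hζ1 hκ₀0 (by linarith)
  refine ⟨ε₁, min η (κ₀ / 4), h1, h2.trans hζ1, by positivity, max (max Y0 Y1) 2, fun Y hY S g h hh hκ hM ω X R hω hX hR hA p1 hp1 => ?_⟩
  obtain ⟨wU, wL, k1, k2, k3, k4⟩ := hY0 Y (((le_max_left _ _).trans (le_max_left _ _)).trans hY)
  have hY1' := hY1 Y (((le_max_right _ _).trans (le_max_left _ _)).trans hY) h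
  have hY2 : 2 ≤ Y := (le_max_right _ _).trans hY
  have hYr : (2 : ℝ) ≤ Y := by exact_mod_cast hY2
  have hlog : 0 ≤ Real.log Y := Real.log_nonneg (by linarith)
  have hsub : PZ Y (1 / 8) ⊆ PZ Y (9 / 20) := PZ_mono (by norm_num)
  have hsubζ : PZ Y ζ ⊆ PZ Y (1 / 8) := PZ_mono hζ1
  have hp1' := mem_pr.1 hp1
  have hp1PZ : p1 ∈ PZ Y (9 / 20) := pr_subset_PZ (by linarith) hp1
  have hp1n : p1 ∉ PZ Y (1 / 8) := notMem_PZ hp1 ha
  have hp1Y : (p1 : ℝ) < (Y : ℝ) ^ b := (tt_lt Y p1 b hY2 hp1'.2.1.pos).1 hp1'.2.2.2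
  have hpr : pr Y ζ (1 / 8) ⊆ PZ Y (1 / 8) := pr_subset_PZ le_rfl
  have key := (k4 h (fun p hp => (hh p (hsub (hsubζ hp))).1) (fun p hp => (hh p (hsub (hsubζ hp))).2)
    (fun p hp => hκ p (hsubζ hp)) (Mer_restrict le_rfl hζ1 (min_le_left _ _) hM)).2
  have key2 := (hY1' (fun p hp => (hh p (hsub (hpr hp))).1) (fun p hp => hκ p (hpr hp))
    (Mer_restrict h2 le_rfl (min_le_right _ _) hM)).1
  rw [div_self (by linarith : ζ ≠ 0), hSF.F3 1 le_rfl (by norm_num), div_one] at key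
  -- the product
  have hV1 : 0 ≤ ∏ p ∈ PZ Y ζ, (1 - h p) := prod_nonneg fun p hp => by linarith [(hh p (hsub (hsubζ hp))).2]
  have hprod : (A0 + ε / 10) * ∏ p ∈ PZ Y ζ, (1 - h p) ≤ (A0 / (8 * (498 / 1000 - b)) + ε) * ∏ p ∈ PZ Y (1 / 8), (1 - h p) := by
    rw [PZ_split hζ1, prod_union PZ_disj]
    rw [← hζ]
    have h4 : (A0 / (8 * ζ) + ε) * ((∏ p ∈ PZ Y ζ, (1 - h p)) * ((1 - κ₀) * (ζ / (1 / 8)))) ≤
        (A0 / (8 * ζ) + ε) * ((∏ p ∈ PZ Y ζ, (1 - h p)) * ∏ p ∈ pr Y ζ (1 / 8), (1 - h p)) := by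
      have : 0 < A0 / (8 * ζ) + ε := by
        have : 0 < ζ := by linarith
        positivity
      gcongr
    refine le_trans ?_ h4
    have h5 : (A0 / (8 * ζ) + ε) * ((∏ p ∈ PZ Y ζ, (1 - h p)) * ((1 - κ₀) * (ζ / (1 / 8)))) =
        ((1 - κ₀) * (A0 + 8 * ζ * ε)) * ∏ p ∈ PZ Y ζ, (1 - h p) := by
      have : ζ ≠ 0 := by linarith
      field_simp
    rw [h5]
    apply mul_le_mul_of_nonneg_right _ hV1
    have h6 : κ₀ * (A0 + 8 * ζ * ε) ≤ ε / 4 := by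
      rw [← hκ₀e]
      have : 8 * ζ * ε ≤ ε := by nlinarith
      gcongr
    nlinarith
  have main := upper_gen (P := PZ Y ζ) PZ_prime g wU (S.filter (fun n => g p1 n)) ω
    (fun n hn => hω n (mem_filter.1 hn).1) (fun T => R (insert p1 T)) (X * h p1)
    (5 * Real.log Y) h (fun T => (k1 T).1) (by positivity) (DD Y p1) ?_ ?_ (fun T _ => hR _) ?_
  · have hBB : BB (PZ Y (1 / 8)) S g ω p1 ≤ ∑ n ∈ (S.filter (fun n => g p1 n)).filter (fun n => ∀ p ∈ PZ Y ζ, ¬ g p n), ω n := by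
      unfold BB
      apply sum_le_sum_of_subset_of_nonneg
      · intro n hn
        rw [mem_filter] at hn ⊢
        exact ⟨hn.1, fun p hp => hn.2 p (hsubζ hp)⟩
      · intro n hn _
        exact hω n (mem_filter.1 (mem_filter.1 hn).1).1
    refine hBB.trans (main.trans ?_)
    have h4 : X * h p1 * VV (PZ Y ζ) wU h ≤
        X * h p1 * ((A0 / (8 * (498 / 1000 - b)) + ε) * ∏ p ∈ PZ Y (1 / 8), (1 - h p)) :=
      mul_le_mul_of_nonneg_left (key.trans hprod) (mul_nonneg hX (hh p1 hp1PZ).1)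
    unfold E1
    linarith
  · intro T hT hw
    unfold DD
    rw [mem_filter, mem_powerset]
    refine ⟨hT.trans hsubζ, ?_⟩
    have h4 := k2 T hT (Or.inl hw)
    have h5 : p1 ∉ T := fun h => hp1n (hsubζ (hT h))
    rw [prod_insert h5]
    push_cast at h4 ⊢
    have h6 : (Y : ℝ) ^ (499 / 1000 : ℝ) = (Y : ℝ) ^ b * (Y : ℝ) ^ (499 / 1000 - b) := by
      rw [← Real.rpow_add (by linarith)]
      congr 1
      ring
    rw [h6]
    exact mul_le_mul hp1Y.le h4 (by positivity) (by positivity)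
  · intro T hT hT'
    unfold DD at hT
    rw [mem_filter, mem_powerset] at hT
    have h5 : p1 ∉ T := fun h => hp1n (hsubζ (hT' h))
    have h6 := hA (insert p1 T) (insert_subset_iff.2 ⟨hp1PZ, (hT'.trans hsubζ).trans hsub⟩) hT.2
    rw [prod_insert h5, ← mul_assoc] at h6
    rw [filter_filter]
    simp only [forall_mem_insert] at h6
    exact h6
  · intro N
    exact (k3 N).2

theorem cell_sum {Y : ℕ} {a b ε₁ η X V c L ρ : ℝ} {h B E : ℕ → ℝ}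
    (hM : Mer (pr Y ε₁ (9 / 20)) (tt Y) h ε₁ (9 / 20) η) (ha : ε₁ ≤ a) (hab : a ≤ b)
    (hb : b ≤ 9 / 20) (hX : 0 ≤ X) (hV : 0 ≤ V) (hc : 0 ≤ c) (hL : 0 ≤ L) (hE : ∀ p, 0 ≤ E p) (hh : ∀ p ∈ pr Y a b, 0 ≤ h p)
    (hρ : ρ = 27 / 40 * (1 - a / (9 / 20))) (ha8 : 1 / 8 ≤ a)
    (hB : ∀ p1 ∈ pr Y a b, B p1 ≤ X * h p1 * (c * V) + L * E p1) :
    ∑ p1 ∈ pr Y a b, rk Y p1 * B p1 ≤ X * V * (ρ * (c * (Real.log (b / a) + η))) + L * ∑ p1 ∈ pr Y a b, E p1 := by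
  have h1 := Mer_pr hM ha hab hb
  have hρ1 : ρ ≤ 1 := by
    rw [hρ]
    have : 0 ≤ a / (9 / 20) := by positivity
    linarith
  have hρ0 : 0 ≤ ρ := by
    rw [hρ]
    have : a / (9 / 20) ≤ 1 := by
      rw [div_le_one (by norm_num)]
      linarith
    linarith
  calc ∑ p1 ∈ pr Y a b, rk Y p1 * B p1 ≤ ∑ p1 ∈ pr Y a b, (ρ * (X * h p1 * (c * V)) + L * E p1) := by
        apply sum_le_sum
        intro p hp
        have hp' := mem_pr.1 hp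
        have k1 : rk Y p ≤ ρ := by rw [hρ]; exact rk_le hp'.2.2.1
        have k0 : 0 ≤ rk Y p := rk_nonneg (hp'.2.2.2.le.trans hb)
        have k2 := hh p hp
        calc rk Y p * B p ≤ rk Y p * (X * h p * (c * V) + L * E p) := mul_le_mul_of_nonneg_left (hB p hp) k0
          _ = rk Y p * (X * h p * (c * V)) + rk Y p * (L * E p) := by ring
          _ ≤ ρ * (X * h p * (c * V)) + 1 * (L * E p) := by
              have e1 : 0 ≤ X * h p * (c * V) := by positivity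
              have e2 : 0 ≤ L * E p := mul_nonneg hL (hE p)
              have e3 := mul_le_mul_of_nonneg_right k1 e1
              have e4 := mul_le_mul_of_nonneg_right (k1.trans hρ1) e2
              linarith
          _ = _ := by ring
    _ = X * V * (ρ * c) * ∑ p1 ∈ pr Y a b, h p1 + L * ∑ p1 ∈ pr Y a b, E p1 := by
        rw [sum_add_distrib, mul_sum, mul_sum]
        congr 1
        refine sum_congr rfl fun p _ => ?_
        ring
    _ ≤ X * V * (ρ * c) * (Real.log (b / a) + η) + L * ∑ p1 ∈ pr Y a b, E p1 := by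
        have h2 : 0 ≤ X * V * (ρ * c) := by positivity
        have := mul_le_mul_of_nonneg_left h1 h2
        linarith
    _ = _ := by ring

theorem numer (A0 η f0 F1 F2 F3 : ℝ) (hA : 0 < A0) (hη0 : 0 < η) (hη : η ≤ 1 / 1000)
    (hf : f0 = A0 * Real.log (2984 / 1000) / (3984 / 1000))
    (h1 : F1 = A0 / (2384 / 1000)) (h2 : F2 = A0 / (1784 / 1000)) (h3 : F3 = A0 / (1264 / 1000)) :
    A0 / 100 ≤ (f0 - A0 / 1000) - (
      39 / 80 * ((F1 + A0 / 1000) * (Real.log (1 / 5 / (1 / 8)) + η)) +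
      3 / 8 * ((F2 + A0 / 1000) * (Real.log (11 / 40 / (1 / 5)) + η)) +
      21 / 80 * ((F3 + A0 / 1000) * (Real.log (17 / 50 / (11 / 40)) + η)) +
      33 / 200 * ((A0 / (8 * (498 / 1000 - 39 / 100)) + A0 / 1000) * (Real.log (39 / 100 / (17 / 50)) + η)) +
      9 / 100 * ((A0 / (8 * (498 / 1000 - 21 / 50)) + A0 / 1000) * (Real.log (21 / 50 / (39 / 100)) + η)) +
      9 / 200 * ((A0 / (8 * (498 / 1000 - 9 / 20)) + A0 / 1000) * (Real.log (9 / 20 / (21 / 50)) + η))) := by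
  have l0 := log_lower
  have l1 : Real.log (1 / 5 / (1 / 8)) ≤ 0.484 :=
    log_le_quad (by norm_num) (by norm_num) (by norm_num)
  have l2 : Real.log (11 / 40 / (1 / 5)) ≤ 0.324 :=
    log_le_quad (by norm_num) (by norm_num) (by norm_num)
  have l3 : Real.log (17 / 50 / (11 / 40)) ≤ 0.214 :=
    log_le_quad (by norm_num) (by norm_num) (by norm_num)
  have l4 : Real.log (39 / 100 / (17 / 50)) ≤ 0.138 :=
    log_le_quad (by norm_num) (by norm_num) (by norm_num)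
  have l5 : Real.log (21 / 50 / (39 / 100)) ≤ 0.0745 :=
    log_le_quad (by norm_num) (by norm_num) (by norm_num)
  have l6 : Real.log (9 / 20 / (21 / 50)) ≤ 0.0695 :=
    log_le_quad (by norm_num) (by norm_num) (by norm_num)
  have b0 : A0 * 1.089 / (3984 / 1000) ≤ f0 := by
    rw [hf]
    have := mul_le_mul_of_nonneg_left l0 hA.le
    exact div_le_div_of_nonneg_right this (by norm_num)
  have c0 : A0 * 1.089 / (3984 / 1000) = A0 * (1.089 / (3984 / 1000)) := by ring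
  have c1 : F1 = A0 * (1000 / 2384) := by rw [h1]; ring
  have c2 : F2 = A0 * (1000 / 1784) := by rw [h2]; ring
  have c3 : F3 = A0 * (1000 / 1264) := by rw [h3]; ring
  have c4 : A0 / (8 * (498 / 1000 - 39 / 100)) = A0 * (1000 / 864) := by norm_num; ring
  have c5 : A0 / (8 * (498 / 1000 - 21 / 50)) = A0 * (1000 / 624) := by norm_num; ring
  have c6 : A0 / (8 * (498 / 1000 - 9 / 20)) = A0 * (1000 / 384) := by norm_num; ring
  rw [c4, c5, c6, c1, c2, c3]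
  rw [c0] at b0
  have b1 : (A0 * (1000 / 2384) + A0 / 1000) * (Real.log (1 / 5 / (1 / 8)) + η) ≤
      (A0 * (1000 / 2384) + A0 / 1000) * (0.484 + 1 / 1000) :=
    mul_le_mul_of_nonneg_left (by linarith) (by positivity)
  have b2 : (A0 * (1000 / 1784) + A0 / 1000) * (Real.log (11 / 40 / (1 / 5)) + η) ≤
      (A0 * (1000 / 1784) + A0 / 1000) * (0.324 + 1 / 1000) :=
    mul_le_mul_of_nonneg_left (by linarith) (by positivity)
  have b3 : (A0 * (1000 / 1264) + A0 / 1000) * (Real.log (17 / 50 / (11 / 40)) + η) ≤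
      (A0 * (1000 / 1264) + A0 / 1000) * (0.214 + 1 / 1000) :=
    mul_le_mul_of_nonneg_left (by linarith) (by positivity)
  have b4 : (A0 * (1000 / 864) + A0 / 1000) * (Real.log (39 / 100 / (17 / 50)) + η) ≤
      (A0 * (1000 / 864) + A0 / 1000) * (0.138 + 1 / 1000) :=
    mul_le_mul_of_nonneg_left (by linarith) (by positivity)
  have b5 : (A0 * (1000 / 624) + A0 / 1000) * (Real.log (21 / 50 / (39 / 100)) + η) ≤
      (A0 * (1000 / 624) + A0 / 1000) * (0.0745 + 1 / 1000) :=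
    mul_le_mul_of_nonneg_left (by linarith) (by positivity)
  have b6 : (A0 * (1000 / 384) + A0 / 1000) * (Real.log (9 / 20 / (21 / 50)) + η) ≤
      (A0 * (1000 / 384) + A0 / 1000) * (0.0695 + 1 / 1000) :=
    mul_le_mul_of_nonneg_left (by linarith) (by positivity)
  generalize (A0 * (1000 / 2384) + A0 / 1000) * (Real.log (1 / 5 / (1 / 8)) + η) = z1 at *
  generalize (A0 * (1000 / 1784) + A0 / 1000) * (Real.log (11 / 40 / (1 / 5)) + η) = z2 at *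
  generalize (A0 * (1000 / 1264) + A0 / 1000) * (Real.log (17 / 50 / (11 / 40)) + η) = z3 at *
  generalize (A0 * (1000 / 864) + A0 / 1000) * (Real.log (39 / 100 / (17 / 50)) + η) = z4 at *
  generalize (A0 * (1000 / 624) + A0 / 1000) * (Real.log (21 / 50 / (39 / 100)) + η) = z5 at *
  generalize (A0 * (1000 / 384) + A0 / 1000) * (Real.log (9 / 20 / (21 / 50)) + η) = z6 at *
  clear l0 l1 l2 l3 l4 l5 l6 c0 c1 c2 c3 c4 c5 c6 hf h1 h2 h3
  norm_num at b0 b1 b2 b3 b4 b5 b6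
  linarith

theorem count_id (Y : ℕ) (S P Q : Finset ℕ) (g : ℕ → ℕ → Prop) (ω : ℕ → ℝ) :
    ∑ n ∈ S.filter (fun n => ∀ p ∈ P, ¬ g p n),
        ω n * (1 - ∑ p ∈ Q.filter (fun p => g p n), rk Y p) =
      ∑ n ∈ S.filter (fun n => ∀ p ∈ P, ¬ g p n), ω n - ∑ p1 ∈ Q, rk Y p1 * BB P S g ω p1 := by
  have h1 : ∀ p1, BB P S g ω p1 =
      ∑ n ∈ S.filter (fun n => ∀ p ∈ P, ¬ g p n), if g p1 n then ω n else 0 := by
    intro p1
    unfold BB
    rw [filter_comm, sum_filter]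
  simp only [h1, mul_sum]
  rw [sum_comm, ← sum_sub_distrib]
  refine sum_congr rfl fun n _ => ?_
  rw [mul_sub, mul_one, sum_filter, mul_sum]
  congr 1
  apply sum_congr rfl
  intro p _
  split_ifs <;> ring

end

end AKR

open AKR

open Classical in
theorem AK (κ : ℕ) : ∃ ε₁ η c₀ C₀ : ℝ, 0 < ε₁ ∧ ε₁ ≤ 1 / 8 ∧ 0 < η ∧ 0 < c₀ ∧ 0 < C₀ ∧
    ∃ Y0 : ℕ, ∀ Y : ℕ, Y0 ≤ Y → ∀ (S : Finset ℕ) (g : ℕ → ℕ → Prop) (h : ℕ → ℝ),
    (∀ p ∈ PZ Y (9 / 20), 0 ≤ h p ∧ h p ≤ 1) →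
    (∀ p ∈ PZ Y (1 / 8), κ < p → h p ≤ κ / ((p : ℝ) - 1)) →
    Mer (pr Y ε₁ (9 / 20)) (tt Y) h ε₁ (9 / 20) η →
    ∀ (ω : ℕ → ℝ) (X : ℝ) (R : Finset ℕ → ℝ), (∀ n ∈ S, 0 ≤ ω n) → 0 ≤ X → (∀ T, 0 ≤ R T) →
    (∀ T : Finset ℕ, T ⊆ PZ Y (9 / 20) → ((∏ p ∈ T, p : ℕ) : ℝ) ≤ (Y : ℝ) ^ (499 / 1000 : ℝ) →
      |∑ n ∈ S.filter (fun n => ∀ p ∈ T, g p n), ω n - X * ∏ p ∈ T, h p| ≤ R T) →
    (c₀ * (X * ∏ p ∈ PZ Y (1 / 8), (1 - h p)) - 10 * Real.log Y *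
        ∑ T ∈ (PZ Y (9 / 20)).powerset.filter (fun T => ((∏ p ∈ T, p : ℕ) : ℝ) ≤ (Y : ℝ) ^ (499 / 1000 : ℝ)), R T ≤
      ∑ n ∈ S.filter (fun n => ∀ p ∈ PZ Y (1 / 8), ¬ g p n),
        ω n * (1 - ∑ p ∈ (pr Y (1 / 8) (9 / 20)).filter (fun p => g p n), rk Y p)) ∧
    (∑ n ∈ S.filter (fun n => ∀ p ∈ PZ Y (1 / 8), ¬ g p n), ω n ≤
      C₀ * (X * ∏ p ∈ PZ Y (1 / 8), (1 - h p)) + 10 * Real.log Y *
        ∑ T ∈ (PZ Y (9 / 20)).powerset.filter (fun T => ((∏ p ∈ T, p : ℕ) : ℝ) ≤ (Y : ℝ) ^ (499 / 1000 : ℝ)), R T) := by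
  obtain ⟨A0, F, f, hSF⟩ := Pool.Agent.W366.DC.SFX
  have hA0 := hSF.pos
  have he : 0 < A0 / 1000 := by positivity
  obtain ⟨ε0, η0, p01, p02, p03, Y0, hY0⟩ := JR.core5 κ A0 F f hSF (498 / 1000) (1 / 8)
    (499 / 1000) (A0 / 1000) (by norm_num) (by norm_num) (by norm_num) (by norm_num) he
  obtain ⟨ε1, η1, p11, p12, p13, Y1, hY1⟩ := cell κ A0 F f hSF (1 / 8) (1 / 5) (A0 / 1000)
    (by norm_num) (by norm_num) (by norm_num) he
  obtain ⟨ε2, η2, p21, p22, p23, Y2, hY2⟩ := cell κ A0 F f hSF (1 / 5) (11 / 40) (A0 / 1000)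
    (by norm_num) (by norm_num) (by norm_num) he
  obtain ⟨ε3, η3, p31, p32, p33, Y3, hY3⟩ := cell κ A0 F f hSF (11 / 40) (17 / 50) (A0 / 1000)
    (by norm_num) (by norm_num) (by norm_num) he
  obtain ⟨ε4, η4, p41, p42, p43, Y4, hY4⟩ := cell2 κ A0 F f hSF (17 / 50) (39 / 100) (A0 / 1000)
    (by norm_num) (by norm_num) (by norm_num) (by norm_num) he
  obtain ⟨ε5, η5, p51, p52, p53, Y5, hY5⟩ := cell2 κ A0 F f hSF (39 / 100) (21 / 50) (A0 / 1000)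
    (by norm_num) (by norm_num) (by norm_num) (by norm_num) he
  obtain ⟨ε6, η6, p61, p62, p63, Y6, hY6⟩ := cell2 κ A0 F f hSF (21 / 50) (9 / 20) (A0 / 1000)
    (by norm_num) (by norm_num) (by norm_num) (by norm_num) he
  obtain ⟨ε, hε, i0, i1, i2, i3, i4, i5, i6⟩ : ∃ ε : ℝ, 0 < ε ∧ ε ≤ ε0 ∧ ε ≤ ε1 ∧ ε ≤ ε2 ∧ ε ≤ ε3 ∧
      ε ≤ ε4 ∧ ε ≤ ε5 ∧ ε ≤ ε6 :=
    ⟨min ε0 (min ε1 (min ε2 (min ε3 (min ε4 (min ε5 ε6))))), by positivity, by simp, by simp, by simp,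
      by simp, by simp, by simp, by simp⟩
  obtain ⟨η, hη, j0, j1, j2, j3, j4, j5, j7, j6⟩ : ∃ η : ℝ, 0 < η ∧ η ≤ η0 ∧ η ≤ η1 ∧ η ≤ η2 ∧
      η ≤ η3 ∧ η ≤ η4 ∧ η ≤ η5 ∧ η ≤ η6 ∧ η ≤ 1 / 1000 :=
    ⟨min η0 (min η1 (min η2 (min η3 (min η4 (min η5 (min η6 (1 / 1000))))))), by positivity, by simp,
      by simp, by simp, by simp, by simp, by simp, by simp, by simp⟩
  have hF1 : 1 ≤ F (498 / 1000 / (1 / 8)) := hSF.F1 _ (by norm_num)
  refine ⟨ε, η, A0 / 100, F (498 / 1000 / (1 / 8)) + A0 / 1000, hε, i0.trans p02, hη, by positivity,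
    by linarith, Y0 + Y1 + Y2 + Y3 + Y4 + Y5 + Y6 + 2, ?_⟩
  intro Y hY S g h hh hκ hM ω X R hω hX hR hA
  have hYr : (2 : ℝ) ≤ Y := by
    have : 2 ≤ Y := by omega
    exact_mod_cast this
  have hlog : 0 ≤ Real.log Y := Real.log_nonneg (by linarith)
  have hsub : PZ Y (1 / 8) ⊆ PZ Y (9 / 20) := PZ_mono (by norm_num)
  have hV : 0 ≤ ∏ p ∈ PZ Y (1 / 8), (1 - h p) :=
    prod_nonneg fun p hp => by linarith [(hh p (hsub hp)).2]
  set V : ℝ := ∏ p ∈ PZ Y (1 / 8), (1 - h p) with hVdef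
  change A0 / 100 * (X * V) - 10 * Real.log Y * EA Y R ≤ _ ∧ _ ≤ _ + 10 * Real.log Y * EA Y R
  have hEA : 0 ≤ EA Y R := sum_nonneg fun T _ => hR T
  -- sieve weights
  obtain ⟨wU, wL, k1, k2, k3, k4⟩ := hY0 Y (by omega)
  obtain ⟨k5, k6⟩ := k4 h (fun p hp => (hh p (hsub hp)).1) (fun p hp => (hh p (hsub hp)).2) hκ
    (Mer_restrict i0 (by norm_num) j0 hM)
  set D0 : Finset (Finset ℕ) := (PZ Y (1 / 8)).powerset.filter
    (fun T => ((∏ p ∈ T, p : ℕ) : ℝ) ≤ (Y : ℝ) ^ (499 / 1000 : ℝ)) with hD0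
  have hD0le : ∑ T ∈ D0, R T ≤ EA Y R := by
    unfold EA
    refine sum_le_sum_of_subset_of_nonneg ?_ fun T _ _ => hR T
    exact filter_subset_filter _ (powerset_mono.2 hsub)
  have hA' : ∀ T ∈ D0, T ⊆ PZ Y (1 / 8) →
      |∑ n ∈ S.filter (fun n => ∀ p ∈ T, g p n), ω n - X * ∏ p ∈ T, h p| ≤ R T := by
    intro T hT hT'
    rw [hD0, mem_filter] at hT
    exact hA T (hT'.trans hsub) hT.2
  have low := lower_gen (P := PZ Y (1 / 8)) PZ_prime g wL S ω hω R X (5 * Real.log Y) h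
    (fun T => (k1 T).2) (by positivity) D0
    (fun T hT hw => mem_filter.2 ⟨mem_powerset.2 hT, k2 T hT (Or.inr hw)⟩) hA' (fun T _ => hR T)
    (fun N => (k3 N).1)
  have upp := upper_gen (P := PZ Y (1 / 8)) PZ_prime g wU S ω hω R X (5 * Real.log Y) h
    (fun T => (k1 T).1) (by positivity) D0
    (fun T hT hw => mem_filter.2 ⟨mem_powerset.2 hT, k2 T hT (Or.inl hw)⟩) hA' (fun T _ => hR T)
    (fun N => (k3 N).2)
  rw [← hVdef] at k5 k6
  have m5 := mul_le_mul_of_nonneg_left k5 hX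
  have m6 := mul_le_mul_of_nonneg_left k6 hX
  have hE5 : 5 * Real.log Y * ∑ T ∈ D0, R T ≤ 5 * Real.log Y * EA Y R :=
    mul_le_mul_of_nonneg_left hD0le (by positivity)
  have hE0 : 0 ≤ 5 * Real.log Y * EA Y R := by positivity
  constructor
  · have cid := count_id Y S (PZ Y (1 / 8)) (pr Y (1 / 8) (9 / 20)) g ω
    refine le_trans ?_ (le_of_eq (cid.symm.trans ?_))
    swap
    · congr!
    -- the cells
    have q1 := hY1 Y (by omega) S g h hh hκ (Mer_restrict i1 (by norm_num) j1 hM) ω X R hω hX hR hA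
    have q2 := hY2 Y (by omega) S g h hh hκ (Mer_restrict i2 (by norm_num) j2 hM) ω X R hω hX hR hA
    have q3 := hY3 Y (by omega) S g h hh hκ (Mer_restrict i3 (by norm_num) j3 hM) ω X R hω hX hR hA
    have q4 := hY4 Y (by omega) S g h hh hκ (Mer_restrict i4 (by norm_num) j4 hM) ω X R hω hX hR hA
    have q5 := hY5 Y (by omega) S g h hh hκ (Mer_restrict i5 (by norm_num) j5 hM) ω X R hω hX hR hA
    have q6 := hY6 Y (by omega) S g h hh hκ (Mer_restrict i6 (by norm_num) j7 hM) ω X R hω hX hR hA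
    rw [← hVdef] at q1 q2 q3 q4 q5 q6
    have v1 : F (8 * (498 / 1000 - 1 / 5)) = A0 / (2384 / 1000) := by
      rw [hSF.F3 _ (by norm_num) (by norm_num)]; norm_num
    have v2 : F (8 * (498 / 1000 - 11 / 40)) = A0 / (1784 / 1000) := by
      rw [hSF.F3 _ (by norm_num) (by norm_num)]; norm_num
    have v3 : F (8 * (498 / 1000 - 17 / 50)) = A0 / (1264 / 1000) := by
      rw [hSF.F3 _ (by norm_num) (by norm_num)]; norm_num
    have v0 : f (498 / 1000 / (1 / 8)) = A0 * Real.log (2984 / 1000) / (3984 / 1000) := by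
      rw [hSF.f4 _ (by norm_num) (by norm_num)]; norm_num
    have hE1nn : ∀ p, 0 ≤ E1 Y R p := fun p => sum_nonneg fun T _ => hR _
    have h5L : 0 ≤ 5 * Real.log Y := by positivity
    have hhp : ∀ a b : ℝ, b ≤ 9 / 20 → ∀ p ∈ pr Y a b, 0 ≤ h p := fun a b hb p hp => (hh p (pr_subset_PZ hb hp)).1
    have w1 := cell_sum (c := F (8 * (498 / 1000 - 1 / 5)) + A0 / 1000) (ρ := 39 / 80) hM
      (by linarith) (by norm_num) (by norm_num) hX hV (by rw [v1]; positivity) h5L hE1nn (hhp _ _ (by norm_num)) (by norm_num) (by norm_num) q1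
    have w2 := cell_sum (c := F (8 * (498 / 1000 - 11 / 40)) + A0 / 1000) (ρ := 3 / 8) hM
      (by linarith) (by norm_num) (by norm_num) hX hV (by rw [v2]; positivity) h5L hE1nn (hhp _ _ (by norm_num)) (by norm_num) (by norm_num) q2
    have w3 := cell_sum (c := F (8 * (498 / 1000 - 17 / 50)) + A0 / 1000) (ρ := 21 / 80) hM
      (by linarith) (by norm_num) (by norm_num) hX hV (by rw [v3]; positivity) h5L hE1nn (hhp _ _ (by norm_num)) (by norm_num) (by norm_num) q3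
    have w4 := cell_sum (c := A0 / (8 * (498 / 1000 - 39 / 100)) + A0 / 1000) (ρ := 33 / 200) hM
      (by linarith) (by norm_num) (by norm_num) hX hV (by norm_num; positivity) h5L hE1nn (hhp _ _ (by norm_num)) (by norm_num) (by norm_num) q4
    have w5 := cell_sum (c := A0 / (8 * (498 / 1000 - 21 / 50)) + A0 / 1000) (ρ := 9 / 100) hM
      (by linarith) (by norm_num) (by norm_num) hX hV (by norm_num; positivity) h5L hE1nn (hhp _ _ (by norm_num)) (by norm_num) (by norm_num) q5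
    have w6 := cell_sum (c := A0 / (8 * (498 / 1000 - 9 / 20)) + A0 / 1000) (ρ := 9 / 200) hM
      (by linarith) (by norm_num) (by norm_num) hX hV (by norm_num; positivity) h5L hE1nn (hhp _ _ (by norm_num)) (by norm_num) (by norm_num) q6
    have sp : ∀ u : ℕ → ℝ, ∑ p ∈ pr Y (1 / 8) (9 / 20), u p =
        ∑ p ∈ pr Y (1 / 8) (1 / 5), u p + (∑ p ∈ pr Y (1 / 5) (11 / 40), u p +
        (∑ p ∈ pr Y (11 / 40) (17 / 50), u p + (∑ p ∈ pr Y (17 / 50) (39 / 100), u p +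
          (∑ p ∈ pr Y (39 / 100) (21 / 50), u p + ∑ p ∈ pr Y (21 / 50) (9 / 20), u p)))) := by
      intro u
      rw [sum_pr_split (b := 1 / 5) (by norm_num) (by norm_num),
        sum_pr_split (a := 1 / 5) (b := 11 / 40) (by norm_num) (by norm_num),
        sum_pr_split (a := 11 / 40) (b := 17 / 50) (by norm_num) (by norm_num),
        sum_pr_split (a := 17 / 50) (b := 39 / 100) (by norm_num) (by norm_num),
        sum_pr_split (a := 39 / 100) (b := 21 / 50) (by norm_num) (by norm_num)]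
    have hE1 := sum_E1_le Y R hR
    rw [sp] at hE1
    rw [sp]
    have num := numer A0 η _ _ _ _ hA0 hη j6 v0 v1 v2 v3
    have num' := mul_le_mul_of_nonneg_left num (mul_nonneg hX hV)
    have hE1' := mul_le_mul_of_nonneg_left hE1 (by positivity : 0 ≤ 5 * Real.log Y)
    clear_value V
    generalize (∑ p ∈ pr Y (1 / 8) (1 / 5), rk Y p * BB (PZ Y (1 / 8)) S g ω p) = b1 at *
    generalize (∑ p ∈ pr Y (1 / 5) (11 / 40), rk Y p * BB (PZ Y (1 / 8)) S g ω p) = b2 at *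
    generalize (∑ p ∈ pr Y (11 / 40) (17 / 50), rk Y p * BB (PZ Y (1 / 8)) S g ω p) = b3 at *
    generalize (∑ p ∈ pr Y (17 / 50) (39 / 100), rk Y p * BB (PZ Y (1 / 8)) S g ω p) = b4 at *
    generalize (∑ p ∈ pr Y (39 / 100) (21 / 50), rk Y p * BB (PZ Y (1 / 8)) S g ω p) = b5 at *
    generalize (∑ p ∈ pr Y (21 / 50) (9 / 20), rk Y p * BB (PZ Y (1 / 8)) S g ω p) = b6 at *
    linarith
  · refine (le_of_eq ?_).trans (upp.trans ?_)
    · congr!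
    linarith

end Pool.Agent.H536.OR
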