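import Mathlib
import Pool.Agent.H536.OC.SubC
import Pool.Agent.H536.OR.RA

open Finset

/-! Bonferroni in the middle range combined with the weighted linear sieve. -/

namespace Pool.Agent.H536.OR

open Pool.Agent.Y882 Pool.Agent.W23.DC
open Pool.Agent.H536.OC.SubC (WS Ef Ef_zero Ef_empty Ef_insert Ef_nonneg prod_01 bonf pow_aux Ef_le sum_le_exp Fam Fam_sum ind ind_01 ind_prod
  ind_prod' ws_mul ws_fam ws_fam0 Rf loc rf_sum Rf_nonneg ptw)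

namespace SubC

open Classical in
/-- the weighted linear sieve: PROVED (`AK` in `RA.lean`) -/
def S_AK : Prop := ∀ κ : ℕ, ∃ ε₁ η c₀ C₀ : ℝ, 0 < ε₁ ∧ ε₁ ≤ 1 / 8 ∧ 0 < η ∧ 0 < c₀ ∧ 0 < C₀ ∧
    ∃ Y0 : ℕ, ∀ Y : ℕ, Y0 ≤ Y → ∀ (S : Finset ℕ) (g : ℕ → ℕ → Prop) (h : ℕ → ℝ),
    (∀ p ∈ PZ Y (9 / 20), 0 ≤ h p ∧ h p ≤ 1) →
    (∀ p ∈ PZ Y (1 / 8), κ < p → h p ≤ κ / ((p : ℝ) - 1)) →
    Mer (pr Y ε₁ (9 / 20)) (tt Y) h ε₁ (9 / 20) η →
    ∀ (ω : ℕ → ℝ) (X : ℝ) (R : Finset ℕ → ℝ), (∀ n ∈ S, 0 ≤ ω n) → 0 ≤ X → (∀ T, 0 ≤ R T) →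
    (∀ T : Finset ℕ, T ⊆ PZ Y (9 / 20) → ((∏ p ∈ T, p : ℕ) : ℝ) ≤ (Y : ℝ) ^ (499 / 1000 : ℝ) →
      |∑ n ∈ S.filter (fun n => ∀ p ∈ T, g p n), ω n - X * ∏ p ∈ T, h p| ≤ R T) →
    (c₀ * (X * ∏ p ∈ PZ Y (1 / 8), (1 - h p)) - 10 * Real.log Y *
        ∑ T ∈ (PZ Y (9 / 20)).powerset.filter (fun T => ((∏ p ∈ T, p : ℕ) : ℝ) ≤ (Y : ℝ) ^ (499 / 1000 : ℝ)), R T ≤
      ∑ n ∈ S.filter (fun n => ∀ p ∈ PZ Y (1 / 8), ¬ g p n),
        ω n * (1 - ∑ p ∈ (pr Y (1 / 8) (9 / 20)).filter (fun p => g p n), rk Y p)) ∧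
    (∑ n ∈ S.filter (fun n => ∀ p ∈ PZ Y (1 / 8), ¬ g p n), ω n ≤
      C₀ * (X * ∏ p ∈ PZ Y (1 / 8), (1 - h p)) + 10 * Real.log Y *
        ∑ T ∈ (PZ Y (9 / 20)).powerset.filter (fun T => ((∏ p ∈ T, p : ℕ) : ℝ) ≤ (Y : ℝ) ^ (499 / 1000 : ℝ)), R T)

open Classical in
theorem PZ_sub (Y : ℕ) (P : Finset ℕ) (hPZ : P ⊆ PZ Y (9 / 20)) (p : ℕ) :
    (p ∈ PZ Y (1 / 8) ∧ p ∈ P) ↔ (p ∈ P ∧ tt Y p < 1 / 8) := by
  unfold PZ at *
  rw [Finset.mem_filter]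
  constructor
  · rintro ⟨⟨_, _, h⟩, h2⟩
    exact ⟨h2, h⟩
  · rintro ⟨h, h2⟩
    have h3 := Finset.mem_filter.1 (hPZ h)
    exact ⟨⟨h3.1, h3.2.1, h2⟩, h⟩

open Classical in
theorem pr_sub (Y : ℕ) (P : Finset ℕ) (hPZ : P ⊆ PZ Y (9 / 20)) (g : ℕ → ℕ → Prop) (n : ℕ)
    (g' : ℕ → ℕ → Prop) (hg' : ∀ p n, g' p n ↔ (p ∈ P ∧ g p n)) :
    (pr Y (1 / 8) (9 / 20)).filter (fun p => g' p n) =
      P.filter (fun p => 1 / 8 ≤ tt Y p ∧ g p n) := by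
  ext p
  rw [Finset.mem_filter, Finset.mem_filter, hg']
  unfold pr
  unfold PZ at hPZ
  rw [Finset.mem_filter]
  constructor
  · rintro ⟨⟨_, _, h, _⟩, h2, h3⟩
    exact ⟨h2, h, h3⟩
  · rintro ⟨h, h2, h3⟩
    have h4 := Finset.mem_filter.1 (hPZ h)
    exact ⟨⟨h4.1, h4.2.1, h2, h4.2.2⟩, h, h3⟩

open Classical in
theorem ML (hAK : S_AK) (κ : ℕ) : ∃ ε₁ η c₀ C₀ : ℝ, 0 < ε₁ ∧ ε₁ ≤ 1 / 8 ∧ 0 < η ∧ 0 < c₀ ∧ 0 < C₀ ∧
    ∃ Y0 : ℕ, ∀ Y : ℕ, Y0 ≤ Y →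
    ∀ (S : Finset ℕ) (g : ℕ → ℕ → Prop) (P Mid : Finset ℕ) (l1 r : ℕ) (h hm ω : ℕ → ℝ) (F MM ε' X3 lam0 δE : ℝ)
      (Er : Finset ℕ → Finset ℕ → ℝ),
    P ⊆ PZ Y (9 / 20) → Disjoint Mid P → l1 ∉ Mid → l1 ∉ P →
    (∀ p, p ∉ P → h p = 0) → (∀ p ∈ P, 0 ≤ h p ∧ h p ≤ 1 ∧ h p ≤ κ / ((p : ℝ) - 1)) →
    Mer (pr Y ε₁ (9 / 20)) (tt Y) h ε₁ (9 / 20) η →
    (∀ n ∈ S, 0 ≤ ω n) → 0 ≤ F → 0 ≤ MM → 0 ≤ ε' → 0 ≤ δE → 0 ≤ X3 → (∀ D T, 0 ≤ Er D T) →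
    (∀ p ∈ Mid, 0 ≤ hm p ∧ hm p ≤ 1) → ∑ p ∈ Mid, hm p ≤ lam0 →
    (∀ D ⊆ Mid, D.card ≤ 2 * r + 1 → |WS S ω g D - MM * F * ∏ p ∈ D, hm p| ≤ ε' * F * ∏ p ∈ D, hm p) →
    WS S ω g {l1} ≤ X3 * F →
    (∀ D T : Finset ℕ, ((D ⊆ Mid ∧ D.card ≤ 2 * r + 1) ∨ D = {l1}) → T ⊆ P →
      ((∏ p ∈ T, p : ℕ) : ℝ) ≤ (Y : ℝ) ^ (499 / 1000 : ℝ) →
      |WS S ω g (D ∪ T) - WS S ω g D * ∏ p ∈ T, h p| ≤ Er D T) →
    (∀ D ⊆ Mid, D.card ≤ 2 * r + 1 →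
      ∑ T ∈ P.powerset.filter (fun T => ((∏ p ∈ T, p : ℕ) : ℝ) ≤ (Y : ℝ) ^ (499 / 1000 : ℝ)), Er D T ≤ δE * F * ∏ p ∈ D, hm p) →
    ∑ T ∈ P.powerset.filter (fun T => ((∏ p ∈ T, p : ℕ) : ℝ) ≤ (Y : ℝ) ^ (499 / 1000 : ℝ)), Er {l1} T ≤ δE * F →
    F * ((c₀ * (MM * ∏ p ∈ Mid, (1 - hm p) - ε' * Real.exp lam0) -
        C₀ * ((MM + ε') * (lam0 ^ (2 * r + 1) / (2 * r + 1).factorial)) - C₀ * X3) *
        ∏ p ∈ P.filter (fun p => tt Y p < 1 / 8), (1 - h p) - 30 * Real.log Y * δE * Real.exp lam0) ≤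
      ∑ n ∈ S.filter (fun n => (∀ p ∈ Mid, ¬ g p n) ∧ ¬ g l1 n ∧ ∀ p ∈ P, tt Y p < 1 / 8 → ¬ g p n),
        ω n * (1 - ∑ p ∈ P.filter (fun p => 1 / 8 ≤ tt Y p ∧ g p n), rk Y p) := by
  classical
  obtain ⟨ε₁, η, c₀, C₀, h1, h2, h3, h4, h5, Y0, hY0⟩ := hAK κ
  refine ⟨ε₁, η, c₀, C₀, h1, h2, h3, h4, h5, Y0, ?_⟩
  intro Y hY S g P Mid l1 r h hm ω F MM ε' X3 lam0 δE Er hPZ hMidP hl1M hl1P hP0 hP hMer hω hF hMM
    hε' hδ hX3 hEr hhm hlam hWS hWS1 hErr hS1 hS2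
  have hcond1 : ∀ p ∈ PZ Y (9 / 20), 0 ≤ h p ∧ h p ≤ 1 := by
    intro p _
    by_cases hp : p ∈ P
    · exact ⟨(hP p hp).1, (hP p hp).2.1⟩
    · rw [hP0 p hp]
      norm_num
  have hcond2 : ∀ p ∈ PZ Y (1 / 8), κ < p → h p ≤ κ / ((p : ℝ) - 1) := by
    intro p _ hκp
    by_cases hp : p ∈ P
    · exact (hP p hp).2.2
    · rw [hP0 p hp]
      have h6 : (1 : ℝ) ≤ p := by exact_mod_cast (by omega : 1 ≤ p)
      exact div_nonneg (Nat.cast_nonneg _) (by linarith)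
  obtain ⟨g', hg'⟩ : ∃ g' : ℕ → ℕ → Prop, ∀ p n, g' p n ↔ (p ∈ P ∧ g p n) :=
    ⟨fun p n => p ∈ P ∧ g p n, fun _ _ => Iff.rfl⟩
  have AK := hY0 Y hY S g' h hcond1 hcond2 hMer
  have gen : ∀ (A : Finset (Finset ℕ)) (c : Finset ℕ → ℝ), (∀ D ∈ A, |c D| ≤ 1) →
      (∀ D ∈ A, (D ⊆ Mid ∧ D.card ≤ 2 * r + 1) ∨ D = {l1}) →
      (∀ n ∈ S, 0 ≤ ω n * ∑ D ∈ A, c D * ∏ p ∈ D, ind g n p) → _ :=
    fun A c hc hA hpos =>
      AK (fun n => ω n * ∑ D ∈ A, c D * ∏ p ∈ D, ind g n p) (∑ D ∈ A, c D * WS S ω g D)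
        (Rf P Er A) hpos
        (by
          rw [← ws_fam0]
          exact Finset.sum_nonneg hpos)
        (Rf_nonneg P Er hEr A)
        (fun T _ hsz => loc S ω g P h hP0 Er A c hc T g' hg' fun hTP D hD => hErr D T (hA D hD) hTP hsz)
  simp only [rf_sum P _ hPZ] at gen
  set Pi := ∏ p ∈ P.filter (fun p => tt Y p < 1 / 8), (1 - h p) with hPi
  have ePi : ∏ p ∈ PZ Y (1 / 8), (1 - h p) = Pi := by
    rw [hPi]
    symm
    refine Finset.prod_subset (fun p hp => ?_) fun p hp hp' => ?_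
    · rw [Finset.mem_filter] at hp
      exact ((PZ_sub Y P hPZ p).2 hp).1
    · have hpP : p ∉ P := fun h => hp' (Finset.mem_filter.2 ((PZ_sub Y P hPZ p).1 ⟨hp, h⟩))
      rw [hP0 p hpP, sub_zero]
  have hPi0 : 0 ≤ Pi := Finset.prod_nonneg fun p hp => by
    linarith [(hP p (Finset.mem_filter.1 hp).1).2.1]
  set S' := S.filter (fun n => ∀ p ∈ PZ Y (1 / 8), ¬ g' p n) with hS'
  set y : ℕ → ℝ := fun n =>
    1 - ∑ p ∈ P.filter (fun p => 1 / 8 ≤ tt Y p ∧ g p n), rk Y p with hy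
  have ey : ∀ n, 1 - ∑ p ∈ (pr Y (1 / 8) (9 / 20)).filter
      (fun p => g' p n), rk Y p = y n := by
    intro n
    rw [hy, pr_sub Y P hPZ g n g' hg']
  simp only [ey, ePi] at gen
  have hindnn : ∀ n (D : Finset ℕ), 0 ≤ ∏ p ∈ D, ind g n p := fun n D =>
    Finset.prod_nonneg fun p _ => (ind_01 g n p).1
  set a : ℕ → ℝ := fun n => ∏ p ∈ Mid, (1 - ind g n p) with ha
  have ha01 : ∀ n, a n = 0 ∨ a n = 1 := by
    intro n
    rw [ha]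
    simp only
    rw [ind_prod']
    split_ifs
    · right; rfl
    · left; rfl
  have hb01 : ∀ n, ind g n l1 = 0 ∨ ind g n l1 = 1 := by
    intro n
    unfold ind
    split_ifs
    · right; rfl
    · left; rfl
  have hup : ∀ n, a n ≤ ∑ D ∈ Fam Mid (2 * r), (-1 : ℝ) ^ D.card * ∏ p ∈ D, ind g n p := by
    intro n
    rw [Fam_sum]
    have := bonf (ind g n) Mid (fun p _ => ind_01 g n p) (2 * r)
    rw [pow_mul, neg_one_sq, one_pow, one_mul] at this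
    linarith
  have hlow : ∀ n, ∑ D ∈ Fam Mid (2 * r), (-1 : ℝ) ^ D.card * ∏ p ∈ D, ind g n p - a n ≤
      ∑ D ∈ Mid.powersetCard (2 * r + 1), 1 * ∏ p ∈ D, ind g n p := by
    intro n
    rw [Fam_sum]
    have := bonf (ind g n) Mid (fun p _ => ind_01 g n p) (2 * r + 1)
    rw [Finset.sum_range_succ _ (2 * r + 1), pow_succ, pow_mul, neg_one_sq, one_pow, one_mul] at this
    simp only [one_mul]
    change _ ≤ Ef (ind g n) Mid (2 * r + 1)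
    linarith
  have ha0 : ∀ n, 0 ≤ a n := fun n => by rcases ha01 n with h | h <;> rw [h] <;> norm_num
  -- the three applications
  have g1 := (gen (Fam Mid (2 * r)) (fun D => (-1) ^ D.card)
    (fun D _ => by rw [abs_pow, abs_neg, abs_one, one_pow])
    (fun D hD => by
      rw [Fam, Finset.mem_filter, Finset.mem_powerset] at hD
      exact Or.inl ⟨hD.1, by omega⟩)
    (fun n hn => mul_nonneg (hω n hn) ((ha0 n).trans (hup n)))).1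
  have g2 := (gen (Mid.powersetCard (2 * r + 1)) (fun _ => 1)
    (fun D _ => by rw [abs_one])
    (fun D hD => by
      rw [Finset.mem_powersetCard] at hD
      exact Or.inl ⟨hD.1, by omega⟩)
    (fun n hn => mul_nonneg (hω n hn) (Finset.sum_nonneg fun D _ => by
      rw [one_mul]
      exact hindnn n D))).2
  have g3 := (gen {{l1}} (fun _ => 1)
    (fun D _ => by rw [abs_one])
    (fun D hD => by
      rw [Finset.mem_singleton] at hD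
      exact Or.inr hD)
    (fun n hn => mul_nonneg (hω n hn) (Finset.sum_nonneg fun D _ => by
      rw [one_mul]
      exact hindnn n D))).2
  -- the main terms
  have hhm0 : ∀ p ∈ Mid, 0 ≤ hm p := fun p hp => (hhm p hp).1
  have hprod0 : ∀ D ⊆ Mid, 0 ≤ ∏ p ∈ D, hm p := fun D hD =>
    Finset.prod_nonneg fun p hp => hhm0 p (hD hp)
  have hs0 : 0 ≤ ∑ p ∈ Mid, hm p := Finset.sum_nonneg hhm0
  have hlam0 : 0 ≤ lam0 := hs0.trans hlam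
  have hexp : 1 ≤ Real.exp lam0 := Real.one_le_exp hlam0
  have hFamM : ∀ D ∈ Fam Mid (2 * r), D ⊆ Mid ∧ D.card ≤ 2 * r + 1 := by
    intro D hD
    rw [Fam, Finset.mem_filter, Finset.mem_powerset] at hD
    exact ⟨hD.1, by omega⟩
  have hPsM : ∀ D ∈ Mid.powersetCard (2 * r + 1), D ⊆ Mid ∧ D.card ≤ 2 * r + 1 := by
    intro D hD
    rw [Finset.mem_powersetCard] at hD
    exact ⟨hD.1, by omega⟩
  have hX1 : F * (MM * ∏ p ∈ Mid, (1 - hm p) - ε' * Real.exp lam0) ≤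
      ∑ D ∈ Fam Mid (2 * r), (-1 : ℝ) ^ D.card * WS S ω g D := by
    have e1 : ∀ D ∈ Fam Mid (2 * r), MM * F * ((-1 : ℝ) ^ D.card * ∏ p ∈ D, hm p) -
        ε' * F * ∏ p ∈ D, hm p ≤ (-1 : ℝ) ^ D.card * WS S ω g D := by
      intro D hD
      have e2 := hWS D (hFamM D hD).1 (hFamM D hD).2
      have e3 : |(-1 : ℝ) ^ D.card * (WS S ω g D - MM * F * ∏ p ∈ D, hm p)| ≤
          ε' * F * ∏ p ∈ D, hm p := by
        rw [abs_mul, abs_pow, abs_neg, abs_one, one_pow, one_mul]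
        exact e2
      have e4 := (abs_le.1 e3).1
      have e5 : (-1 : ℝ) ^ D.card * (WS S ω g D - MM * F * ∏ p ∈ D, hm p) =
        (-1 : ℝ) ^ D.card * WS S ω g D - MM * F * ((-1 : ℝ) ^ D.card * ∏ p ∈ D, hm p) := by ring
      linarith
    refine le_trans ?_ (Finset.sum_le_sum e1)
    rw [Finset.sum_sub_distrib, ← Finset.mul_sum, ← Finset.mul_sum, Fam_sum]
    have e6 := bonf hm Mid hhm (2 * r)
    rw [pow_mul, neg_one_sq, one_pow, one_mul] at e6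
    have e7 := sum_le_exp hm Mid hhm0 (Fam Mid (2 * r))
      (fun D hD => Finset.mem_powerset.2 (hFamM D hD).1) lam0 hlam
    have e8 := mul_le_mul_of_nonneg_left e7 (mul_nonneg hε' hF)
    have e9 := mul_nonneg (mul_nonneg hMM hF) e6
    nlinarith
  have hX2 : ∑ D ∈ Mid.powersetCard (2 * r + 1), 1 * WS S ω g D ≤
      F * ((MM + ε') * (lam0 ^ (2 * r + 1) / (2 * r + 1).factorial)) := by
    have e1 : ∀ D ∈ Mid.powersetCard (2 * r + 1), 1 * WS S ω g D ≤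
        ((MM + ε') * F) * ∏ p ∈ D, hm p := by
      intro D hD
      have e2 := hWS D (hPsM D hD).1 (hPsM D hD).2
      have e4 := (abs_le.1 e2).2
      linarith
    refine (Finset.sum_le_sum e1).trans ?_
    rw [← Finset.mul_sum]
    change (MM + ε') * F * Ef hm Mid (2 * r + 1) ≤ _
    have e5 := Ef_le hm Mid hhm0 (2 * r + 1)
    have e6 : (∑ p ∈ Mid, hm p) ^ (2 * r + 1) / ((2 * r + 1).factorial : ℝ) ≤
        lam0 ^ (2 * r + 1) / (2 * r + 1).factorial :=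
      div_le_div_of_nonneg_right (pow_le_pow_left₀ hs0 hlam _) (by positivity)
    have e7 := mul_le_mul_of_nonneg_left (e5.trans e6)
      (mul_nonneg (add_nonneg hMM hε') hF)
    linarith
  have hX3 : ∑ D ∈ ({{l1}} : Finset (Finset ℕ)), 1 * WS S ω g D ≤ F * X3 := by
    rw [Finset.sum_singleton, one_mul]
    linarith
  -- the error terms
  have hδF : 0 ≤ δE * F := mul_nonneg hδ hF
  have hR1 : ∑ D ∈ Fam Mid (2 * r), ∑ T ∈ P.powerset.filter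
      (fun T => ((∏ p ∈ T, p : ℕ) : ℝ) ≤ (Y : ℝ) ^ (499 / 1000 : ℝ)), Er D T ≤
      δE * F * Real.exp lam0 := by
    refine (Finset.sum_le_sum fun D hD => hS1 D (hFamM D hD).1 (hFamM D hD).2).trans ?_
    rw [← Finset.mul_sum]
    exact mul_le_mul_of_nonneg_left (sum_le_exp hm Mid hhm0 (Fam Mid (2 * r))
      (fun D hD => Finset.mem_powerset.2 (hFamM D hD).1) lam0 hlam) hδF
  have hR2 : ∑ D ∈ Mid.powersetCard (2 * r + 1), ∑ T ∈ P.powerset.filter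
      (fun T => ((∏ p ∈ T, p : ℕ) : ℝ) ≤ (Y : ℝ) ^ (499 / 1000 : ℝ)), Er D T ≤
      δE * F * Real.exp lam0 := by
    refine (Finset.sum_le_sum fun D hD => hS1 D (hPsM D hD).1 (hPsM D hD).2).trans ?_
    rw [← Finset.mul_sum]
    exact mul_le_mul_of_nonneg_left (sum_le_exp hm Mid hhm0 (Mid.powersetCard (2 * r + 1))
      (fun D hD => Finset.mem_powerset.2 (hPsM D hD).1) lam0 hlam) hδF
  have hR3 : ∑ D ∈ ({{l1}} : Finset (Finset ℕ)), ∑ T ∈ P.powerset.filter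
      (fun T => ((∏ p ∈ T, p : ℕ) : ℝ) ≤ (Y : ℝ) ^ (499 / 1000 : ℝ)), Er D T ≤
      δE * F * Real.exp lam0 := by
    rw [Finset.sum_singleton]
    refine hS2.trans ?_
    have := mul_le_mul_of_nonneg_left hexp hδF
    linarith
  have hlog : 0 ≤ Real.log Y := Real.log_natCast_nonneg Y
  -- the right hand side
  have hrhs : ∑ n ∈ S.filter (fun n => (∀ p ∈ Mid, ¬ g p n) ∧ ¬ g l1 n ∧
      ∀ p ∈ P, tt Y p < 1 / 8 → ¬ g p n), ω n * y n =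
      ∑ n ∈ S', ω n * (a n * (1 - ind g n l1) * y n) := by
    rw [hS', Finset.sum_filter, Finset.sum_filter]
    refine Finset.sum_congr rfl fun n _ => ?_
    have e1 : (∀ p ∈ PZ Y (1 / 8), ¬ g' p n) ↔ (∀ p ∈ P, tt Y p < 1 / 8 → ¬ g p n) := by
      constructor
      · intro h p hp hp' hg
        exact h p ((PZ_sub Y P hPZ p).2 ⟨hp, hp'⟩).1 ((hg' p n).2 ⟨hp, hg⟩)
      · intro h p hp hg
        have h6 := (hg' p n).1 hg
        have h7 := (PZ_sub Y P hPZ p).1 ⟨hp, h6.1⟩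
        exact h p h7.1 h7.2 h6.2
    have e2 : a n = if ∀ p ∈ Mid, ¬ g p n then 1 else 0 := by
      rw [ha]
      simp only
      rw [ind_prod']
    have e3 : ind g n l1 = if g l1 n then 1 else 0 := rfl
    have e4 : (∀ p ∈ Mid, ¬ g p n) → a n = 1 := fun h => by rw [e2, if_pos h]
    have e5 : (¬ ∀ p ∈ Mid, ¬ g p n) → a n = 0 := fun h => by rw [e2, if_neg h]
    have e6 : g l1 n → ind g n l1 = 1 := fun h => by rw [e3, if_pos h]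
    have e7 : ¬ g l1 n → ind g n l1 = 0 := fun h => by rw [e3, if_neg h]
    split_ifs with A B B
    · rw [e4 A.1, e7 A.2.1]
      ring
    · exact absurd (e1.2 A.2.2) B
    · by_cases q2 : ∀ p ∈ Mid, ¬ g p n
      · by_cases q3 : g l1 n
        · rw [e6 q3]
          ring
        · exact absurd ⟨q2, q3, e1.1 B⟩ A
      · rw [e5 q2]
        ring
    · rfl
  have hpt : ∑ n ∈ S', (ω n * ∑ D ∈ Fam Mid (2 * r), (-1 : ℝ) ^ D.card * ∏ p ∈ D, ind g n p) * y n -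
      ∑ n ∈ S', ω n * ∑ D ∈ Mid.powersetCard (2 * r + 1), 1 * ∏ p ∈ D, ind g n p -
      ∑ n ∈ S', ω n * ∑ D ∈ ({{l1}} : Finset (Finset ℕ)), 1 * ∏ p ∈ D, ind g n p ≤
      ∑ n ∈ S', ω n * (a n * (1 - ind g n l1) * y n) := by
    rw [← Finset.sum_sub_distrib, ← Finset.sum_sub_distrib]
    refine Finset.sum_le_sum fun n hn => ?_
    have hnS : n ∈ S := by
      rw [hS'] at hn
      simp only [Finset.mem_filter] at hn
      exact hn.1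
    have hωn := hω n hnS
    have e1 : ∑ D ∈ ({{l1}} : Finset (Finset ℕ)), 1 * ∏ p ∈ D, ind g n p = ind g n l1 := by
      rw [Finset.sum_singleton, one_mul, Finset.prod_singleton]
    rw [e1]
    have hyn : y n ≤ 1 := by
      rw [hy]
      simp only
      have : (0 : ℝ) ≤ ∑ p ∈ P.filter (fun p => 1 / 8 ≤ tt Y p ∧ g p n), rk Y p := by
        apply Finset.sum_nonneg
        intro p hp
        have hp2 := hPZ (Finset.mem_filter.1 hp).1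
        unfold PZ at hp2
        exact rk_nonneg (Finset.mem_filter.1 hp2).2.2.le
      linarith
    have e2 := mul_le_mul_of_nonneg_left (ptw (a n) (ind g n l1) (y n) _ _ (ha01 n) (hb01 n) hyn
      (hup n) (hlow n)) hωn
    refine le_trans (le_of_eq ?_) e2
    ring
  rw [hrhs]
  refine le_trans ?_ hpt
  have f1 := mul_le_mul_of_nonneg_left (mul_le_mul_of_nonneg_right hX1 hPi0) h4.le
  have f2 := mul_le_mul_of_nonneg_left (mul_le_mul_of_nonneg_right hX2 hPi0) h5.le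
  have f3 := mul_le_mul_of_nonneg_left (mul_le_mul_of_nonneg_right hX3 hPi0) h5.le
  have hl10 : 0 ≤ 10 * Real.log Y := by linarith
  have f4 := mul_le_mul_of_nonneg_left hR1 hl10
  have f5 := mul_le_mul_of_nonneg_left hR2 hl10
  have f6 := mul_le_mul_of_nonneg_left hR3 hl10
  have e : F * ((c₀ * (MM * ∏ p ∈ Mid, (1 - hm p) - ε' * Real.exp lam0) -
        C₀ * ((MM + ε') * (lam0 ^ (2 * r + 1) / (2 * r + 1).factorial)) - C₀ * X3) * Pi -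
        30 * Real.log Y * δE * Real.exp lam0) =
      c₀ * (F * (MM * ∏ p ∈ Mid, (1 - hm p) - ε' * Real.exp lam0) * Pi) -
      C₀ * (F * ((MM + ε') * (lam0 ^ (2 * r + 1) / (2 * r + 1).factorial)) * Pi) -
      C₀ * (F * X3 * Pi) - 10 * Real.log Y * (δE * F * Real.exp lam0) -
      10 * Real.log Y * (δE * F * Real.exp lam0) - 10 * Real.log Y * (δE * F * Real.exp lam0) := by
    ring
  rw [e]
  linarith

end SubC

end Pool.Agent.H536.OR
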