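import Mathlib
import Pool.Agent.H536.OC.SubE
import Pool.Agent.H536.OR.RC

open Finset

/-! The weighted linear sieve for the weights `1 * χ`. -/

namespace Pool.Agent.H536.OR

open Pool.Agent.Y882 Pool.Agent.W23.DC Pool.Agent.H536.OB
open Pool.Agent.H536.OC.SubE (cardT errT gg_bd prod_low log_small)
open SubC (S_AK)

namespace SubE

open Classical in
theorem plusAK (hAK : S_AK) (κ : ℕ) : ∃ ε₁ η c₀ : ℝ, 0 < ε₁ ∧ ε₁ ≤ 1 / 8 ∧ 0 < η ∧ 0 < c₀ ∧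
    ∃ Y0 : ℕ, ∀ Y : ℕ, Y0 ≤ Y → ∀ (Q : ℕ) [NeZero Q] (χ : DirichletCharacter ℂ Q) (B : ℕ) (H : ℕ → Finset ℕ)
      (P : Finset ℕ), χ ≠ 1 → χ ^ 2 = 1 → 1 ≤ B → B ≤ Q → B.Coprime Q → cr χ B = 1 →
    (Q : ℝ) ≤ (Y : ℝ) ^ (1 / 10000 : ℝ) → P ⊆ PZ Y (9 / 20) → (∀ p ∈ P, 4 * κ + 4 ≤ p) →
    (∀ p ∈ P, H p ⊆ range p ∧ (H p).card ≤ κ) →
    Mer (pr Y ε₁ (9 / 20)) (tt Y) (fun p => if p ∈ P then gg χ B H p else 0) ε₁ (9 / 20) η →
    c₀ * (Y * (LV χ * ∏ p ∈ P.filter (fun p => tt Y p < 1 / 8), (1 - gg χ B H p))) ≤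
      ∑ t ∈ (range Y).filter (fun t => ∀ p ∈ P, tt Y p < 1 / 8 → t % p ∉ H p),
        rr χ (Q * t + B) * (1 - ∑ p ∈ P.filter (fun p => 1 / 8 ≤ tt Y p ∧ t % p ∈ H p), rk Y p) := by
  classical
  obtain ⟨ε₁, η, c₀, C₀, hε, hε8, hη, hc₀, _, Y0, hmain⟩ := hAK (2 * κ)
  obtain ⟨Ce, hCe, herr⟩ := errT κ
  obtain ⟨c1, hc1, hprod⟩ := prod_low κ
  obtain ⟨c2, hc2, hLV⟩ := LV_low
  obtain ⟨Y1, hY1⟩ := log_small (10 * Ce) (c₀ * c2 * c1 ^ (4 * κ)) (by positivity) (4 * κ + 1)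
  refine ⟨ε₁, η, c₀, hε, hε8, hη, hc₀, Y0 + Y1 + 16, ?_⟩
  intro Y hY Q _ χ B H P hχ hχ2 hB1 hBQ hBco hBχ hQY hP hP4 hH hMer
  have hY16 : 16 ≤ Y := by omega
  have hYr : (16 : ℝ) ≤ Y := by exact_mod_cast hY16
  have hYp : (0 : ℝ) < Y := by linarith
  have hlog : 0 < Real.log Y := Real.log_pos (by linarith)
  have hQ : 0 < Q := Nat.pos_of_ne_zero (NeZero.ne Q)
  have hQr : (0 : ℝ) < Q := by exact_mod_cast hQ
  have hmemPZ : ∀ {ζ : ℝ} {p : ℕ}, p ∈ PZ Y ζ ↔ (1 ≤ p ∧ p ≤ Y) ∧ p.Prime ∧ tt Y p < ζ := by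
    intro ζ p
    unfold PZ
    rw [mem_filter, mem_Icc]
  have hPp : ∀ p ∈ P, p.Prime := fun p hp => (hmemPZ.1 (hP hp)).2.1
  have hPY : ∀ p ∈ P, p ≤ Y := fun p hp => (hmemPZ.1 (hP hp)).1.2
  have hgg0 : ∀ p ∈ P, 0 ≤ gg χ B H p := fun p hp => (gg_bd hχ2 (hPp p hp) (hH p hp).2).1
  have hggle : ∀ p ∈ P, gg χ B H p ≤ ((2 * κ : ℕ) : ℝ) / ((p : ℝ) - 1) ∧ gg χ B H p ≤ 1 := by
    intro p hp
    have h1 := (gg_bd (B := B) hχ2 (hPp p hp) (hH p hp).2).2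
    have h2 : (2 : ℝ) ≤ p := by exact_mod_cast (hPp p hp).two_le
    constructor
    · exact h1.trans (div_le_div_of_nonneg_left (Nat.cast_nonneg _) (by linarith) (by linarith))
    · refine h1.trans ?_
      rw [div_le_one (by linarith)]
      have := hP4 p hp
      exact_mod_cast (show 2 * κ ≤ p by omega)
  have h16 : 16 ≤ Q * Y := by nlinarith
  have hL : 0 < LV χ := LV_pos hχ hχ2
  set h : ℕ → ℝ := fun p => if p ∈ P then gg χ B H p else 0 with hh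
  have hval := (hmain Y (by omega) (range Y) (fun p t => p ∈ P ∧ t % p ∈ H p) h
    (by
      intro p _
      rw [hh]
      by_cases hp : p ∈ P
      · simp only [if_pos hp]
        exact ⟨hgg0 p hp, (hggle p hp).2⟩
      · simp only [if_neg hp]
        exact ⟨le_rfl, zero_le_one⟩)
    (by
      intro p hpZ _
      rw [hh]
      have h2 : (2 : ℝ) ≤ p := by exact_mod_cast (hmemPZ.1 hpZ).2.1.two_le
      by_cases hp : p ∈ P
      · simp only [if_pos hp]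
        exact (hggle p hp).1
      · simp only [if_neg hp]
        apply div_nonneg (Nat.cast_nonneg _)
        linarith)
    hMer (fun t => rr χ (Q * t + B)) (2 * Y * LV χ) (fun T => (κ : ℝ) ^ T.card * (13 * 2 ^ T.card * √((Q : ℝ) * Y)))
    (fun t _ => rr_nonneg hχ2 _) (by positivity) (fun T => by positivity)
    (by
      intro T hT _
      by_cases hTP : T ⊆ P
      · have h1 := DLH hχ hχ2 hB1 hBQ hBχ H (κ := κ) Y h16 T (fun p hp => hPp p (hTP hp))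
          (fun p hp => ⟨(hH p (hTP hp)).1, (hH p (hTP hp)).2⟩) ∅ (fun _ => 0) (fun p hp => absurd hp (notMem_empty p))
          (fun p hp => absurd hp (notMem_empty p)) (Finset.disjoint_empty_left _)
        simp only [prod_empty, one_mul, card_empty, zero_add, notMem_empty, IsEmpty.forall_iff, implies_true, true_and] at h1
        have h2 : (range Y).filter (fun n => ∀ p ∈ T, p ∈ P ∧ n % p ∈ H p) = (range Y).filter (fun n => ∀ p ∈ T, n % p ∈ H p) := by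
          apply filter_congr
          intro n _
          exact ⟨fun hn p hp => (hn p hp).2, fun hn p hp => ⟨hTP hp, hn p hp⟩⟩
        have h3 : ∏ p ∈ T, h p = ∏ p ∈ T, gg χ B H p := by
          apply prod_congr rfl
          intro p hp
          rw [hh]
          simp only [if_pos (hTP hp)]
        rw [h3]
        convert h1 using 4
        ext n
        simp only [mem_filter]
        exact and_congr_right fun _ => ⟨fun hn p hp => (hn p hp).2, fun hn p hp => ⟨hTP hp, hn p hp⟩⟩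
      · obtain ⟨p0, hp0T, hp0P⟩ := Finset.not_subset.1 hTP
        have h2 : (range Y).filter (fun n => ∀ p ∈ T, p ∈ P ∧ n % p ∈ H p) = ∅ := by
          apply filter_eq_empty_iff.2
          intro n _ hn
          exact hp0P (hn p0 hp0T).1
        have h3 : ∏ p ∈ T, h p = 0 := by
          apply prod_eq_zero hp0T
          rw [hh]
          simp only [if_neg hp0P]
        rw [h3]
        have h4 : ∑ n ∈ (range Y).filter (fun n => ∀ p ∈ T, p ∈ P ∧ n % p ∈ H p), rr χ (Q * n + B) = 0 := by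
          rw [h2, sum_empty]
        rw [mul_zero, sub_zero]
        have h5 : |∑ n ∈ (range Y).filter (fun n => ∀ p ∈ T, p ∈ P ∧ n % p ∈ H p), rr χ (Q * n + B)| ≤
            (κ : ℝ) ^ T.card * (13 * 2 ^ T.card * √((Q : ℝ) * Y)) := by
          rw [h4, abs_zero]
          positivity
        convert h5)).1
  -- the product
  have hprodeq : ∏ p ∈ PZ Y (1 / 8), (1 - h p) = ∏ p ∈ P.filter (fun p => tt Y p < 1 / 8), (1 - gg χ B H p) := by
    have hsub : P.filter (fun p => tt Y p < 1 / 8) ⊆ PZ Y (1 / 8) := by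
      intro p hp
      rw [mem_filter] at hp
      have := hmemPZ.1 (hP hp.1)
      exact hmemPZ.2 ⟨this.1, this.2.1, hp.2⟩
    rw [← prod_subset hsub (fun p hpZ hpP => ?_)]
    · apply prod_congr rfl
      intro p hp
      rw [mem_filter] at hp
      rw [hh]
      simp only [if_pos hp.1]
    · have hpP' : p ∉ P := fun hpp => hpP (mem_filter.2 ⟨hpp, (hmemPZ.1 hpZ).2.2⟩)
      rw [hh]
      simp only [if_neg hpP', sub_zero]
  -- the sum
  have hsumeq : ∑ n ∈ (range Y).filter (fun n => ∀ p ∈ PZ Y (1 / 8), ¬ (p ∈ P ∧ n % p ∈ H p)),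
        rr χ (Q * n + B) * (1 - ∑ p ∈ (pr Y (1 / 8) (9 / 20)).filter (fun p => p ∈ P ∧ n % p ∈ H p), rk Y p) =
      ∑ t ∈ (range Y).filter (fun t => ∀ p ∈ P, tt Y p < 1 / 8 → t % p ∉ H p),
        rr χ (Q * t + B) * (1 - ∑ p ∈ P.filter (fun p => 1 / 8 ≤ tt Y p ∧ t % p ∈ H p), rk Y p) := by
    have hset : (range Y).filter (fun n => ∀ p ∈ PZ Y (1 / 8), ¬ (p ∈ P ∧ n % p ∈ H p)) =
        (range Y).filter (fun t => ∀ p ∈ P, tt Y p < 1 / 8 → t % p ∉ H p) := by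
      apply filter_congr
      intro n _
      constructor
      · intro hn p hp htt hmem
        have := hmemPZ.1 (hP hp)
        exact hn p (hmemPZ.2 ⟨this.1, this.2.1, htt⟩) ⟨hp, hmem⟩
      · intro hn p hpZ hcon
        exact hn p hcon.1 (hmemPZ.1 hpZ).2.2 hcon.2
    rw [hset]
    apply sum_congr rfl
    intro t _
    have hcard : (pr Y (1 / 8) (9 / 20)).filter (fun p => p ∈ P ∧ t % p ∈ H p) =
        P.filter (fun p => 1 / 8 ≤ tt Y p ∧ t % p ∈ H p) := by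
      ext p
      unfold pr
      rw [mem_filter, mem_filter, mem_filter, mem_Icc]
      constructor
      · rintro ⟨⟨_, _, a, _⟩, b, c⟩
        exact ⟨b, a, c⟩
      · rintro ⟨b, a, c⟩
        have := hmemPZ.1 (hP b)
        exact ⟨⟨this.1, this.2.1, a, this.2.2⟩, b, c⟩
    rw [hcard]
  -- the error
  have herr1 := herr Y Q (PZ Y (9 / 20)) (by omega) hQY (fun p hp => (hmemPZ.1 hp).2.1)
  have hlow := hprod Y Q χ B H (P.filter (fun p => tt Y p < 1 / 8)) (by omega) hχ2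
    (fun p hp => ⟨hPp p (mem_filter.1 hp).1, hP4 p (mem_filter.1 hp).1, hPY p (mem_filter.1 hp).1⟩)
    (fun p hp => (hH p (mem_filter.1 hp).1).2)
  have hLVl := hLV Q χ hχ hχ2
  set PP := ∏ p ∈ P.filter (fun p => tt Y p < 1 / 8), (1 - gg χ B H p) with hPP
  have hlogs := hY1 Y (by omega)
  have hQ2 : (Q : ℝ) ^ 2 ≤ (Y : ℝ) ^ (2 / 10000 : ℝ) := by
    calc (Q : ℝ) ^ 2 ≤ ((Y : ℝ) ^ (1 / 10000 : ℝ)) ^ 2 := pow_le_pow_left₀ hQr.le hQY 2
      _ = (Y : ℝ) ^ (2 / 10000 : ℝ) := by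
          rw [← Real.rpow_natCast, ← Real.rpow_mul hYp.le]
          norm_num
  have hLV2 : c2 / (Y : ℝ) ^ (2 / 10000 : ℝ) ≤ LV χ :=
    (div_le_div_of_nonneg_left hc2.le (by positivity) hQ2).trans hLVl
  have hpow : (Y : ℝ) ^ (9998 / 10000 : ℝ) = Y / (Y : ℝ) ^ (2 / 10000 : ℝ) := by
    rw [eq_div_iff (by positivity), ← Real.rpow_add hYp]
    norm_num
  have hpow2 : (Y : ℝ) ^ (9998 / 10000 : ℝ) = (Y : ℝ) ^ (9992 / 10000 : ℝ) * (Y : ℝ) ^ (6 / 10000 : ℝ) := by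
    rw [← Real.rpow_add hYp]
    norm_num
  have hbig : 10 * Real.log Y * (Ce * (Y : ℝ) ^ (9992 / 10000 : ℝ)) ≤ c₀ * (Y * (LV χ * PP)) := by
    have h1 : 10 * Real.log Y * (Ce * (Y : ℝ) ^ (9992 / 10000 : ℝ)) * Real.log Y ^ (4 * κ) ≤
        c₀ * (Y * (c2 / (Y : ℝ) ^ (2 / 10000 : ℝ) * c1 ^ (4 * κ))) := by
      calc 10 * Real.log Y * (Ce * (Y : ℝ) ^ (9992 / 10000 : ℝ)) * Real.log Y ^ (4 * κ) =
            (Y : ℝ) ^ (9992 / 10000 : ℝ) * (10 * Ce * Real.log Y ^ (4 * κ + 1)) := by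
            rw [pow_succ]; ring
        _ ≤ (Y : ℝ) ^ (9992 / 10000 : ℝ) * (c₀ * c2 * c1 ^ (4 * κ) * (Y : ℝ) ^ (6 / 10000 : ℝ)) :=
            mul_le_mul_of_nonneg_left hlogs (by positivity)
        _ = c₀ * c2 * c1 ^ (4 * κ) * (Y : ℝ) ^ (9998 / 10000 : ℝ) := by rw [hpow2]; ring
        _ = _ := by rw [hpow]; ring
    have h2 : c₀ * (Y * (c2 / (Y : ℝ) ^ (2 / 10000 : ℝ) * (c1 / Real.log Y) ^ (4 * κ))) ≤ c₀ * (Y * (LV χ * PP)) := by
      gcongr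
    refine le_trans ?_ h2
    rw [div_pow, ← mul_div_assoc, ← mul_div_assoc, ← mul_div_assoc, le_div_iff₀ (by positivity)]
    exact h1
  -- conclusion
  have hval' : c₀ * (2 * Y * LV χ * PP) - 10 * Real.log Y *
      ∑ T ∈ (PZ Y (9 / 20)).powerset.filter (fun T => ((∏ p ∈ T, p : ℕ) : ℝ) ≤ (Y : ℝ) ^ (499 / 1000 : ℝ)),
        (κ : ℝ) ^ T.card * (13 * 2 ^ T.card * √((Q : ℝ) * Y)) ≤
      ∑ t ∈ (range Y).filter (fun t => ∀ p ∈ P, tt Y p < 1 / 8 → t % p ∉ H p),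
        rr χ (Q * t + B) * (1 - ∑ p ∈ P.filter (fun p => 1 / 8 ≤ tt Y p ∧ t % p ∈ H p), rk Y p) := by
    rw [← hsumeq, ← hprodeq]
    convert hval
  have h9 : 10 * Real.log Y *
      ∑ T ∈ (PZ Y (9 / 20)).powerset.filter (fun T => ((∏ p ∈ T, p : ℕ) : ℝ) ≤ (Y : ℝ) ^ (499 / 1000 : ℝ)),
        (κ : ℝ) ^ T.card * (13 * 2 ^ T.card * √((Q : ℝ) * Y)) ≤ 10 * Real.log Y * (Ce * (Y : ℝ) ^ (9992 / 10000 : ℝ)) :=
    mul_le_mul_of_nonneg_left (by convert herr1) (by positivity)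
  have h10 : c₀ * (Y * (LV χ * PP)) ≤ c₀ * (2 * Y * LV χ * PP) - 10 * Real.log Y *
      ∑ T ∈ (PZ Y (9 / 20)).powerset.filter (fun T => ((∏ p ∈ T, p : ℕ) : ℝ) ≤ (Y : ℝ) ^ (499 / 1000 : ℝ)),
        (κ : ℝ) ^ T.card * (13 * 2 ^ T.card * √((Q : ℝ) * Y)) := by
    have e1 : c₀ * (2 * Y * LV χ * PP) = c₀ * (Y * (LV χ * PP)) + c₀ * (Y * (LV χ * PP)) := by ring
    linarith
  exact h10.trans (by convert hval')

end SubE

end Pool.Agent.H536.OR
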