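import Mathlib
import Pool.Agent.H536.OR.R0

open Finset

/-! The number of prime factors from Richert's weights. -/

namespace Pool.Agent.H536.OR

open Pool.Agent.W23.DC (tt pr)

open Classical in
theorem omR (m Y g : ℕ) (hm : m ≠ 0) (hY : 2 ≤ Y) (hlog : Real.log m ≤ (1012 / 1000 * g + 1 / 200) * Real.log Y)
    (hsq : ∀ p : ℕ, p.Prime → p ∣ m → tt Y p < 9 / 20 → ¬ p ^ 2 ∣ m)
    (hw : ∑ p ∈ m.primeFactors.filter (fun p => tt Y p < 9 / 20), rk Y p < 1) :
    4 * ArithmeticFunction.cardFactors m < 9 * g + 6 := by
  have hYr : (2 : ℝ) ≤ Y := by exact_mod_cast hY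
  have hL : 0 < Real.log Y := Real.log_pos (by linarith)
  have h1 : (ArithmeticFunction.cardFactors m : ℝ) = ∑ p ∈ m.primeFactors, (m.factorization p : ℝ) := by
    rw [ArithmeticFunction.cardFactors_eq_sum_factorization, Finsupp.sum, Nat.support_factorization]
    push_cast
    rfl
  have h2 : Real.log m = ∑ p ∈ m.primeFactors, (m.factorization p : ℝ) * Real.log p := by
    have h3 := Nat.prod_factorization_pow_eq_self hm
    rw [Finsupp.prod, Nat.support_factorization] at h3
    have h4 : Real.log ((∏ p ∈ m.primeFactors, p ^ m.factorization p : ℕ) : ℝ) = ∑ p ∈ m.primeFactors, (m.factorization p : ℝ) * Real.log p := by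
      push_cast
      rw [Real.log_prod]
      · exact sum_congr rfl fun p _ => by rw [Real.log_pow]
      · intro p hp
        have := (Nat.prime_of_mem_primeFactors hp).pos
        positivity
    rw [h3] at h4
    exact h4
  have key : (ArithmeticFunction.cardFactors m : ℝ) - 20 / 9 * (Real.log m / Real.log Y) ≤
      40 / 27 * ∑ p ∈ m.primeFactors.filter (fun p => tt Y p < 9 / 20), rk Y p := by
    rw [h1, h2, sum_div, mul_sum, ← sum_sub_distrib, sum_filter, mul_sum]
    apply sum_le_sum
    intro p hp
    have hpp := Nat.prime_of_mem_primeFactors hp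
    have hpd := Nat.dvd_of_mem_primeFactors hp
    have e1 : (m.factorization p : ℝ) - 20 / 9 * ((m.factorization p : ℝ) * Real.log p / Real.log Y) =
        (m.factorization p : ℝ) * (1 - 20 / 9 * tt Y p) := by
      unfold tt
      ring
    rw [e1]
    split_ifs with h
    · have hk : m.factorization p ≤ 1 := by
        by_contra hcon
        push Not at hcon
        exact hsq p hpp hpd h ((hpp.pow_dvd_iff_le_factorization hm).2 hcon)
      have hk2 : m.factorization p = 1 := le_antisymm hk (Nat.pos_of_ne_zero (by
        have h5 := (Nat.support_factorization m).symm ▸ hp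
        exact Finsupp.mem_support_iff.1 h5))
      rw [hk2]
      unfold rk
      push_cast
      ring_nf
      exact le_rfl
    · push Not at h
      rw [mul_zero]
      apply mul_nonpos_of_nonneg_of_nonpos (Nat.cast_nonneg _)
      linarith
  have h5 : Real.log m / Real.log Y ≤ 1012 / 1000 * g + 1 / 200 := by
    rw [div_le_iff₀ hL]
    exact hlog
  have hg : (0 : ℝ) ≤ g := Nat.cast_nonneg g
  have h6 : 4 * (ArithmeticFunction.cardFactors m : ℝ) < 9 * g + 6 := by linarith
  exact_mod_cast h6

end Pool.Agent.H536.OR
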