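import Mathlib
import Pool.Agent.H536.OC.C20
import Pool.Agent.H536.OR.RC
import Pool.Agent.H536.OR.R1

open Finset Filter Topology

/-! The world without a very exceptional character (Richert's weights). -/

namespace Pool.Agent.H536.OR

open Pool.Agent.Y882 Pool.Agent.W23.DC Pool.Agent.H536.OB
open Pool.Agent.H318R2.Cr (V Pz mem_Pz V_pos cz_bounds one_sub_inv_pos)
open Pool.Agent.H262R3.Lk (wM)
open Pool.Agent.H536.OC.SubC (WS)
open Pool.Agent.H536.OC hiding AK Sit Good S_NPW S_PW S_plusAK split_bd pr_facts sq_mass npw_main NPW S_MerX SubC.S_AK SubC.ML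

section
open Pool.Agent.H378R2 Pool.Agent.H262R3.Lk
open Classical in
/-- the squares -/
theorem sq_mass {N : ℕ} (hN : 0 < N) {T : ℝ} (hT : 20 ≤ T) {Nm Q B : ℕ} (hNm2 : (Nm : ℝ) ≤ 4 * Real.exp (101 / 100 * T)) (hB1 : 1 ≤ B)
    {Sq : ℕ → ℕ → Prop} {SS : Finset ℕ} (hSq : ∀ p ∈ SS, ∀ n : ℕ, (((range n).filter (fun t => Sq p t)).card : ℝ) ≤ n / (p : ℝ) ^ 2 + 3)
    (hSS : ∀ p ∈ SS, p.Prime ∧ Real.exp (T / 9) < p ∧ (p : ℝ) ≤ Real.exp (9 / 20 * T)) :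
    ∑ p ∈ SS, ∑ t ∈ (range (Nm + 1)).filter (fun t => Sq p t), om N T Q B t ≤ 1000 * T * Real.exp (-(T / 11)) := by
  have hT0 : 0 < T := by linarith
  have h1 : ∀ p ∈ SS, ∑ t ∈ (range (Nm + 1)).filter (fun t => Sq p t), om N T Q B t ≤
      (5 * Real.exp (101 / 100 * T) / (p : ℝ) ^ 2 + 3) * (48 * T * Real.exp (-T)) := by
    intro p hp
    have h2 := hSq p hp (Nm + 1)
    have h3 : ∑ t ∈ (range (Nm + 1)).filter (fun t => Sq p t), om N T Q B t ≤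
        ((((range (Nm + 1)).filter (fun t => Sq p t)).card : ℕ) : ℝ) * (48 * T * Real.exp (-T)) := by
      rw [← nsmul_eq_mul]
      exact sum_le_card_nsmul _ _ _ (fun t _ => om_le hN (by linarith) hB1)
    refine h3.trans (mul_le_mul_of_nonneg_right (h2.trans ?_) (by positivity))
    apply add_le_add _ le_rfl
    apply div_le_div_of_nonneg_right _ (by positivity)
    push_cast
    have : 1 ≤ Real.exp (101 / 100 * T) := Real.one_le_exp (by linarith)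
    linarith
  refine (sum_le_sum h1).trans ?_
  rw [← sum_mul, sum_add_distrib, sum_const, nsmul_eq_mul]
  -- number of elements
  have hcard : ((SS.card : ℕ) : ℝ) ≤ Real.exp (9 / 20 * T) := by
    have h2 : SS ⊆ Icc 1 ⌊Real.exp (9 / 20 * T)⌋₊ := by
      intro p hp
      rw [mem_Icc]
      exact ⟨(hSS p hp).1.one_lt.le, Nat.le_floor (hSS p hp).2.2⟩
    have h3 := card_le_card h2
    rw [Nat.card_Icc, Nat.add_sub_cancel] at h3
    calc ((SS.card : ℕ) : ℝ) ≤ (⌊Real.exp (9 / 20 * T)⌋₊ : ℝ) := by exact_mod_cast h3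
      _ ≤ _ := Nat.floor_le (Real.exp_pos _).le
  have hsum : ∑ p ∈ SS, 5 * Real.exp (101 / 100 * T) / (p : ℝ) ^ 2 ≤ 5 * Real.exp (101 / 100 * T) * (2 * Real.exp (-(T / 9))) := by
    have hy1 : 1 ≤ ⌊Real.exp (T / 9)⌋₊ := Nat.le_floor (by rw [Nat.cast_one]; exact Real.one_le_exp (by positivity))
    have h2 := sq_sum hy1 SS (fun n hn => by
      have := (hSS n hn).2.1
      exact (Nat.floor_lt (Real.exp_pos _).le).2 this)
    have h3 : ∑ p ∈ SS, 5 * Real.exp (101 / 100 * T) / (p : ℝ) ^ 2 ≤ 5 * Real.exp (101 / 100 * T) * ∑ n ∈ SS, 1 / ((n : ℝ) * ((n : ℝ) - 1)) := by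
      rw [mul_sum]
      apply sum_le_sum
      intro p hp
      have hp2 : (2 : ℝ) ≤ p := by exact_mod_cast (hSS p hp).1.two_le
      rw [div_eq_mul_one_div]
      apply mul_le_mul_of_nonneg_left _ (by positivity)
      apply one_div_le_one_div_of_le (mul_pos (by linarith) (by linarith))
      nlinarith
    refine h3.trans (mul_le_mul_of_nonneg_left (h2.trans ?_) (by positivity))
    have h4 : Real.exp (T / 9) / 2 ≤ (⌊Real.exp (T / 9)⌋₊ : ℝ) := by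
      have h5 := Nat.lt_floor_add_one (Real.exp (T / 9))
      have h6 : (2 : ℝ) ≤ Real.exp (T / 9) := by
        have := Real.add_one_le_exp (T / 9)
        linarith
      linarith
    calc 1 / (⌊Real.exp (T / 9)⌋₊ : ℝ) ≤ 1 / (Real.exp (T / 9) / 2) := one_div_le_one_div_of_le (by positivity) h4
      _ = 2 * Real.exp (-(T / 9)) := by rw [Real.exp_neg]; field_simp
  calc (∑ p ∈ SS, 5 * Real.exp (101 / 100 * T) / (p : ℝ) ^ 2 + (SS.card : ℝ) * 3) * (48 * T * Real.exp (-T)) ≤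
      (5 * Real.exp (101 / 100 * T) * (2 * Real.exp (-(T / 9))) + Real.exp (9 / 20 * T) * 3) * (48 * T * Real.exp (-T)) := by gcongr
    _ = 480 * T * Real.exp (101 / 100 * T + -(T / 9) + -T) + 144 * T * Real.exp (9 / 20 * T + -T) := by
        rw [Real.exp_add, Real.exp_add, Real.exp_add]
        ring
    _ ≤ 480 * T * Real.exp (-(T / 11)) + 144 * T * Real.exp (-(T / 11)) := by
        gcongr
        · linarith
        · linarith
    _ ≤ _ := by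
        have := mul_pos hT0 (Real.exp_pos (-(T / 11)))
        nlinarith

end


open Classical in
/-- the elements which are not good -/
theorem split_bd {S : Finset ℕ} {ω : ℕ → ℝ} (hω : ∀ t, 0 ≤ ω t) {A Np : ℕ → Prop} {cnt : ℕ → ℝ} (hcnt : ∀ t, 0 ≤ cnt t)
    {SS BB : Finset ℕ} {Sq g : ℕ → ℕ → Prop}
    (h : ∀ t ∈ S, A t → ω t ≠ 0 → ¬ Np t → (∀ p ∈ SS, ¬ Sq p t) → (∀ p ∈ BB, ¬ g p t) → 1 ≤ cnt t) :
    ∑ t ∈ S.filter A, ω t * (1 - cnt t) ≤
      ∑ t ∈ S.filter Np, ω t + ∑ p ∈ SS, ∑ t ∈ S.filter (fun t => Sq p t), ω t + ∑ p ∈ BB, WS S ω g {p} := by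
  have e1 : ∑ t ∈ S.filter Np, ω t = ∑ t ∈ S, (if Np t then ω t else 0) := by rw [sum_filter]
  have e2 : ∑ p ∈ SS, ∑ t ∈ S.filter (fun t => Sq p t), ω t = ∑ t ∈ S, ∑ p ∈ SS, (if Sq p t then ω t else 0) := by
    rw [sum_comm]
    exact sum_congr rfl fun p _ => by rw [sum_filter]
  have e3 : ∑ p ∈ BB, WS S ω g {p} = ∑ t ∈ S, ∑ p ∈ BB, (if g p t then ω t else 0) := by
    rw [sum_comm]
    apply sum_congr rfl
    intro p _
    unfold WS
    rw [sum_filter]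
    apply sum_congr rfl
    intro t _
    simp
  rw [e1, e2, e3, ← sum_add_distrib, ← sum_add_distrib, sum_filter]
  apply sum_le_sum
  intro t ht
  have hn1 : 0 ≤ (if Np t then ω t else 0) := by split_ifs; exacts [hω t, le_rfl]
  have hn2 : 0 ≤ ∑ p ∈ SS, (if Sq p t then ω t else 0) := sum_nonneg fun p _ => by split_ifs; exacts [hω t, le_rfl]
  have hn3 : 0 ≤ ∑ p ∈ BB, (if g p t then ω t else 0) := sum_nonneg fun p _ => by split_ifs; exacts [hω t, le_rfl]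
  by_cases hA : A t
  · rw [if_pos hA]
    have hle : ω t * (1 - cnt t) ≤ ω t := by
      have := mul_nonneg (hω t) (hcnt t)
      nlinarith
    by_cases h0 : ω t = 0
    · rw [h0] at hle ⊢
      simp
    by_cases h1 : Np t
    · rw [if_pos h1] at hn1 ⊢
      linarith
    by_cases h2 : ∃ p ∈ SS, Sq p t
    · obtain ⟨p, hp, hs⟩ := h2
      have h3 := single_le_sum (f := fun p => if Sq p t then ω t else 0) (fun p _ => by
        split_ifs
        exacts [hω t, le_rfl]) hp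
      simp only [hs, if_true] at h3
      linarith
    by_cases h4 : ∃ p ∈ BB, g p t
    · obtain ⟨p, hp, hs⟩ := h4
      have h3 := single_le_sum (f := fun p => if g p t then ω t else 0) (fun p _ => by
        split_ifs
        exacts [hω t, le_rfl]) hp
      simp only [hs, if_true] at h3
      linarith
    push Not at h2 h4
    have h5 := h t ht hA h0 h1 h2 h4
    have h6 : ω t * (1 - cnt t) ≤ 0 := mul_nonpos_of_nonneg_of_nonpos (hω t) (by linarith)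
    linarith
  · rw [if_neg hA]
    linarith


/-- the primes of the big ranges -/
theorem pr_facts {T : ℝ} (hT : 20 ≤ T) {ε : ℝ} {p : ℕ} (hp : p ∈ pr ⌊Real.exp T⌋₊ ε (9 / 20)) :
    p.Prime ∧ (p : ℝ) ≤ Real.exp (9 / 20 * T) ∧ (Real.exp T / 2) ^ ε ≤ (p : ℝ) ∨ ε < 0 := by
  by_cases hε : ε < 0
  · exact Or.inr hε
  left
  push Not at hε
  unfold pr at hp
  rw [mem_filter, mem_Icc] at hp
  obtain ⟨⟨h1, h2⟩, h3, h4, h5⟩ := hp
  set Y := ⌊Real.exp T⌋₊ with hY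
  have hexp : (20 : ℝ) ≤ Real.exp T := by
    have := Real.add_one_le_exp T
    linarith
  have hYle : (Y : ℝ) ≤ Real.exp T := Nat.floor_le (by positivity)
  have hYlt : Real.exp T < Y + 1 := Nat.lt_floor_add_one _
  have hY2 : Real.exp T / 2 ≤ Y := by linarith
  have hY2r : (2 : ℝ) ≤ Y := by linarith
  have hY2n : 2 ≤ Y := by exact_mod_cast hY2r
  have hY0 : (0 : ℝ) < Y := by linarith
  refine ⟨h3, ?_, ?_⟩
  · have h6 := ((tt_lt Y p (9 / 20) hY2n h3.pos).1 h5).le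
    refine h6.trans ?_
    calc (Y : ℝ) ^ (9 / 20 : ℝ) ≤ (Real.exp T) ^ (9 / 20 : ℝ) := Real.rpow_le_rpow hY0.le hYle (by norm_num)
      _ = Real.exp (9 / 20 * T) := by rw [← Real.exp_mul]; ring_nf
  · have h6 : ¬ (p : ℝ) < (Y : ℝ) ^ ε := fun h => not_lt.2 h4 ((tt_lt Y p ε hY2n h3.pos).2 h)
    push Not at h6
    refine le_trans ?_ h6
    exact Real.rpow_le_rpow (by positivity) hY2 hε


open Classical in
/-- the main case: all the parameters are given -/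
theorem npw_main {κ C1 r m Y0 : ℕ} {ε₁ η c₀ C₀ CJ Cm cV lam0 cmid cM ε δ W0 K T : ℝ}
    (hε₁ : 0 < ε₁) (hε₁8 : ε₁ ≤ 1 / 8) (hc₀ : 0 < c₀) (hC₀ : 0 < C₀) (hCJ : 0 < CJ) (hCm : 0 ≤ Cm) (hcV : 0 < cV)
    (hML : ∀ Y : ℕ, Y0 ≤ Y →
    ∀ (S : Finset ℕ) (g : ℕ → ℕ → Prop) (P Mid : Finset ℕ) (l1 r : ℕ) (h hm ω : ℕ → ℝ) (F MM ε' X3 lam0 δE : ℝ)
      (Er : Finset ℕ → Finset ℕ → ℝ),
    P ⊆ PZ Y (9 / 20) → Disjoint Mid P → l1 ∉ Mid → l1 ∉ P →
    (∀ p, p ∉ P → h p = 0) → (∀ p ∈ P, 0 ≤ h p ∧ h p ≤ 1 ∧ h p ≤ κ / ((p : ℝ) - 1)) →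
    Mer (pr Y ε₁ (9 / 20)) (tt Y) h ε₁ (9 / 20) η →
    (∀ n ∈ S, 0 ≤ ω n) → 0 ≤ F → 0 ≤ MM → 0 ≤ ε' → 0 ≤ δE → 0 ≤ X3 → (∀ D T, 0 ≤ Er D T) →
    (∀ p ∈ Mid, 0 ≤ hm p ∧ hm p ≤ 1) → ∑ p ∈ Mid, hm p ≤ lam0 →
    (∀ D ⊆ Mid, D.card ≤ 2 * r + 1 → |WS S ω g D - MM * F * ∏ p ∈ D, hm p| ≤ ε' * F * ∏ p ∈ D, hm p) →
    WS S ω g {l1} ≤ X3 * F →
    (∀ D T : Finset ℕ, ((D ⊆ Mid ∧ D.card ≤ 2 * r + 1) ∨ D = {l1}) → T ⊆ P →
      ((∏ p ∈ T, p : ℕ) : ℝ) ≤ (Y : ℝ) ^ (499 / 1000 : ℝ) →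
      |WS S ω g (D ∪ T) - WS S ω g D * ∏ p ∈ T, h p| ≤ Er D T) →
    (∀ D ⊆ Mid, D.card ≤ 2 * r + 1 →
      ∑ T ∈ P.powerset.filter (fun T => ((∏ p ∈ T, p : ℕ) : ℝ) ≤ (Y : ℝ) ^ (499 / 1000 : ℝ)), Er D T ≤ δE * F * ∏ p ∈ D, hm p) →
    ∑ T ∈ P.powerset.filter (fun T => ((∏ p ∈ T, p : ℕ) : ℝ) ≤ (Y : ℝ) ^ (499 / 1000 : ℝ)), Er {l1} T ≤ δE * F →
    F * ((c₀ * (MM * ∏ p ∈ Mid, (1 - hm p) - ε' * Real.exp lam0) -
        C₀ * ((MM + ε') * (lam0 ^ (2 * r + 1) / (2 * r + 1).factorial)) - C₀ * X3) *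
        ∏ p ∈ P.filter (fun p => tt Y p < 1 / 8), (1 - h p) - 30 * Real.log Y * δE * Real.exp lam0) ≤
      ∑ n ∈ S.filter (fun n => (∀ p ∈ Mid, ¬ g p n) ∧ ¬ g l1 n ∧ ∀ p ∈ P, tt Y p < 1 / 8 → ¬ g p n),
        ω n * (1 - ∑ p ∈ P.filter (fun p => 1 / 8 ≤ tt Y p ∧ g p n), rk Y p))
    (hJup : ∀ (N : ℕ) (T : ℝ) (q b : ℕ), 0 < N → 3 ≤ T → 1 ≤ q → ((q ^ 8 : ℕ) : ℝ) ≤ Real.exp T → b.Coprime q → JJ N T q b ≤ CJ * T / q.totient)
    (hmid : ∀ y z : ℕ, 2 ≤ y → y ≤ z → ∑ p ∈ (Ioc y z).filter Nat.Prime, 1 / ((p : ℝ) - 1) ≤ 2 * (Real.log (Real.log z / Real.log y) + Cm / Real.log y))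
    (hVP : ∀ (P : Finset ℕ) (x : ℕ → ℕ) (z : ℕ), 2 ≤ z →
    (∀ p ∈ P, p.Prime ∧ 2 * κ + 2 ≤ p ∧ p ≤ z) → (∀ p ∈ P, x p ≤ κ) →
    (cV / Real.log z) ^ (2 * κ) ≤ ∏ p ∈ P, (1 - (x p : ℝ) / ((p : ℝ) - 1)))
    (hC1 : 2 * κ + 3 ≤ C1) (hlam0 : lam0 = κ * (2 * (Real.log (2 * C1) + Cm))) (hcmid : cmid = Real.exp (-(2 * lam0)))
    (hr : lam0 ^ (2 * r + 1) / (2 * r + 1).factorial ≤ c₀ * cmid / (8 * C₀))
    (hcM : 0 < cM) (hε : 0 < ε) (hε1 : ε ≤ cM) (hε2 : ε ≤ cM * cmid / (8 * Real.exp lam0))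
    (hδ : 0 < δ) (hδ2 : δ ≤ 1 / 300000) (hm : m = C1 * (2 * r + 1))
    (hW0a : 4 * κ + 4 ≤ W0) (hW0b : 8 * C₀ * κ * CJ / (c₀ * cM * cmid) ≤ W0) (hKd : K = 2 * κ * CJ)
    (hT20 : 20 ≤ T) (hY0 : Y0 ≤ ⌊Real.exp T⌋₊) (hTm : T ^ m ≤ Real.exp (δ * T) / 2) (hTC1 : T ^ C1 < (Real.exp T / 2) ^ ε₁)
    (hQε : Real.exp (2 * δ * T) < (Real.exp T / 2) ^ ε₁) (hWT : W0 ≤ √T)
    (hfin : 30 * T * Real.exp lam0 / T ^ (2 * κ + 2) + K / T ^ (2 * κ + 1) +
      Real.exp (T / 50) * (12 * T ^ 2 * Real.exp (-(T / 2)) + 1000 * T * Real.exp (-(T / 11))) + 48 * T * Real.exp (-(T / 200)) <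
        (c₀ * cmid * cM / 2 * cV ^ (2 * κ)) * T / T ^ (2 * κ))
    (hin2 : ∀ (N Q B Nm Y : ℕ) (H : ℕ → Finset ℕ) (P D : Finset ℕ), 0 < N →
    1 ≤ B → B ≤ Q → B.Coprime Q → 3 * Real.exp (101 / 100 * T) ≤ Nm → (Y : ℝ) ≤ Real.exp T →
    (∀ p ∈ D, p.Prime ∧ p ≤ ⌊T ^ C1⌋₊ ∧ H p ⊆ range p ∧ (¬ p ∣ Q → ∀ c ∈ H p, ¬ p ∣ Q * c + B)) →
    ((Q * ∏ p ∈ D, p : ℕ) : ℝ) ≤ (Real.exp T) ^ (1 / 100000 : ℝ) →
    (∀ p ∈ P, p.Prime ∧ ⌊T ^ C1⌋₊ < p ∧ ¬ p ∣ Q ∧ H p ⊆ range p ∧ (H p).card ≤ κ ∧ ∀ c ∈ H p, ¬ p ∣ Q * c + B) →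
    ∃ Er : Finset ℕ → ℝ, (∀ T', 0 ≤ Er T') ∧
      (∀ T' ⊆ P, |WS (range (Nm + 1)) (om N T Q B) (fun p t => t % p ∈ H p) (D ∪ T') -
        WS (range (Nm + 1)) (om N T Q B) (fun p t => t % p ∈ H p) D * ∏ p ∈ T', (((H p).card : ℝ) / ((p : ℝ) - 1))| ≤ Er T') ∧
      ∑ T' ∈ P.powerset.filter (fun T' => ((∏ p ∈ T', p : ℕ) : ℝ) ≤ (Y : ℝ) ^ (499 / 1000 : ℝ)), Er T' ≤
        (1 / T ^ (2 * κ + 2)) * (1 / (Q.totient : ℝ)) * ∏ p ∈ D, (((H p).card : ℝ) / psi Q p))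
    {Q B w : ℕ} [NeZero Q] {H : ℕ → Finset ℕ} {Sq : ℕ → ℕ → Prop} (hS : Sit κ δ T Q B w H Sq)
    (hMer : Mer (pr ⌊Real.exp T⌋₊ ε₁ (9 / 20)) (tt ⌊Real.exp T⌋₊) (fun p => ((H p).card : ℝ) / ((p : ℝ) - 1)) ε₁ (9 / 20) η)
    {N : ℕ} (hN : 0 < N) {MM : ℝ} {l1 : ℕ} (hMM : cM * T ≤ MM) (hl1 : l1 = 0 ∨ l1.Prime)
    (hJ : ∀ d b : ℕ, 1 ≤ d → d ≤ ⌊Real.exp (δ * T)⌋₊ → ¬ l1 ∣ d → b ≡ B [MOD Q] →
      b.Coprime (Q * d) → |((Q * d).totient : ℝ) * JJ N T (Q * d) b - MM| ≤ ε * T) : Good T Q B w H Sq := by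
  intro G hGc
  by_contra hbad
  -- basic facts
  have hT0 : 0 < T := by linarith
  have hT1 : 1 ≤ T := by linarith
  have hcmid0 : 0 < cmid := by rw [hcmid]; exact Real.exp_pos _
  have hQpos : 0 < Q := Nat.pos_of_ne_zero (NeZero.ne Q)
  obtain ⟨M, hM⟩ : ∃ M : ℕ, M = ⌊Real.exp (δ * T)⌋₊ := ⟨_, rfl⟩
  have hMle : (M : ℝ) ≤ Real.exp (δ * T) := by rw [hM]; exact Nat.floor_le (Real.exp_pos _).le
  have hQM : Q ≤ M ^ 2 := by rw [hM]; exact hS.hQ
  have hQr : (Q : ℝ) ≤ Real.exp (2 * δ * T) := by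
    have h1 : (Q : ℝ) ≤ (M : ℝ) ^ 2 := by exact_mod_cast hQM
    refine h1.trans ((pow_le_pow_left₀ (Nat.cast_nonneg M) hMle 2).trans (le_of_eq ?_))
    rw [← Real.exp_nat_mul]
    congr 1
    push_cast
    ring
  obtain ⟨Y, hY⟩ : ∃ Y : ℕ, Y = ⌊Real.exp T⌋₊ := ⟨_, rfl⟩
  rw [← hY] at hMer hY0
  have hexp : (20 : ℝ) ≤ Real.exp T := by
    have := Real.add_one_le_exp T
    linarith
  have hYle : (Y : ℝ) ≤ Real.exp T := by rw [hY]; exact Nat.floor_le (Real.exp_pos _).le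
  have hYlt : Real.exp T < Y + 1 := by rw [hY]; exact Nat.lt_floor_add_one _
  have hY2 : Real.exp T / 2 ≤ Y := by linarith
  have hY2r : (2 : ℝ) ≤ Y := by linarith
  have hY2n : 2 ≤ Y := by exact_mod_cast hY2r
  have hlogY : Real.log Y ≤ T := by
    rw [Real.log_le_iff_le_exp (by linarith)]
    exact hYle
  have hlogY0 : 0 < Real.log Y := Real.log_pos (by linarith)
  -- w
  have hwr : √T ≤ w := by
    rw [Real.sqrt_le_left (Nat.cast_nonneg w)]
    exact hS.hw1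
  have hwW : W0 ≤ w := hWT.trans hwr
  have hw4 : 4 * κ + 4 ≤ w := by exact_mod_cast hW0a.trans hwW
  have hw0 : (0 : ℝ) < w := by
    have : 0 < w := by omega
    exact_mod_cast this
  obtain ⟨Z1, hZ1⟩ : ∃ Z1 : ℕ, Z1 = ⌊T ^ C1⌋₊ := ⟨_, rfl⟩
  rw [← hZ1] at hin2
  have hTC0 : 1 ≤ T ^ C1 := one_le_pow₀ hT1
  have hZle : (Z1 : ℝ) ≤ T ^ C1 := by rw [hZ1]; exact Nat.floor_le (by positivity)
  have hZlt : T ^ C1 < Z1 + 1 := by rw [hZ1]; exact Nat.lt_floor_add_one _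
  have hwZ : w ≤ Z1 := by
    rw [hZ1]
    apply Nat.le_floor
    exact hS.hw2.trans (le_self_pow₀ hT1 (by omega))
  -- the classes
  obtain ⟨H', hH'⟩ : ∃ H' : ℕ → Finset ℕ, H' = fun p => if p.Prime ∧ w < p then H p else ∅ := ⟨_, rfl⟩
  have hH'e : ∀ p : ℕ, p.Prime → w < p → H' p = H p := by
    intro p h1 h2
    rw [hH']
    simp only
    rw [if_pos ⟨h1, h2⟩]
  have hH'1 : ∀ p : ℕ, H' p ⊆ range p ∧ (H' p).card ≤ κ ∧ ∀ c ∈ H' p, ¬ p ∣ Q * c + B := by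
    intro p
    by_cases h : p.Prime ∧ w < p
    · rw [hH'e p h.1 h.2]
      exact hS.hH p h.1 h.2
    · rw [hH']
      simp only
      rw [if_neg h]
      exact ⟨empty_subset _, by simp, fun c hc => absurd hc (notMem_empty c)⟩
  have hH'0 : H' 0 = ∅ := by
    rw [hH']
    simp only
    rw [if_neg (fun h => Nat.not_prime_zero h.1)]
  -- Mid and P
  obtain ⟨Mid, hMid⟩ : ∃ Mid : Finset ℕ, Mid = ((Ioc w Z1).filter Nat.Prime).erase l1 := ⟨_, rfl⟩
  obtain ⟨P, hP⟩ : ∃ P : Finset ℕ, P = (PZ Y (9 / 20)).filter (fun p => Z1 < p ∧ ¬ p ∣ Q) := ⟨_, rfl⟩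
  obtain ⟨l, hl⟩ : ∃ l : ℕ, l = if w < l1 ∧ l1 ≤ Z1 then l1 else 0 := ⟨_, rfl⟩
  have hMidm : ∀ p ∈ Mid, p.Prime ∧ w < p ∧ p ≤ Z1 ∧ p ≠ l1 := by
    intro p hp
    rw [hMid, mem_erase, mem_filter, mem_Ioc] at hp
    exact ⟨hp.2.2, hp.2.1.1, hp.2.1.2, hp.1⟩
  have hPm : ∀ p ∈ P, p.Prime ∧ Z1 < p ∧ ¬ p ∣ Q ∧ p ≤ Y ∧ tt Y p < 9 / 20 := by
    intro p hp
    rw [hP, mem_filter] at hp
    unfold PZ at hp
    rw [mem_filter, mem_Icc] at hp
    exact ⟨hp.1.2.1, hp.2.1, hp.2.2, hp.1.1.2, hp.1.2.2⟩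
  have hprP : ∀ p ∈ pr Y ε₁ (9 / 20), p ∈ P := by
    intro p hp
    have hp' := hp
    rw [hY] at hp'
    rcases pr_facts hT20 hp' with h1 | h1
    · unfold pr at hp
      rw [mem_filter, mem_Icc] at hp
      rw [hP, mem_filter]
      unfold PZ
      rw [mem_filter, mem_Icc]
      refine ⟨⟨hp.1, h1.1, hp.2.2.2⟩, ?_, ?_⟩
      · have h2 : T ^ C1 < p := lt_of_lt_of_le hTC1 h1.2.2
        exact_mod_cast lt_of_le_of_lt hZle h2
      · intro hd
        have h2 : (p : ℝ) ≤ Q := by exact_mod_cast Nat.le_of_dvd hQpos hd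
        have h3 := lt_of_lt_of_le hQε h1.2.2
        linarith
    · linarith
  have hpr8 : ∀ p ∈ pr Y (1 / 8) (9 / 20), p ∈ P ∧ 1 / 8 ≤ tt Y p := by
    intro p hp
    have hp2 : p ∈ pr Y ε₁ (9 / 20) := by
      unfold pr at hp ⊢
      rw [mem_filter] at hp ⊢
      exact ⟨hp.1, hp.2.1, hε₁8.trans hp.2.2.1, hp.2.2.2⟩
    refine ⟨hprP p hp2, ?_⟩
    unfold pr at hp
    rw [mem_filter] at hp
    exact hp.2.2.1
  have hcard1 : ∀ p : ℕ, w < p → ((H' p).card : ℝ) ≤ (p : ℝ) - 1 := by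
    intro p hp
    have h1 := (hH'1 p).2.1
    have h2 : (H' p).card + 1 ≤ p := by omega
    have h3 : ((H' p).card : ℝ) + 1 ≤ p := by exact_mod_cast h2
    linarith
  -- the sums
  obtain ⟨Nm, hNmdef⟩ : ∃ Nm : ℕ, Nm = ⌊3 * Real.exp (101 / 100 * T)⌋₊ + 1 := ⟨_, rfl⟩
  have hexp2 : 1 ≤ Real.exp (101 / 100 * T) := Real.one_le_exp (by positivity)
  have hNm : 3 * Real.exp (101 / 100 * T) ≤ Nm := by
    rw [hNmdef]
    push_cast
    exact (Nat.lt_floor_add_one _).le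
  have hNm2 : (Nm : ℝ) ≤ 4 * Real.exp (101 / 100 * T) := by
    rw [hNmdef]
    push_cast
    have := Nat.floor_le (by positivity : 0 ≤ 3 * Real.exp (101 / 100 * T))
    linarith
  have hφ : (0 : ℝ) < Q.totient := by exact_mod_cast Nat.totient_pos.2 hQpos
  have hdT : ∀ D : Finset ℕ, (∀ p ∈ D, p ≤ Z1) → D.card ≤ 2 * r + 1 → ((∏ p ∈ D, p : ℕ) : ℝ) ≤ Real.exp (δ * T) / 2 := by
    intro D hD hDc
    have h1 : ∏ p ∈ D, p ≤ Z1 ^ D.card := prod_le_pow_card _ _ _ hD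
    have h2 : Z1 ^ D.card ≤ Z1 ^ (2 * r + 1) := Nat.pow_le_pow_right (by omega) hDc
    have h3 : ((∏ p ∈ D, p : ℕ) : ℝ) ≤ (Z1 : ℝ) ^ (2 * r + 1) := by exact_mod_cast h1.trans h2
    refine h3.trans (le_trans ?_ hTm)
    rw [hm, pow_mul]
    exact pow_le_pow_left₀ (Nat.cast_nonneg _) hZle _
  have hdM : ∀ D : Finset ℕ, (∀ p ∈ D, p ≤ Z1) → D.card ≤ 2 * r + 1 → ∏ p ∈ D, p ≤ M := by
    intro D hD hDc
    have h1 := hdT D hD hDc
    rw [hM]
    apply Nat.le_floor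
    have := Real.exp_pos (δ * T)
    linarith
  have hgen : ∀ D : Finset ℕ, (∀ p ∈ D, p.Prime ∧ w < p ∧ p ≤ Z1) → D.card ≤ 2 * r + 1 → ∃ Er : Finset ℕ → ℝ, (∀ T', 0 ≤ Er T') ∧
      (∀ T' ⊆ P, |WS (range (Nm + 1)) (om N T Q B) (fun p t => t % p ∈ H' p) (D ∪ T') -
        WS (range (Nm + 1)) (om N T Q B) (fun p t => t % p ∈ H' p) D *
          ∏ p ∈ T', (if p ∈ P then ((H' p).card : ℝ) / ((p : ℝ) - 1) else 0)| ≤ Er T') ∧
      ∑ T' ∈ P.powerset.filter (fun T' => ((∏ p ∈ T', p : ℕ) : ℝ) ≤ (Y : ℝ) ^ (499 / 1000 : ℝ)), Er T' ≤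
        (1 / T ^ (2 * κ + 2)) * (1 / (Q.totient : ℝ)) * ∏ p ∈ D, (((H' p).card : ℝ) / psi Q p) := by
    intro D hD hDc
    have h1 : ((Q * ∏ p ∈ D, p : ℕ) : ℝ) ≤ (Real.exp T) ^ (1 / 100000 : ℝ) := by
      push_cast
      have h2 := hdT D (fun p hp => (hD p hp).2.2) hDc
      push_cast at h2
      calc (Q : ℝ) * ∏ p ∈ D, (p : ℝ) ≤ Real.exp (2 * δ * T) * Real.exp (δ * T) := by
            apply mul_le_mul hQr _ (prod_nonneg fun p _ => Nat.cast_nonneg p) (Real.exp_pos _).le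
            have := Real.exp_pos (δ * T)
            linarith
        _ = Real.exp (3 * δ * T) := by rw [← Real.exp_add]; ring_nf
        _ ≤ Real.exp (T * (1 / 100000)) := by
            apply Real.exp_le_exp.2
            nlinarith
        _ = (Real.exp T) ^ (1 / 100000 : ℝ) := by rw [← Real.exp_mul]
    obtain ⟨Er, e1, e2, e3⟩ := hin2 N Q B Nm Y H' P D hN hS.hB1 hS.hBQ hS.hco hNm hYle
      (fun p hp => ⟨(hD p hp).1, (hD p hp).2.2, (hH'1 p).1, fun _ => (hH'1 p).2.2⟩) h1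
      (fun p hp => ⟨(hPm p hp).1, (hPm p hp).2.1, (hPm p hp).2.2.1, (hH'1 p).1, (hH'1 p).2.1, (hH'1 p).2.2⟩)
    refine ⟨Er, e1, fun T' hT' => ?_, e3⟩
    have e4 : ∏ p ∈ T', (if p ∈ P then ((H' p).card : ℝ) / ((p : ℝ) - 1) else 0) = ∏ p ∈ T', (((H' p).card : ℝ) / ((p : ℝ) - 1)) :=
      prod_congr rfl fun p hp => if_pos (hT' hp)
    rw [e4]
    exact e2 T' hT'
  have hlcase : (l.Prime ∧ w < l ∧ l ≤ Z1 ∧ l = l1) ∨ l = 0 := by
    rw [hl]
    split_ifs with h1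
    · rcases hl1 with h2 | h2
      · right; exact h2
      · left; exact ⟨h2, h1.1, h1.2, rfl⟩
    · right; rfl
  have hEr : ∀ D : Finset ℕ, ((D ⊆ Mid ∧ D.card ≤ 2 * r + 1) ∨ D = {l}) → ∃ Er : Finset ℕ → ℝ, (∀ T', 0 ≤ Er T') ∧
      (∀ T' ⊆ P, |WS (range (Nm + 1)) (om N T Q B) (fun p t => t % p ∈ H' p) (D ∪ T') -
        WS (range (Nm + 1)) (om N T Q B) (fun p t => t % p ∈ H' p) D *
          ∏ p ∈ T', (if p ∈ P then ((H' p).card : ℝ) / ((p : ℝ) - 1) else 0)| ≤ Er T') ∧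
      ∑ T' ∈ P.powerset.filter (fun T' => ((∏ p ∈ T', p : ℕ) : ℝ) ≤ (Y : ℝ) ^ (499 / 1000 : ℝ)), Er T' ≤
        (1 / T ^ (2 * κ + 2)) * (1 / (Q.totient : ℝ)) * ∏ p ∈ D, (((H' p).card : ℝ) / psi Q p) := by
    intro D hD
    rcases hD with ⟨h1, h2⟩ | h1
    · exact hgen D (fun p hp => ⟨(hMidm p (h1 hp)).1, (hMidm p (h1 hp)).2.1, (hMidm p (h1 hp)).2.2.1⟩) h2
    · rcases hlcase with h2 | h2
      · apply hgen D
        · intro p hp
          rw [h1, mem_singleton] at hp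
          rw [hp]
          exact ⟨h2.1, h2.2.1, h2.2.2.1⟩
        · rw [h1, card_singleton]
          omega
      · refine ⟨fun _ => 0, fun _ => le_rfl, fun T' _ => ?_, ?_⟩
        · have z0 : ∀ t, ¬ (fun p t => t % p ∈ H' p) 0 t := by
            intro t
            simp only
            rw [hH'0]
            exact notMem_empty _
          rw [h1, h2, WS_zero z0 (mem_union_left _ (mem_singleton_self 0)), WS_zero z0 (mem_singleton_self 0)]
          simp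
        · rw [sum_const_zero, h1, h2, prod_singleton, hH'0]
          simp
  choose Er0 hEr0 using hEr
  have hmidm : ∀ p ∈ Mid, 0 ≤ ((H' p).card : ℝ) / psi Q p ∧ ((H' p).card : ℝ) / psi Q p ≤ κ / ((p : ℝ) - 1) := by
    intro p hp
    have h1 := psi_pos (Q := Q) (hMidm p hp).1
    have h2 := psi_ge (Q := Q) (hMidm p hp).1
    have hp1 : (0 : ℝ) < (p : ℝ) - 1 := by
      have : (2 : ℝ) ≤ p := by exact_mod_cast (hMidm p hp).1.two_le
      linarith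
    refine ⟨div_nonneg (Nat.cast_nonneg _) h1.le, ?_⟩
    have h3 : ((H' p).card : ℝ) ≤ κ := by exact_mod_cast (hH'1 p).2.1
    exact div_le_div₀ (Nat.cast_nonneg _) h3 hp1 h2
  have hκp : ∀ p : ℕ, w < p → (κ : ℝ) / ((p : ℝ) - 1) ≤ 1 / 2 := by
    intro p hp
    have h1 : 4 * κ + 5 ≤ p := by omega
    have h2 : (4 : ℝ) * κ + 5 ≤ p := by exact_mod_cast h1
    have h3 : (0 : ℝ) ≤ κ := Nat.cast_nonneg κ
    rw [div_le_div_iff₀ (by linarith) (by norm_num)]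
    linarith
  have hmidsum : ∑ p ∈ Mid, ((H' p).card : ℝ) / psi Q p ≤ lam0 := by
    calc ∑ p ∈ Mid, ((H' p).card : ℝ) / psi Q p ≤ ∑ p ∈ Mid, (κ : ℝ) / ((p : ℝ) - 1) := sum_le_sum fun p hp => (hmidm p hp).2
      _ ≤ ∑ p ∈ (Ioc w Z1).filter Nat.Prime, (κ : ℝ) / ((p : ℝ) - 1) := by
          apply sum_le_sum_of_subset_of_nonneg
          · rw [hMid]
            exact erase_subset _ _
          · intro p hp _
            rw [mem_filter] at hp
            have : (2 : ℝ) ≤ p := by exact_mod_cast hp.2.two_le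
            exact div_nonneg (Nat.cast_nonneg κ) (by linarith)
      _ ≤ lam0 := by
          rw [hlam0, hZ1]
          exact mid_lam hCm (by omega) hmid (by linarith) hS.hw1 hS.hw2
  have hprodmid : cmid ≤ ∏ p ∈ Mid, (1 - ((H' p).card : ℝ) / psi Q p) := by
    rw [hcmid]
    exact prod_exp (fun p hp => ⟨(hmidm p hp).1, (hmidm p hp).2.trans (hκp p (hMidm p hp).2.1)⟩) hmidsum
  obtain ⟨Er, hErdef⟩ : ∃ Er : Finset ℕ → Finset ℕ → ℝ, Er = fun D T' =>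
    if hD : ((D ⊆ Mid ∧ D.card ≤ 2 * r + 1) ∨ D = {l}) then Er0 D hD T' else 0 := ⟨_, rfl⟩
  have hErp : ∀ D T' (hD : (D ⊆ Mid ∧ D.card ≤ 2 * r + 1) ∨ D = {l}), Er D T' = Er0 D hD T' := by
    intro D T' hD
    rw [hErdef]
    simp only
    rw [dif_pos hD]
  have a1 : P ⊆ PZ Y (9 / 20) := by rw [hP]; exact filter_subset _ _
  have a2 : Disjoint Mid P := by
    rw [Finset.disjoint_left]
    intro p hp hp'
    have := (hMidm p hp).2.2.1
    have := (hPm p hp').2.1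
    omega
  have a3 : l ∉ Mid := by
    intro hmem
    rcases hlcase with h1 | h1
    · exact (hMidm l hmem).2.2.2 h1.2.2.2
    · rw [h1] at hmem
      exact Nat.not_prime_zero (hMidm 0 hmem).1
  have a4 : l ∉ P := by
    intro hmem
    rcases hlcase with h1 | h1
    · have := (hPm l hmem).2.1
      omega
    · rw [h1] at hmem
      exact Nat.not_prime_zero (hPm 0 hmem).1
  have a6 : ∀ p ∈ P, 0 ≤ (if p ∈ P then ((H' p).card : ℝ) / ((p : ℝ) - 1) else 0) ∧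
      (if p ∈ P then ((H' p).card : ℝ) / ((p : ℝ) - 1) else 0) ≤ 1 ∧
      (if p ∈ P then ((H' p).card : ℝ) / ((p : ℝ) - 1) else 0) ≤ κ / ((p : ℝ) - 1) := by
    intro p hp
    rw [if_pos hp]
    have h1 := (hPm p hp).2.1
    have h2 : w < p := by omega
    have h3 : (2 : ℝ) ≤ p := by exact_mod_cast (hPm p hp).1.two_le
    have h4 : ((H' p).card : ℝ) ≤ κ := by exact_mod_cast (hH'1 p).2.1
    have h5 : ((H' p).card : ℝ) / ((p : ℝ) - 1) ≤ κ / ((p : ℝ) - 1) := div_le_div_of_nonneg_right h4 (by linarith)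
    exact ⟨div_nonneg (Nat.cast_nonneg _) (by linarith), h5.trans ((hκp p h2).trans (by norm_num)), h5⟩
  have a7 : Mer (pr Y ε₁ (9 / 20)) (tt Y) (fun p => if p ∈ P then ((H' p).card : ℝ) / ((p : ℝ) - 1) else 0) ε₁ (9 / 20) η := by
    intro x y hx hxy hy
    have h1 := hMer x y hx hxy hy
    have h2 : ∑ p ∈ (pr Y ε₁ (9 / 20)).filter (fun p => x ≤ tt Y p ∧ tt Y p < y),
        (if p ∈ P then ((H' p).card : ℝ) / ((p : ℝ) - 1) else 0) =
        ∑ p ∈ (pr Y ε₁ (9 / 20)).filter (fun p => x ≤ tt Y p ∧ tt Y p < y), ((H p).card : ℝ) / ((p : ℝ) - 1) := by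
      apply sum_congr rfl
      intro p hp
      rw [mem_filter] at hp
      have h3 := hprP p hp.1
      rw [if_pos h3, hH'e p (hPm p h3).1 (by have := (hPm p h3).2.1; omega)]
    rw [h2]
    exact h1
  have a13 : 0 ≤ κ * CJ * T / (w : ℝ) := by positivity
  have a14 : ∀ D T', 0 ≤ Er D T' := by
    intro D T'
    rw [hErdef]
    simp only
    split_ifs with hD
    · exact (hEr0 D hD).1 T'
    · exact le_rfl
  have a15 : ∀ p ∈ Mid, 0 ≤ ((H' p).card : ℝ) / psi Q p ∧ ((H' p).card : ℝ) / psi Q p ≤ 1 := fun p hp =>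
    ⟨(hmidm p hp).1, (hmidm p hp).2.trans ((hκp p (hMidm p hp).2.1).trans (by norm_num))⟩
  have a17 : ∀ D ⊆ Mid, D.card ≤ 2 * r + 1 → |WS (range (Nm + 1)) (om N T Q B) (fun p t => t % p ∈ H' p) D -
      MM * (1 / (Q.totient : ℝ)) * ∏ p ∈ D, (((H' p).card : ℝ) / psi Q p)| ≤
      (ε * T) * (1 / (Q.totient : ℝ)) * ∏ p ∈ D, (((H' p).card : ℝ) / psi Q p) := by
    intro D hD hDc
    apply inp1 hN hT1 hNm hS.hB1 hS.hBQ hS.hco (fun p hp => ⟨(hMidm p (hD hp)).1, (hH'1 p).1, fun _ => (hH'1 p).2.2⟩)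
    intro b hb1 hb2
    have hpos : 1 ≤ ∏ p ∈ D, p := prime_prod_ne fun p hp => (hMidm p (hD hp)).1
    apply hJ (∏ p ∈ D, p) b hpos _ _ hb1 hb2
    · rw [← hM]
      exact hdM D (fun p hp => (hMidm p (hD hp)).2.2.1) hDc
    · intro hdvd
      rcases hl1 with h1 | h1
      · rw [h1, zero_dvd_iff] at hdvd
        omega
      · obtain ⟨p, hp, hpd⟩ := (Prime.dvd_finsetProd_iff (Nat.prime_iff.1 h1) _).1 hdvd
        have h2 := (Nat.prime_dvd_prime_iff_eq h1 (hMidm p (hD hp)).1).1 hpd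
        exact (hMidm p (hD hp)).2.2.2 h2.symm
  have hTCm : T ^ C1 ≤ Real.exp (δ * T) := by
    have h1 : T ^ C1 ≤ T ^ m := by
      apply pow_le_pow_right₀ hT1
      rw [hm]
      exact Nat.le_mul_of_pos_right _ (by omega)
    have := Real.exp_pos (δ * T)
    linarith
  have h8 : ∀ p : ℕ, (p : ℝ) ≤ Real.exp (2 * δ * T) → (((Q * p) ^ 8 : ℕ) : ℝ) ≤ Real.exp T := by
    intro p hp
    push_cast
    calc ((Q : ℝ) * p) ^ 8 ≤ (Real.exp (2 * δ * T) * Real.exp (2 * δ * T)) ^ 8 := by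
          apply pow_le_pow_left₀ (by positivity)
          exact mul_le_mul hQr hp (Nat.cast_nonneg p) (Real.exp_pos _).le
      _ = Real.exp (32 * δ * T) := by
          rw [← Real.exp_add, ← Real.exp_nat_mul]
          congr 1
          push_cast
          ring
      _ ≤ Real.exp T := by
          apply Real.exp_le_exp.2
          nlinarith
  have a18 : WS (range (Nm + 1)) (om N T Q B) (fun p t => t % p ∈ H' p) {l} ≤ (κ * CJ * T / (w : ℝ)) * (1 / (Q.totient : ℝ)) := by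
    rcases hlcase with h1 | h1
    · have h2 : (l : ℝ) ≤ Real.exp (2 * δ * T) := by
        have h3 : (l : ℝ) ≤ Z1 := by exact_mod_cast h1.2.2.1
        refine h3.trans (hZle.trans (hTCm.trans (Real.exp_le_exp.2 ?_)))
        nlinarith
      refine (WS_one hCJ hJup hN (by linarith) hNm hS.hB1 hS.hBQ hS.hco h1.1 (hH'1 l).1 (hH'1 l).2.1 (fun _ => (hH'1 l).2.2) (h8 l h2)).trans ?_
      apply mul_le_mul_of_nonneg_right _ (by positivity)
      apply div_le_div_of_nonneg_left (by positivity) hw0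
      have h3 : w + 1 ≤ l := h1.2.1
      have h4 : (w : ℝ) + 1 ≤ l := by exact_mod_cast h3
      linarith
    · have z0 : ∀ t, ¬ (fun p t => t % p ∈ H' p) 0 t := by
        intro t
        simp only
        rw [hH'0]
        exact notMem_empty _
      rw [h1, WS_zero z0 (mem_singleton_self 0)]
      positivity
  have a19 : ∀ D T' : Finset ℕ, ((D ⊆ Mid ∧ D.card ≤ 2 * r + 1) ∨ D = {l}) → T' ⊆ P →
      ((∏ p ∈ T', p : ℕ) : ℝ) ≤ (Y : ℝ) ^ (499 / 1000 : ℝ) →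
      |WS (range (Nm + 1)) (om N T Q B) (fun p t => t % p ∈ H' p) (D ∪ T') -
        WS (range (Nm + 1)) (om N T Q B) (fun p t => t % p ∈ H' p) D *
          ∏ p ∈ T', (if p ∈ P then ((H' p).card : ℝ) / ((p : ℝ) - 1) else 0)| ≤ Er D T' := by
    intro D T' hD hT' _
    rw [hErp D T' hD]
    exact (hEr0 D hD).2.1 T' hT'
  have a20 : ∀ D ⊆ Mid, D.card ≤ 2 * r + 1 →
      ∑ T' ∈ P.powerset.filter (fun T' => ((∏ p ∈ T', p : ℕ) : ℝ) ≤ (Y : ℝ) ^ (499 / 1000 : ℝ)), Er D T' ≤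
        (1 / T ^ (2 * κ + 2)) * (1 / (Q.totient : ℝ)) * ∏ p ∈ D, (((H' p).card : ℝ) / psi Q p) := by
    intro D hD hDc
    have h1 : (D ⊆ Mid ∧ D.card ≤ 2 * r + 1) ∨ D = {l} := Or.inl ⟨hD, hDc⟩
    have h2 := (hEr0 D h1).2.2
    rw [sum_congr rfl (fun T' _ => hErp D T' h1)]
    exact h2
  have a21 : ∑ T' ∈ P.powerset.filter (fun T' => ((∏ p ∈ T', p : ℕ) : ℝ) ≤ (Y : ℝ) ^ (499 / 1000 : ℝ)), Er {l} T' ≤
        (1 / T ^ (2 * κ + 2)) * (1 / (Q.totient : ℝ)) := by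
    have h1 : (({l} : Finset ℕ) ⊆ Mid ∧ ({l} : Finset ℕ).card ≤ 2 * r + 1) ∨ ({l} : Finset ℕ) = {l} := Or.inr rfl
    have h2 := (hEr0 {l} h1).2.2
    rw [sum_congr rfl (fun T' _ => hErp {l} T' h1)]
    refine h2.trans ?_
    rw [prod_singleton]
    apply mul_le_of_le_one_right (by positivity)
    rcases hlcase with h3 | h3
    · have h4 := psi_ge (Q := Q) h3.1
      have h5 := psi_pos (Q := Q) h3.1
      rw [div_le_one h5]
      exact (hcard1 l h3.2.1).trans h4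
    · rw [h3, hH'0]
      simp
  have key := hML Y hY0 (range (Nm + 1)) (fun p t => t % p ∈ H' p) P Mid l r
    (fun p => if p ∈ P then ((H' p).card : ℝ) / ((p : ℝ) - 1) else 0) (fun p => ((H' p).card : ℝ) / psi Q p) (om N T Q B)
    (1 / (Q.totient : ℝ)) MM (ε * T) (κ * CJ * T / (w : ℝ)) lam0 (1 / T ^ (2 * κ + 2)) Er a1 a2 a3 a4
    (fun p hp => if_neg hp) a6 a7 (fun n _ => om_nonneg N T Q B n) (by positivity) (le_trans (by positivity) hMM) (by positivity)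
    (by positivity) a13 a14 a15 hmidsum a17 a18 a19 a20 a21
  have hrk : ∀ p ∈ P, 0 ≤ rk Y p := fun p hp => rk_nonneg (hPm p hp).2.2.2.2.le
  -- the elements
  have hsplit := split_bd (S := range (Nm + 1)) (ω := om N T Q B) (om_nonneg N T Q B)
    (A := fun n => (∀ p ∈ Mid, ¬ (fun p t => t % p ∈ H' p) p n) ∧ ¬ (fun p t => t % p ∈ H' p) l n ∧
      ∀ p ∈ P, tt Y p < 1 / 8 → ¬ (fun p t => t % p ∈ H' p) p n)
    (Np := fun t => ¬ (Q * t + B).Prime ∨ t ∈ G)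
    (cnt := fun n => ∑ p ∈ P.filter (fun p => 1 / 8 ≤ tt Y p ∧ (fun p t => t % p ∈ H' p) p n), rk Y p) (fun t => sum_nonneg fun p hp => hrk p (mem_filter.1 hp).1)
    (SS := pr Y (1 / 8) (9 / 20)) (BB := Q.primeFactors.filter (fun p => Z1 < p)) (Sq := Sq) (g := fun p t => t % p ∈ H' p) (by
      intro t _ hA hω0 hprime hSq hBB
      by_contra hlt
      apply hbad
      push Not at hprime
      refine ⟨t, hprime.2, hprime.1, ?_⟩
      have hKN : KN N T (Q * t + B) ≠ 0 := by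
        intro h0
        apply hω0
        unfold om
        rw [h0, zero_mul]
      have hn1 : 1 ≤ Q * t + B := by have := hS.hB1; omega
      have hn0 : (0 : ℝ) < ((Q * t + B : ℕ) : ℝ) := by exact_mod_cast hn1
      have hlog : T < Real.log ((Q * t + B : ℕ) : ℝ) ∧ Real.log ((Q * t + B : ℕ) : ℝ) < 101 / 100 * T + 1 := by
        by_contra hcon
        apply hKN
        apply KN_zero hN hT0 hn1
        by_cases h1 : Real.log ((Q * t + B : ℕ) : ℝ) ≤ T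
        · exact Or.inl h1
        · right
          push Not at h1
          by_contra h2
          push Not at h2
          exact hcon ⟨h1, h2⟩
      refine ⟨?_, ?_, ?_, ?_, ?_⟩
      · have h1 := (Real.lt_log_iff_exp_lt hn0).1 hlog.1
        refine lt_trans ?_ h1
        apply Real.exp_lt_exp.2
        linarith
      · have h1 := (Real.log_lt_iff_lt_exp hn0).1 hlog.2
        refine h1.le.trans ?_
        rw [Real.exp_add, mul_comm]
        apply mul_le_mul_of_nonneg_right _ (Real.exp_pos _).le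
        have := Real.exp_one_lt_d9
        linarith
      · intro p hp hwp htt
        rw [← hY] at htt
        rw [← hH'e p hp hwp]
        by_cases hpZ : p ≤ Z1
        · by_cases hpl : p = l1
          · have h1 : l = p := by
              rw [hl, if_pos ⟨by omega, by omega⟩, hpl]
            have h2 := hA.2.1
            rw [h1] at h2
            exact h2
          · apply hA.1 p
            rw [hMid, mem_erase, mem_filter, mem_Ioc]
            exact ⟨hpl, ⟨hwp, hpZ⟩, hp⟩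
        · push Not at hpZ
          by_cases hpQ : p ∣ Q
          · exact hBB p (mem_filter.2 ⟨Nat.mem_primeFactors.2 ⟨hp, hpQ, hQpos.ne'⟩, hpZ⟩)
          · apply hA.2.2 p _ htt
            rw [hP, mem_filter]
            unfold PZ
            rw [mem_filter, mem_Icc]
            refine ⟨⟨⟨hp.one_lt.le, ?_⟩, hp, htt.trans (by norm_num)⟩, hpZ, hpQ⟩
            have h1 := (tt_lt Y p 1 hY2n hp.pos).1 (htt.trans (by norm_num))
            rw [Real.rpow_one] at h1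
            exact_mod_cast h1.le
      · push Not at hlt
        rw [← hY]
        refine lt_of_le_of_lt (sum_le_sum_of_subset_of_nonneg ?_ fun p hp _ => hrk p (mem_filter.1 hp).1) hlt
        intro p hp
        rw [mem_filter] at hp
        have h2 := hpr8 p hp.1
        have h3 := hPm p h2.1
        rw [mem_filter]
        refine ⟨h2.1, h2.2, ?_⟩
        rw [hH'e p h3.1 (by have := h3.2.1; omega)]
        exact hp.2
      · rw [← hY]
        exact hSq)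
  -- the masses
  have m0 := np_mass' hN (by linarith : 3 ≤ T) hNm hS.hB1 hS.hBQ
  have m1 : ∑ t ∈ (range (Nm + 1)).filter (fun t => ¬ (Q * t + B).Prime ∨ t ∈ G), om N T Q B t ≤
      12 * T ^ 2 * Real.exp (-(T / 2)) + 48 * T * Real.exp (-(T / 100)) := by
    have h1 : ∑ t ∈ (range (Nm + 1)).filter (fun t => ¬ (Q * t + B).Prime ∨ t ∈ G), om N T Q B t ≤
        ∑ t ∈ (range (Nm + 1)).filter (fun t => ¬ (Q * t + B).Prime) ∪ G, om N T Q B t := by
      apply sum_le_sum_of_subset_of_nonneg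
      · intro t ht
        rw [mem_filter] at ht
        rw [mem_union, mem_filter]
        rcases ht.2 with h2 | h2
        · exact Or.inl ⟨ht.1, h2⟩
        · exact Or.inr h2
      · intro t _ _
        exact om_nonneg N T Q B t
    have h2 : ∑ t ∈ (range (Nm + 1)).filter (fun t => ¬ (Q * t + B).Prime) ∪ G, om N T Q B t ≤
        ∑ t ∈ (range (Nm + 1)).filter (fun t => ¬ (Q * t + B).Prime), om N T Q B t + ∑ t ∈ G, om N T Q B t := by
      rw [← sum_union_inter]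
      have : 0 ≤ ∑ t ∈ (range (Nm + 1)).filter (fun t => ¬ (Q * t + B).Prime) ∩ G, om N T Q B t :=
        sum_nonneg fun t _ => om_nonneg N T Q B t
      linarith
    have h3 : ∑ t ∈ G, om N T Q B t ≤ 48 * T * Real.exp (-(T / 100)) := by
      have h4 : ∑ t ∈ G, om N T Q B t ≤ (G.card : ℝ) * (48 * T * Real.exp (-T)) := by
        rw [← nsmul_eq_mul]
        exact sum_le_card_nsmul _ _ _ (fun t _ => om_le hN hT1 hS.hB1)
      refine h4.trans ?_
      calc (G.card : ℝ) * (48 * T * Real.exp (-T)) ≤ Real.exp (99 / 100 * T) * (48 * T * Real.exp (-T)) :=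
            mul_le_mul_of_nonneg_right hGc (by positivity)
        _ = 48 * T * (Real.exp (99 / 100 * T) * Real.exp (-T)) := by ring
        _ = 48 * T * Real.exp (-(T / 100)) := by
            rw [← Real.exp_add]
            ring_nf
    linarith
  have m2 : ∑ p ∈ pr Y (1 / 8) (9 / 20), ∑ t ∈ (range (Nm + 1)).filter (fun t => Sq p t), om N T Q B t ≤
      1000 * T * Real.exp (-(T / 11)) := by
    apply sq_mass hN hT20 hNm2 hS.hB1
    · intro p hp n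
      rw [hY] at hp
      exact hS.hSq p n hp
    · intro p hp
      rw [hY] at hp
      rcases pr_facts hT20 hp with h1 | h1
      · refine ⟨h1.1, lt_of_lt_of_le ?_ h1.2.2, h1.2.1⟩
        rw [Real.div_rpow (Real.exp_pos _).le (by norm_num), ← Real.exp_mul, lt_div_iff₀ (by positivity)]
        have h2 : (2 : ℝ) ^ (1 / 8 : ℝ) = Real.exp (Real.log 2 * (1 / 8)) := by
          rw [Real.rpow_def_of_pos (by norm_num)]
        rw [h2, ← Real.exp_add]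
        apply Real.exp_lt_exp.2
        have := Real.log_two_lt_d9
        linarith
      · norm_num at h1
  have m3 : ∑ p ∈ Q.primeFactors.filter (fun p => Z1 < p), WS (range (Nm + 1)) (om N T Q B) (fun p t => t % p ∈ H' p) {p} ≤
      (K / T ^ (2 * κ + 1)) * (1 / (Q.totient : ℝ)) := by
    have h1 : ∀ p ∈ Q.primeFactors.filter (fun p => Z1 < p), WS (range (Nm + 1)) (om N T Q B) (fun p t => t % p ∈ H' p) {p} ≤
        (2 * κ * CJ * T / T ^ C1) * (1 / (Q.totient : ℝ)) := by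
      intro p hp
      rw [mem_filter] at hp
      have hpp := Nat.prime_of_mem_primeFactors hp.1
      have hpd := Nat.dvd_of_mem_primeFactors hp.1
      have h2 : (p : ℝ) ≤ Real.exp (2 * δ * T) := by
        have : (p : ℝ) ≤ Q := by exact_mod_cast Nat.le_of_dvd hQpos hpd
        exact this.trans hQr
      refine (WS_one hCJ hJup hN (by linarith) hNm hS.hB1 hS.hBQ hS.hco hpp (hH'1 p).1 (hH'1 p).2.1 (fun _ => (hH'1 p).2.2) (h8 p h2)).trans ?_
      apply mul_le_mul_of_nonneg_right _ (by positivity)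
      have h3 : Z1 + 1 ≤ p := hp.2
      have h4 : (Z1 : ℝ) + 1 ≤ p := by exact_mod_cast h3
      have h5 : (2 : ℝ) ≤ Z1 := by
        have : 2 ≤ Z1 := by omega
        exact_mod_cast this
      have h6 : T ^ C1 / 2 ≤ (p : ℝ) - 1 := by linarith
      have h7 : (0 : ℝ) < T ^ C1 / 2 := by positivity
      calc (κ : ℝ) * CJ * T / ((p : ℝ) - 1) ≤ κ * CJ * T / (T ^ C1 / 2) := by
            apply div_le_div_of_nonneg_left (by positivity) h7 h6
        _ = 2 * κ * CJ * T / T ^ C1 := by field_simp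
    refine (sum_le_sum h1).trans ?_
    rw [sum_const, nsmul_eq_mul]
    have h2 : (((Q.primeFactors.filter (fun p => Z1 < p)).card : ℕ) : ℝ) ≤ T := by
      have h3 : (((Q.primeFactors.filter (fun p => Z1 < p)).card : ℕ) : ℝ) ≤ ((Q.primeFactors.card : ℕ) : ℝ) := by
        exact_mod_cast card_filter_le _ _
      have h4 := primeFactors_card_le hQpos
      have h5 : Real.log Q ≤ 2 * δ * T := by
        rw [Real.log_le_iff_le_exp (by exact_mod_cast hQpos)]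
        exact hQr
      nlinarith
    calc (((Q.primeFactors.filter (fun p => Z1 < p)).card : ℕ) : ℝ) * ((2 * κ * CJ * T / T ^ C1) * (1 / (Q.totient : ℝ))) ≤
        T * ((2 * κ * CJ * T / T ^ C1) * (1 / (Q.totient : ℝ))) := mul_le_mul_of_nonneg_right h2 (by positivity)
      _ = (2 * κ * CJ * (T ^ 2 / T ^ C1)) * (1 / (Q.totient : ℝ)) := by ring
      _ ≤ (2 * κ * CJ * (1 / T ^ (2 * κ + 1))) * (1 / (Q.totient : ℝ)) := by
          apply mul_le_mul_of_nonneg_right _ (by positivity)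
          apply mul_le_mul_of_nonneg_left _ (by positivity)
          rw [div_le_div_iff₀ (by positivity) (by positivity), one_mul, ← pow_add]
          exact pow_le_pow_right₀ hT1 (by omega)
      _ = (K / T ^ (2 * κ + 1)) * (1 / (Q.totient : ℝ)) := by
          rw [hKd]
          ring
  have hV : (cV / T) ^ (2 * κ) ≤ ∏ p ∈ P.filter (fun p => tt Y p < 1 / 8), (1 - (if p ∈ P then ((H' p).card : ℝ) / ((p : ℝ) - 1) else 0)) := by
    have h1 := hVP (P.filter (fun p => tt Y p < 1 / 8)) (fun p => (H' p).card) Y hY2n (by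
      intro p hp
      rw [mem_filter] at hp
      have h2 := hPm p hp.1
      exact ⟨h2.1, by have := h2.2.1; omega, h2.2.2.2.1⟩) (fun p _ => (hH'1 p).2.1)
    have h2 : (cV / T) ^ (2 * κ) ≤ (cV / Real.log Y) ^ (2 * κ) := by
      apply pow_le_pow_left₀ (by positivity)
      exact div_le_div_of_nonneg_left hcV.le hlogY0 hlogY
    refine h2.trans (h1.trans (le_of_eq ?_))
    apply prod_congr rfl
    intro p hp
    rw [mem_filter] at hp
    rw [if_pos hp.1]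
  have hQ50 : (Q.totient : ℝ) ≤ Real.exp (T / 50) := by
    have h1 : (Q.totient : ℝ) ≤ Q := by exact_mod_cast Nat.totient_le Q
    refine h1.trans (hQr.trans (Real.exp_le_exp.2 ?_))
    nlinarith
  have hQ200 : (Q.totient : ℝ) ≤ Real.exp (T / 200) := by
    have h1 : (Q.totient : ℝ) ≤ Q := by exact_mod_cast Nat.totient_le Q
    refine h1.trans (hQr.trans (Real.exp_le_exp.2 ?_))
    nlinarith
  have hE0 := Real.exp_pos lam0
  refine fin_num (F := 1 / (Q.totient : ℝ)) (φ := Q.totient) (MM := MM) (cM := cM) (T := T) (E0 := Real.exp lam0) (ε := ε) (ε' := ε * T)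
    (ρ := lam0 ^ (2 * r + 1) / (2 * r + 1).factorial) (c₀ := c₀) (C₀ := C₀) (X3 := κ * CJ * T / (w : ℝ))
    (Pr := ∏ p ∈ Mid, (1 - ((H' p).card : ℝ) / psi Q p)) (cmid := cmid)
    (V := ∏ p ∈ P.filter (fun p => tt Y p < 1 / 8), (1 - (if p ∈ P then ((H' p).card : ℝ) / ((p : ℝ) - 1) else 0)))
    (cV := (cV / T) ^ (2 * κ)) (Y30 := 30 * Real.log Y * (1 / T ^ (2 * κ + 2)) * Real.exp lam0) (K := K / T ^ (2 * κ + 1))
    (S3 := Real.exp (T / 50) * (12 * T ^ 2 * Real.exp (-(T / 2)) + 1000 * T * Real.exp (-(T / 11))) + 48 * T * Real.exp (-(T / 200)))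
    (m1 := ∑ t ∈ (range (Nm + 1)).filter (fun t => ¬ (Q * t + B).Prime ∨ t ∈ G), om N T Q B t)
    (m2 := ∑ p ∈ pr Y (1 / 8) (9 / 20), ∑ t ∈ (range (Nm + 1)).filter (fun t => Sq p t), om N T Q B t)
    rfl hφ hc₀ hC₀ hcmid0 hcM hT0 hE0 hMM hε rfl hε1 ?_ ?_ ?_ ?_ hprodmid hV (by positivity) ?_ m3 ?_ ?_
  · rwa [le_div_iff₀ (by positivity)] at hε2
  · rwa [le_div_iff₀ (by positivity)] at hr
  · have : 0 ≤ lam0 := by
      rw [hlam0]
      have h1 : 0 ≤ Real.log (2 * (C1 : ℝ)) := by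
        apply Real.log_nonneg
        have : (3 : ℝ) ≤ C1 := by
          have : 3 ≤ C1 := by omega
          exact_mod_cast this
        linarith
      positivity
    positivity
  · have h1 : 8 * C₀ * κ * CJ / (c₀ * cM * cmid) ≤ w := hW0b.trans hwW
    rw [div_le_iff₀ (by positivity)] at h1
    rw [div_mul_eq_mul_div, div_le_iff₀ hw0]
    calc κ * CJ * T * (8 * C₀) = (8 * C₀ * κ * CJ) * T := by ring
      _ ≤ (w * (c₀ * cM * cmid)) * T := mul_le_mul_of_nonneg_right h1 hT0.le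
      _ = _ := by ring
  · refine key.trans (le_trans (le_of_eq ?_) (le_trans hsplit (le_of_eq ?_)))
    · refine sum_congr ?_ (fun n _ => ?_)
      · ext n
        simp only [mem_filter]
      · congr!
    · congr!
  · have h1 : (Q.totient : ℝ) * (48 * T * Real.exp (-(T / 100))) ≤ 48 * T * Real.exp (-(T / 200)) := by
      calc (Q.totient : ℝ) * (48 * T * Real.exp (-(T / 100))) ≤ Real.exp (T / 200) * (48 * T * Real.exp (-(T / 100))) :=
            mul_le_mul_of_nonneg_right hQ200 (by positivity)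
        _ = 48 * T * (Real.exp (T / 200) * Real.exp (-(T / 100))) := by ring
        _ = 48 * T * Real.exp (-(T / 200)) := by
            rw [← Real.exp_add]
            ring_nf
    have h2 : (Q.totient : ℝ) * (12 * T ^ 2 * Real.exp (-(T / 2)) + 1000 * T * Real.exp (-(T / 11))) ≤
        Real.exp (T / 50) * (12 * T ^ 2 * Real.exp (-(T / 2)) + 1000 * T * Real.exp (-(T / 11))) :=
      mul_le_mul_of_nonneg_right hQ50 (by positivity)
    have h3 := mul_le_mul_of_nonneg_left (add_le_add m1 m2) hφ.le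
    refine h3.trans ?_
    calc (Q.totient : ℝ) * (12 * T ^ 2 * Real.exp (-(T / 2)) + 48 * T * Real.exp (-(T / 100)) + 1000 * T * Real.exp (-(T / 11))) =
        (Q.totient : ℝ) * (12 * T ^ 2 * Real.exp (-(T / 2)) + 1000 * T * Real.exp (-(T / 11))) +
          (Q.totient : ℝ) * (48 * T * Real.exp (-(T / 100))) := by ring
      _ ≤ _ := add_le_add h2 h1
  · have e1 : c₀ * cmid * cM / 2 * T * (cV / T) ^ (2 * κ) = (c₀ * cmid * cM / 2 * cV ^ (2 * κ)) * T / T ^ (2 * κ) := by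
      rw [div_pow]
      ring
    rw [e1]
    refine lt_of_le_of_lt ?_ hfin
    have h1 : 30 * Real.log Y * (1 / T ^ (2 * κ + 2)) * Real.exp lam0 ≤ 30 * T * Real.exp lam0 / T ^ (2 * κ + 2) := by
      calc 30 * Real.log Y * (1 / T ^ (2 * κ + 2)) * Real.exp lam0 ≤ 30 * T * (1 / T ^ (2 * κ + 2)) * Real.exp lam0 := by gcongr
        _ = _ := by ring
    linarith


open Classical in
theorem NPW : S_NPW := by
  intro κ
  obtain ⟨ε₁, η, c₀, C₀, hε₁, hε₁8, hη, hc₀, hC₀, Y0, hML⟩ := Pool.Agent.H536.OR.SubC.ML (fun κ => AK κ) κ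
  obtain ⟨CE, hCE, hDT⟩ := DT
  obtain ⟨CJ, hCJ, hJup⟩ := JJ_up
  obtain ⟨Cm, hCm, hmid⟩ := mid_sum
  obtain ⟨cV, hcV, hVP⟩ := VP_low κ
  obtain ⟨C0', hinp2⟩ := inp2 κ (2 * κ + 2)
  obtain ⟨C1, hC1def⟩ : ∃ C1 : ℕ, C1 = max C0' (2 * κ + 3) := ⟨_, rfl⟩
  have hC1a : C0' ≤ C1 := by omega
  have hC1b : 2 * κ + 3 ≤ C1 := by omega
  obtain ⟨lam0, hlam0⟩ : ∃ lam0 : ℝ, lam0 = κ * (2 * (Real.log (2 * C1) + Cm)) := ⟨_, rfl⟩
  obtain ⟨cmid, hcmid⟩ : ∃ c, c = Real.exp (-(2 * lam0)) := ⟨_, rfl⟩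
  have hcmid0 : 0 < cmid := by rw [hcmid]; exact Real.exp_pos _
  obtain ⟨r, hr⟩ : ∃ r : ℕ, lam0 ^ (2 * r + 1) / (2 * r + 1).factorial ≤ c₀ * cmid / (8 * C₀) := by
    have h1 := FloorSemiring.tendsto_pow_div_factorial_atTop lam0
    have h2 := h1.eventually (gt_mem_nhds (by positivity : 0 < c₀ * cmid / (8 * C₀)))
    obtain ⟨n0, hn0⟩ := eventually_atTop.1 h2
    exact ⟨n0, (hn0 (2 * n0 + 1) (by omega)).le⟩
  refine ⟨ε₁, η, 32 * CE, hε₁, hε₁8, hη, by positivity, ?_⟩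
  intro c2 hc2 hc21
  obtain ⟨cM, hcM⟩ : ∃ c : ℝ, c = c2 / 100000000 := ⟨_, rfl⟩
  have hcM0 : 0 < cM := by rw [hcM]; positivity
  obtain ⟨ε, hεdef⟩ : ∃ ε : ℝ, ε = min cM (cM * cmid / (8 * Real.exp lam0)) := ⟨_, rfl⟩
  have hε : 0 < ε := by rw [hεdef]; positivity
  have hε1 : ε ≤ cM := by rw [hεdef]; exact min_le_left _ _
  have hε2 : ε ≤ cM * cmid / (8 * Real.exp lam0) := by rw [hεdef]; exact min_le_right _ _
  obtain ⟨N', δd, T0d, hN', hδd, hT0d, hD⟩ := hDT c2 hc2 hc21 ε hε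
  refine ⟨min (δd / 32) (min (1 / 300000) (ε₁ / 4)), by positivity, ?_⟩
  intro δ hδ hδle
  have hδ1 : 32 * δ ≤ δd := by
    have := hδle.trans (min_le_left _ _)
    linarith
  have hδ2 : δ ≤ 1 / 300000 := hδle.trans ((min_le_right _ _).trans (min_le_left _ _))
  have hδ3 : δ ≤ ε₁ / 4 := hδle.trans ((min_le_right _ _).trans (min_le_right _ _))
  obtain ⟨W0, hW0⟩ : ∃ W0 : ℝ, W0 = max (4 * (κ : ℝ) + 4) (8 * C₀ * κ * CJ / (c₀ * cM * cmid)) := ⟨_, rfl⟩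
  obtain ⟨m, hm⟩ : ∃ m : ℕ, m = C1 * (2 * r + 1) := ⟨_, rfl⟩
  have hev := facts16 κ C1 m Y0 ε₁ δ W0 (Real.exp lam0) (2 * κ * CJ) (c₀ * cmid * cM / 2 * cV ^ (2 * κ)) hε₁ (by linarith) hδ hδ3
    (Real.exp_pos _) (by positivity) (by positivity)
  obtain ⟨T1, hT1⟩ := eventually_atTop.1 (hev.and ((hinp2 C1 hC1a).and (eventually_ge_atTop T0d)))
  refine ⟨T1, fun T hT Q B w _ H Sq hS hMer => ?_⟩
  obtain ⟨⟨hT20, hY0, hM3, hTm, hTC1, hQε, hWT, hfin⟩, hin2, hTd⟩ := hT1 T hT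
  have hT0 : 0 < T := by linarith
  obtain ⟨M, hM⟩ : ∃ M : ℕ, M = ⌊Real.exp (δ * T)⌋₊ := ⟨_, rfl⟩
  have hM3' : 3 ≤ M := by rw [hM]; exact Nat.le_floor (by exact_mod_cast hM3)
  have hMle : (M : ℝ) ≤ Real.exp (δ * T) := by rw [hM]; exact Nat.floor_le (Real.exp_pos _).le
  have hMr : (3 : ℝ) ≤ M := by exact_mod_cast hM3'
  have hQM : Q ≤ M ^ 2 := by rw [hM]; exact hS.hQ
  have hz32 : 32 ≤ M ^ 32 := by
    calc 32 ≤ 3 ^ 32 := by norm_num
      _ ≤ M ^ 32 := Nat.pow_le_pow_left hM3' 32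
  have hQDD : (Q * M * M) ^ 8 ≤ M ^ 32 := by
    calc (Q * M * M) ^ 8 ≤ (M ^ 2 * M * M) ^ 8 := by gcongr
      _ = M ^ 32 := by ring
  have hlM : Real.log M ≤ δ * T := by
    rw [Real.log_le_iff_le_exp (by linarith)]
    exact hMle
  have hlogz : Real.log ((M ^ 32 : ℕ) : ℝ) ≤ 32 * (δ * T) := by
    push_cast
    rw [Real.log_pow]
    push_cast
    linarith
  rcases hD (M ^ 32) Q M B T hz32 (by omega) hQDD hS.hco hTd (hlogz.trans (by nlinarith)) with ⟨MM, l1, hMM, hl1, hJ⟩ | ⟨χ, h1, h2, h3, h4⟩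
  · right
    have hMM' : cM * T ≤ MM := by
      rw [hcM]
      calc c2 / 100000000 * T = c2 * T / 100000000 := by ring
        _ ≤ MM := hMM
    rw [hM] at hJ
    exact npw_main hε₁ hε₁8 hc₀ hC₀ hCJ hCm hcV hML hJup hmid hVP hC1b hlam0 hcmid hr hcM0 hε hε1 hε2 hδ hδ2 hm
      (by rw [hW0]; exact le_max_left _ _) (by rw [hW0]; exact le_max_right _ _) rfl hT20 hY0 hTm hTC1 hQε hWT hfin hin2 hS hMer
      (by positivity : 0 < 4 * N') hMM' hl1 hJ
  · left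
    refine ⟨χ, h1, h2, h3, ?_⟩
    rw [← hM]
    refine h4.trans ?_
    have h5 : Real.log ((M ^ 32 : ℕ) : ℝ) / T ≤ 32 * δ := by
      rw [div_le_iff₀ hT0]
      linarith
    calc CE * c2 * (Real.log ((M ^ 32 : ℕ) : ℝ) / T) ≤ CE * c2 * (32 * δ) := by gcongr
      _ = _ := by ring


end Pool.Agent.H536.OR
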