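import Mathlib

open Finset

/-! Statement: prime arguments and values of one irreducible polynomial, uniformly in progressions (helper536). -/

namespace Pool.Agent.H536.OR

open Polynomial

/-- one irreducible polynomial of degree `g ≥ 2`: prime arguments `c n + d`, value `f (u n + v)` with fewer than `9 g / 4 + 3 / 2` prime
factors, and `n` outside of at most `κ` forbidden classes modulo the small primes, uniformly for all `c ≤ exp (δ T)` -/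
def S_F : Prop := ∀ f : ℤ[X], Irreducible f → 2 ≤ f.natDegree → ∀ κ : ℕ, ∃ δ ε T0 : ℝ, 0 < δ ∧ 0 < ε ∧ ∀ T : ℝ, T0 ≤ T →
  ∀ (c d : ℕ) (u v : ℤ) (F : ℕ → Finset ℕ), 1 ≤ d → d ≤ c → (c : ℝ) ≤ Real.exp (δ * T) →
  u ≠ 0 → |((u : ℤ) : ℝ)| ≤ Real.exp (T / 500) → |((v : ℤ) : ℝ)| ≤ Real.exp (101 / 100 * T) →
  (∀ p : ℕ, p.Prime → (F p).card ≤ κ) →
  (∀ p : ℕ, p.Prime → ∃ n : ℕ, ¬ p ∣ c * n + d ∧ ¬ (p : ℤ) ∣ f.eval (u * n + v) ∧ n % p ∉ F p) →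
  ∃ S : Finset ℕ, Real.exp (98 / 100 * T) < S.card ∧ ∀ n ∈ S, (c * n + d).Prime ∧
    Real.exp (98 / 100 * T) < ((c * n + d : ℕ) : ℝ) ∧ ((c * n + d : ℕ) : ℝ) ≤ 3 * Real.exp (101 / 100 * T) ∧
    (∀ p : ℕ, p.Prime → (p : ℝ) ≤ Real.exp (ε * T) → n % p ∉ F p) ∧
    (∀ p : ℕ, p.Prime → (p : ℝ) ≤ Real.exp (T / 9) → ¬ (p : ℤ) ∣ f.eval (u * n + v)) ∧
    1 < (f.eval (u * n + v)).natAbs ∧ 4 * ArithmeticFunction.cardFactors (f.eval (u * n + v)).natAbs < 9 * f.natDegree + 6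

/-- primes `p ≤ X` in a progression to a modulus `q ≤ X ^ δ` such that `f (m p)` has fewer than `9 g / 4 + 3 / 2` prime factors, and the
values `g_i (p)` of further polynomials at most `R` prime factors -/
def S_PT : Prop := ∀ f : ℤ[X], Irreducible f → 2 ≤ f.natDegree → ∀ k D K : ℕ, ∃ (δ : ℝ) (R X0 : ℕ), 0 < δ ∧ ∀ X : ℕ, X0 ≤ X →
  ∀ g : Fin k → ℤ[X], (∀ i, (g i).natDegree ≤ D) → (∀ i j, |(g i).coeff j| ≤ X ^ K) →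
  ∀ (q a : ℕ) (m : ℤ), 1 ≤ q → (q : ℝ) ≤ (X : ℝ) ^ δ → m ≠ 0 → |((m : ℤ) : ℝ)| ≤ (X : ℝ) ^ δ →
  (∀ p : ℕ, p.Prime → ∃ n : ℤ, (p ∣ q → (p : ℤ) ∣ n - a) ∧ ¬ (p : ℤ) ∣ n ∧ ¬ (p : ℤ) ∣ f.eval (m * n) ∧ ∀ i, ¬ (p : ℤ) ∣ (g i).eval n) →
  ∃ S : Finset ℕ, (X : ℝ) ^ (97 / 100 : ℝ) ≤ S.card ∧
    ∀ p ∈ S, p.Prime ∧ p ≤ X ∧ p ≡ a [MOD q] ∧ (X : ℝ) ^ (97 / 100 : ℝ) ≤ p ∧ 1 < (f.eval (m * p)).natAbs ∧
      4 * ArithmeticFunction.cardFactors (f.eval (m * p)).natAbs < 9 * f.natDegree + 6 ∧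
      (∀ l : ℕ, l.Prime → l ∣ (f.eval (m * p)).natAbs → (X : ℝ) ^ (11 / 100 : ℝ) < l) ∧
      ∀ i, (g i).eval (p : ℤ) ≠ 0 ∧ ArithmeticFunction.cardFactors ((g i).eval (p : ℤ)).natAbs ≤ R

end Pool.Agent.H536.OR
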