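import Mathlib
import Pool.Agent.H536.OC.SF
import Pool.Agent.H536.OC.SSqF
import Pool.Agent.H536.OR.RU
import Pool.Agent.H536.OR.ROm
import Pool.Agent.H536.OR.W1

set_option autoImplicit false

open Finset Filter Topology

/-! Prime arguments and values of one irreducible polynomial, uniformly in progressions: Richert's weights. -/

namespace Pool.Agent.H536.OR

open Polynomial
open Pool.Agent.W23.DC (tt pr Mer)
open Pool.Agent.H474R2.PG (rho)
open Pool.Agent.H536.OC (S_SqF S_Rlim S_Kar)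

/-- Mertens' condition for the roots of `f`, with exceptions -/
def S_MerF : Prop := ∀ f : ℤ[X], Irreducible f → 0 < f.natDegree →
  ∀ (ε₁ η : ℝ) (κ CE : ℕ), 0 < ε₁ → ε₁ ≤ 1 / 8 → 0 < η → ∃ Y0 : ℕ, ∀ Y : ℕ, Y0 ≤ Y →
    ∀ (h : ℕ → ℝ) (E : ℕ), E ≠ 0 → (E : ℝ) ≤ (Y : ℝ) ^ CE →
    (∀ p ∈ pr Y ε₁ (9 / 20), ¬ p ∣ E → h p = (rho f p : ℝ) / ((p : ℝ) - 1)) →
    (∀ p ∈ pr Y ε₁ (9 / 20), p ∣ E → 0 ≤ h p ∧ h p ≤ κ / ((p : ℝ) - 1)) →
    Mer (pr Y ε₁ (9 / 20)) (tt Y) h ε₁ (9 / 20) η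

open Pool.Agent.H536.OC.PF (AA AA_nonneg scale_bound eval_bound scale_ne ev_congr com_dvd lin_exists pcop rho_lin val_card cls_card
  log_floor_exp sq_sum)

namespace PF

theorem numP (g B0 : ℕ) (A : ℝ) (hA : 0 ≤ A) : ∃ T1 : ℝ, ∀ T L : ℝ, T1 ≤ T →
    T - 1 ≤ L → L ≤ T → 10000 ≤ T ∧
    Real.exp (T / 500) * (A * (2 * Real.exp (102 / 100 * T)) ^ g) ≤
      Real.exp (((2 * g + 4 : ℕ) : ℝ) * L) ∧
    A * (4 * Real.exp (1012 / 1000 * T)) ^ g <
      Real.exp ((1012 / 1000 * g + 1 / 200) * L) ∧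
    (3 + 20 * (g : ℝ)) * Real.exp (98 / 100 * T) ≤ Real.exp (99 / 100 * T) ∧
    (B0 : ℝ) < Real.exp (1 / 8 * L) := by
  refine ⟨10000 + 208 * (A + 4 * g + 2) + 100 * (20 * g + 4) + 8 * B0 + 8, fun T L hT hL1 hL2 => ?_⟩
  have hg0 : (0 : ℝ) ≤ g := Nat.cast_nonneg g
  have hB0 : (0 : ℝ) ≤ B0 := Nat.cast_nonneg B0
  have hT1 : 10000 ≤ T := by nlinarith
  have hAe : A ≤ Real.exp A := by
    have := Real.add_one_le_exp A
    linarith
  have hexp : ∀ (q : ℝ) (k : ℕ), 0 ≤ q → q ≤ Real.exp (k : ℝ) → ∀ x : ℝ,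
      (q * Real.exp x) ^ g ≤ Real.exp (k * g + g * x) := by
    intro q k hq0 hq x
    calc (q * Real.exp x) ^ g ≤ (Real.exp (k : ℝ) * Real.exp x) ^ g := by gcongr
      _ = Real.exp (k * g + g * x) := by
          rw [← Real.exp_add, ← Real.exp_nat_mul]
          congr 1
          ring
  have h2e : (2 : ℝ) ≤ Real.exp ((1 : ℕ) : ℝ) := by
    have := Real.add_one_le_exp ((1 : ℕ) : ℝ)
    push_cast at this ⊢
    linarith
  have h4e : (4 : ℝ) ≤ Real.exp ((2 : ℕ) : ℝ) := by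
    have h3 : Real.exp ((2 : ℕ) : ℝ) = Real.exp ((1 : ℕ) : ℝ) * Real.exp ((1 : ℕ) : ℝ) := by
      rw [← Real.exp_add]
      norm_num
    rw [h3]
    nlinarith
  refine ⟨hT1, ?_, ?_, ?_, ?_⟩
  · calc Real.exp (T / 500) * (A * (2 * Real.exp (102 / 100 * T)) ^ g)
        ≤ Real.exp (T / 500) * (Real.exp A * Real.exp (((1 : ℕ) : ℝ) * g + g * (102 / 100 * T))) := by
          have := hexp 2 1 (by norm_num) h2e (102 / 100 * T)
          gcongr
      _ = Real.exp (T / 500 + (A + (((1 : ℕ) : ℝ) * g + g * (102 / 100 * T)))) := by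
          rw [← Real.exp_add, ← Real.exp_add]
      _ ≤ Real.exp (((2 * g + 4 : ℕ) : ℝ) * L) := by
          apply Real.exp_le_exp.2
          push_cast
          have h3 : (2 * (g : ℝ) + 4) * (T - 1) ≤ (2 * (g : ℝ) + 4) * L :=
            mul_le_mul_of_nonneg_left hL1 (by positivity)
          have h4 : 0 ≤ (g : ℝ) * (T - 10000) := mul_nonneg hg0 (by linarith)
          nlinarith
  · calc A * (4 * Real.exp (1012 / 1000 * T)) ^ g
        ≤ Real.exp A * Real.exp (((2 : ℕ) : ℝ) * g + g * (1012 / 1000 * T)) := by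
          have := hexp 4 2 (by norm_num) h4e (1012 / 1000 * T)
          gcongr
      _ = Real.exp (A + (((2 : ℕ) : ℝ) * g + g * (1012 / 1000 * T))) := by rw [← Real.exp_add]
      _ < Real.exp ((1012 / 1000 * g + 1 / 200) * L) := by
          apply Real.exp_lt_exp.2
          push_cast
          have h3 : (g : ℝ) * (T - 1) ≤ (g : ℝ) * L := mul_le_mul_of_nonneg_left hL1 hg0
          have h5 : T ≥ 200 * (A + 4 * g + 2) := by nlinarith
          nlinarith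
  · have h3 : (3 + 20 * (g : ℝ)) ≤ Real.exp (1 / 100 * T) := by
      have := Real.add_one_le_exp (1 / 100 * T)
      linarith
    calc (3 + 20 * (g : ℝ)) * Real.exp (98 / 100 * T)
        ≤ Real.exp (1 / 100 * T) * Real.exp (98 / 100 * T) := by gcongr
      _ = Real.exp (99 / 100 * T) := by
          rw [← Real.exp_add]
          ring_nf
  · have := Real.add_one_le_exp (1 / 8 * L)
    linarith

/-- Mertens' condition -/
theorem merP {f : ℤ[X]} (hf : Irreducible f) (hg : 2 ≤ f.natDegree) {e1 η : ℝ} {κ : ℕ}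
    {Y : ℕ} (hY1 : 1 ≤ Y) {z : ℝ} {c d : ℕ} {u v : ℤ} {F : ℕ → Finset ℕ} (hc : 1 ≤ c) (hu : u ≠ 0)
    (hz : ∀ p ∈ pr Y e1 (9 / 20), z < Real.log p)
    (hcard : ∀ p : ℕ, p.Prime → ((range p).filter (fun x : ℕ => (p : ℤ) ∣ f.eval (u * (x : ℤ) + v) ∨
      (Real.log p ≤ z ∧ x ∈ F p))).card ≤ κ)
    (hE : |((u : ℤ) : ℝ)| * |(((scaleRoots f (c : ℤ)).eval ((c : ℤ) * v - u * d) : ℤ) : ℝ)| ≤
      (Y : ℝ) ^ (2 * f.natDegree + 4))
    (hM : ∀ (h : ℕ → ℝ) (E : ℕ), E ≠ 0 → (E : ℝ) ≤ (Y : ℝ) ^ (2 * f.natDegree + 4) →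
      (∀ p ∈ pr Y e1 (9 / 20), ¬ p ∣ E → h p = (rho f p : ℝ) / ((p : ℝ) - 1)) →
      (∀ p ∈ pr Y e1 (9 / 20), p ∣ E → 0 ≤ h p ∧ h p ≤ κ / ((p : ℝ) - 1)) →
      Mer (pr Y e1 (9 / 20)) (tt Y) h e1 (9 / 20) η) :
    Mer (pr Y e1 (9 / 20)) (tt Y)
      (fun p => (((range p).filter (fun x => x ∈ (range p).filter (fun x : ℕ =>
        (p : ℤ) ∣ f.eval (u * (x : ℤ) + v) ∨ (Real.log p ≤ z ∧ x ∈ F p)) ∧
        ¬ p ∣ c * x + d)).card : ℝ) / ((p : ℝ) - 1)) e1 (9 / 20) η := by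
  classical
  obtain ⟨N1, hN1⟩ : ∃ N1 : ℤ, N1 = (scaleRoots f (c : ℤ)).eval ((c : ℤ) * v - u * d) := ⟨_, rfl⟩
  have hN0 : N1 ≠ 0 := by
    rw [hN1]
    exact scale_ne f hf hg _ _ (by exact_mod_cast (by omega : c ≠ 0))
  rw [← hN1] at hE
  have hpp : ∀ p ∈ pr Y e1 (9 / 20), p.Prime := by
    intro p hp
    unfold Pool.Agent.W23.DC.pr at hp
    exact (mem_filter.1 hp).2.1
  have hNE : ∀ q : ℕ, ¬ q ∣ (u * N1).natAbs → ¬ (q : ℤ) ∣ u ∧ ¬ (q : ℤ) ∣ N1 := by
    intro q hq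
    exact ⟨fun h => hq (Int.natCast_dvd.1 (h.mul_right _)),
      fun h => hq (Int.natCast_dvd.1 (h.mul_left _))⟩
  refine hM _ (u * N1).natAbs (Int.natAbs_ne_zero.2 (mul_ne_zero hu hN0)) ?_ ?_ ?_
  · rw [Nat.cast_natAbs, Int.cast_abs, Int.cast_mul, abs_mul]
    exact hE
  · intro p hp hpE
    obtain ⟨hpu, hpN⟩ := hNE p hpE
    have hpr := hpp p hp
    have hzp := hz p hp
    have e : (range p).filter (fun x => x ∈ (range p).filter (fun x : ℕ =>
        (p : ℤ) ∣ f.eval (u * (x : ℤ) + v) ∨ (Real.log p ≤ z ∧ x ∈ F p)) ∧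
        ¬ p ∣ c * x + d) = (range p).filter (fun x : ℕ => (p : ℤ) ∣ f.eval (u * (x : ℤ) + v)) := by
      ext x
      rw [mem_filter, mem_filter, mem_filter]
      constructor
      · rintro ⟨h1, ⟨_, h2 | h2⟩, _⟩
        · exact ⟨h1, h2⟩
        · exact absurd h2.1 (not_le.2 hzp)
      · rintro ⟨h1, h2⟩
        refine ⟨h1, ⟨h1, Or.inl h2⟩, fun h3 => hpN ?_⟩
        rw [hN1]
        refine com_dvd h2 ?_
        exact_mod_cast h3
    show (((range p).filter (fun x => x ∈ (range p).filter (fun x : ℕ =>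
        (p : ℤ) ∣ f.eval (u * (x : ℤ) + v) ∨ (Real.log p ≤ z ∧ x ∈ F p)) ∧
        ¬ p ∣ c * x + d)).card : ℝ) / ((p : ℝ) - 1) = _
    rw [e, rho_lin f hpr u v hpu]
  · intro p hp hpE
    have hpr := hpp p hp
    have h6 : (1 : ℝ) < p := by exact_mod_cast hpr.one_lt
    have h7 : (0 : ℝ) < (p : ℝ) - 1 := by linarith
    have h8 : ((range p).filter (fun x => x ∈ (range p).filter (fun x : ℕ =>
        (p : ℤ) ∣ f.eval (u * (x : ℤ) + v) ∨ (Real.log p ≤ z ∧ x ∈ F p)) ∧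
        ¬ p ∣ c * x + d)).card ≤ κ := by
      refine (card_le_card ?_).trans (hcard p hpr)
      intro x hx
      rw [mem_filter] at hx
      exact hx.2.1
    exact ⟨div_nonneg (Nat.cast_nonneg _) h7.le,
      div_le_div_of_nonneg_right (by exact_mod_cast h8) h7.le⟩

end PF

open PF

theorem polyF (h6 : S_U6) (hM : S_MerF) (hs : S_SqF) : S_F := by
  classical
  intro f hf hg κ
  obtain ⟨δ6, e1, η, T06, hδ6, he1, he18, hη, h6'⟩ := h6 (κ + f.natDegree)
  obtain ⟨Y0, hY0⟩ := hM f hf (by omega) e1 η (κ + f.natDegree) (2 * f.natDegree + 4) he1 he18 hη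
  obtain ⟨B0, hB0⟩ := hs f hf (by omega)
  obtain ⟨T1, hT1⟩ := numP f.natDegree B0 (AA f) (AA_nonneg f)
  refine ⟨min δ6 (1 / 1000), min (e1 / 4) (1 / 20), max T06 (max T1 (Y0 + 1)), by positivity,
    by positivity, ?_⟩
  intro T hT c d u v F hd1 hdc hc hu0 hu hv hF hadm
  have hTT0 : T06 ≤ T := (le_max_left _ _).trans hT
  have hTT1 : T1 ≤ T := ((le_max_left _ _).trans (le_max_right _ _)).trans hT
  have hTY : (Y0 : ℝ) + 1 ≤ T := ((le_max_right _ _).trans (le_max_right _ _)).trans hT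
  have hY0' : Y0 ≤ ⌊Real.exp T⌋₊ := by
    apply Nat.le_floor
    have := Real.add_one_le_exp T
    linarith
  have hT1' : 1 ≤ T := by
    have : (0 : ℝ) ≤ Y0 := Nat.cast_nonneg _
    linarith
  obtain ⟨l1, l2, l3⟩ := log_floor_exp hT1'
  have h6'' := h6' T hTT0
  obtain ⟨Y, hY⟩ : ∃ Y : ℕ, Y = ⌊Real.exp T⌋₊ := ⟨_, rfl⟩
  rw [← hY] at l1 l2 l3 h6'' hY0'
  obtain ⟨L, hL⟩ : ∃ L : ℝ, L = Real.log Y := ⟨_, rfl⟩
  rw [← hL] at l1 l2
  obtain ⟨n1, n2, n3, n4, n5⟩ := hT1 T L hTT1 l1 l2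
  have hL0 : 0 < L := by linarith
  have hYr : (0 : ℝ) < Y := by exact_mod_cast l3
  have hYL : (Y : ℝ) = Real.exp L := by rw [hL, Real.exp_log hYr]
  have ttlt : ∀ (p : ℕ) (x : ℝ), tt Y p < x ↔ Real.log p < x * L := by
    intro p x
    unfold Pool.Agent.W23.DC.tt
    rw [← hL, div_lt_iff₀ hL0]
  have ttle : ∀ (p : ℕ) (x : ℝ), x ≤ tt Y p ↔ x * L ≤ Real.log p := by
    intro p x
    unfold Pool.Agent.W23.DC.tt
    rw [← hL, le_div_iff₀ hL0]
  have mpr : ∀ (p : ℕ) (u v : ℝ), p ∈ pr Y u v → p.Prime ∧ u * L ≤ Real.log p ∧ Real.log p < v * L := by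
    intro p u v hp
    unfold Pool.Agent.W23.DC.pr at hp
    rw [mem_filter] at hp
    exact ⟨hp.2.1, (ttle p u).1 hp.2.2.1, (ttlt p v).1 hp.2.2.2⟩
  have hmem : ∀ p : ℕ, p.Prime → 1 / 8 * L ≤ Real.log p → Real.log p < 9 / 20 * L →
      p ∈ pr Y (1 / 8) (9 / 20) := by
    intro p hp h1 h2
    have hpr : (0 : ℝ) < p := by exact_mod_cast hp.pos
    unfold Pool.Agent.W23.DC.pr
    rw [mem_filter, mem_Icc]
    refine ⟨⟨hp.pos, ?_⟩, hp, (ttle p _).2 h1, (ttlt p _).2 h2⟩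
    have h9 : Real.log p ≤ Real.log Y := by rw [← hL]; linarith
    exact_mod_cast (Real.log_le_log_iff hpr hYr).1 h9
  have logle : ∀ (p : ℕ) (x : ℝ), p.Prime → (p : ℝ) ≤ Real.exp x → Real.log p ≤ x := by
    intro p x hp h
    rw [← Real.log_exp x]
    exact Real.log_le_log (by exact_mod_cast hp.pos) h
  have hc1 : 1 ≤ c := hd1.trans hdc
  obtain ⟨F', hF'⟩ : ∃ F' : ℕ → Finset ℕ, F' = fun p => (range p).filter (fun x : ℕ =>
    (p : ℤ) ∣ f.eval (u * (x : ℤ) + v) ∨ (Real.log p ≤ e1 / 2 * L ∧ x ∈ F p)) := ⟨_, rfl⟩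
  have memF' : ∀ p x : ℕ, x ∈ F' p ↔ x < p ∧ ((p : ℤ) ∣ f.eval (u * (x : ℤ) + v) ∨
      (Real.log p ≤ e1 / 2 * L ∧ x ∈ F p)) := by
    intro p x
    rw [hF', mem_filter, mem_range]
  have modF : ∀ p n : ℕ, (p : ℤ) ∣ f.eval (u * ((n % p : ℕ) : ℤ) + v) ↔
      (p : ℤ) ∣ f.eval (u * (n : ℤ) + v) := by
    intro p n
    apply ev_congr
    have e : u * ((n % p : ℕ) : ℤ) + v - (u * (n : ℤ) + v) = u * (((n % p : ℕ) : ℤ) - n) := by ring
    rw [e]
    apply Dvd.dvd.mul_left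
    have h1 : (n : ℤ) ≡ ((n % p : ℕ) : ℤ) [ZMOD p] :=
      (Int.natCast_modEq_iff).2 (Nat.mod_modEq n p).symm
    exact h1.dvd
  have hcard : ∀ p : ℕ, p.Prime → (F' p).card ≤ κ + f.natDegree := by
    intro p hp
    have hsub : F' p ⊆ F p ∪ (range p).filter (fun x : ℕ => (p : ℤ) ∣ f.eval (u * (x : ℤ) + v)) := by
      intro x hx
      rw [memF'] at hx
      rw [mem_union, mem_filter, mem_range]
      rcases hx.2 with h | h
      · exact Or.inr ⟨hx.1, h⟩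
      · exact Or.inl h.2
    obtain ⟨n, _, hn, _⟩ := hadm p hp
    exact (card_le_card hsub).trans ((card_union_le _ _).trans
      (Nat.add_le_add (hF p hp) (cls_card hp f u v ⟨n, hn⟩)))
  have hadm' : ∀ p : ℕ, p.Prime → ∃ n : ℕ, ¬ p ∣ c * n + d ∧ n % p ∉ F' p := by
    intro p hp
    obtain ⟨n, h1, h2, h3⟩ := hadm p hp
    refine ⟨n, h1, fun h => ?_⟩
    rw [memF'] at h
    rcases h.2 with h | h
    · exact h2 ((modF p n).1 h)
    · exact h3 h.2
  -- the size of the exceptional number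
  have hcT : (c : ℝ) ≤ Real.exp (1 / 1000 * T) := by
    refine hc.trans (Real.exp_le_exp.2 ?_)
    have := min_le_right δ6 (1 / 1000)
    nlinarith
  have hcT6 : (c : ℝ) ≤ Real.exp (δ6 * T) := by
    refine hc.trans (Real.exp_le_exp.2 ?_)
    have := min_le_left δ6 (1 / 1000)
    nlinarith
  have hdT : (d : ℝ) ≤ Real.exp (1 / 1000 * T) := le_trans (by exact_mod_cast hdc) hcT
  have hEb : |((u : ℤ) : ℝ)| * |(((scaleRoots f (c : ℤ)).eval ((c : ℤ) * v - u * d) : ℤ) : ℝ)| ≤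
      (Y : ℝ) ^ (2 * f.natDegree + 4) := by
    have h1 : |(((scaleRoots f (c : ℤ)).eval ((c : ℤ) * v - u * d) : ℤ) : ℝ)| ≤
        AA f * (2 * Real.exp (102 / 100 * T)) ^ f.natDegree := by
      have hE1 : 1 ≤ Real.exp (1 / 1000 * T) := Real.one_le_exp (by positivity)
      have hE2 : Real.exp (1 / 1000 * T) ≤ Real.exp (102 / 100 * T) :=
        Real.exp_le_exp.2 (by linarith)
      apply scale_bound
      · push_cast
        rw [Nat.abs_cast]
        linarith [Real.exp_pos (102 / 100 * T)]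
      · push_cast
        calc |(c : ℝ) * (v : ℝ) - u * (d : ℝ)| ≤ |(c : ℝ) * (v : ℝ)| + |(u : ℝ) * d| := abs_sub _ _
          _ = c * |((v : ℤ) : ℝ)| + |((u : ℤ) : ℝ)| * d := by
              rw [abs_mul, abs_mul, Nat.abs_cast, Nat.abs_cast]
          _ ≤ Real.exp (1 / 1000 * T) * Real.exp (101 / 100 * T) +
              Real.exp (T / 500) * Real.exp (1 / 1000 * T) := by gcongr
          _ = Real.exp (1 / 1000 * T + 101 / 100 * T) + Real.exp (T / 500 + 1 / 1000 * T) := by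
              rw [← Real.exp_add, ← Real.exp_add]
          _ ≤ Real.exp (102 / 100 * T) + Real.exp (102 / 100 * T) :=
              add_le_add (Real.exp_le_exp.2 (by linarith)) (Real.exp_le_exp.2 (by linarith))
          _ = 2 * Real.exp (102 / 100 * T) := by ring
    calc |((u : ℤ) : ℝ)| * |(((scaleRoots f (c : ℤ)).eval ((c : ℤ) * v - u * d) : ℤ) : ℝ)|
        ≤ Real.exp (T / 500) * (AA f * (2 * Real.exp (102 / 100 * T)) ^ f.natDegree) := by gcongr
      _ ≤ Real.exp (((2 * f.natDegree + 4 : ℕ) : ℝ) * L) := n2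
      _ = (Y : ℝ) ^ (2 * f.natDegree + 4) := by rw [hYL, Real.exp_nat_mul]
  have hmer := merP (F := F) (d := d) (v := v) (z := e1 / 2 * L) (e1 := e1) (η := η) hf hg l3 hc1 hu0
    (fun p hp => by
      obtain ⟨_, hp1, _⟩ := mpr p _ _ hp
      have : e1 / 2 * L < e1 * L := by nlinarith
      linarith)
    (fun p hp => by
      have h1 := hcard p hp
      rw [hF'] at h1
      exact h1) hEb (fun h E => hY0 Y hY0' h E)
  have hmer' : Mer (pr Y e1 (9 / 20)) (tt Y)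
      (fun p => (((range p).filter (fun x => x ∈ F' p ∧ ¬ p ∣ c * x + d)).card : ℝ) /
        ((p : ℝ) - 1)) e1 (9 / 20) η := by
    rw [hF']
    exact hmer
  -- the exceptional sets
  obtain ⟨N, hN⟩ : ∃ N : ℕ, N = ⌊3 * Real.exp (101 / 100 * T)⌋₊ + 1 := ⟨_, rfl⟩
  have hNb : (N : ℝ) ≤ 4 * Real.exp (101 / 100 * T) := by
    have h1 : (⌊3 * Real.exp (101 / 100 * T)⌋₊ : ℝ) ≤ 3 * Real.exp (101 / 100 * T) :=
      Nat.floor_le (by positivity)
    have h2 : 1 ≤ Real.exp (101 / 100 * T) := Real.one_le_exp (by positivity)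
    rw [hN]
    push_cast
    linarith
  obtain ⟨X, hX⟩ : ∃ X : ℝ, X = Real.exp (98 / 100 * T) := ⟨_, rfl⟩
  have hX1 : 1 ≤ X := by rw [hX]; exact Real.one_le_exp (by positivity)
  obtain ⟨GS, hGS⟩ : ∃ GS : Finset ℕ, GS = (pr Y (1 / 8) (9 / 20)).biUnion (fun p =>
    (range N).filter (fun n : ℕ => ((p ^ 2 : ℕ) : ℤ) ∣ f.eval (u * n + v))) := ⟨_, rfl⟩
  obtain ⟨GV, hGV⟩ : ∃ GV : Finset ℕ, GV = ((range N).filter (fun n : ℕ => f.eval (u * (n : ℤ) + v) = 0) ∪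
    ((range N).filter (fun n : ℕ => f.eval (u * (n : ℤ) + v) = 1) ∪
    (range N).filter (fun n : ℕ => f.eval (u * (n : ℤ) + v) = -1))) := ⟨_, rfl⟩
  have hg0 : (0 : ℝ) ≤ f.natDegree := Nat.cast_nonneg _
  have hpl : ∀ p ∈ pr Y (1 / 8) (9 / 20), Real.exp (1 / 8 * L) ≤ (p : ℝ) ∧
      (p : ℝ) < Real.exp (9 / 20 * L) := by
    intro p hp
    obtain ⟨hpp, h1, h2⟩ := mpr p _ _ hp
    have hpr : (0 : ℝ) < p := by exact_mod_cast hpp.pos
    exact ⟨(Real.le_log_iff_exp_le hpr).1 h1, (Real.log_lt_iff_lt_exp hpr).1 h2⟩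
  have hndu : ∀ p : ℕ, p.Prime → Real.exp (1 / 8 * L) ≤ (p : ℝ) → ¬ (p : ℤ) ∣ u := by
    intro p hp hpL hd
    have h4 : (p : ℤ) ≤ |u| := Int.le_of_dvd (abs_pos.2 hu0) ((dvd_abs _ _).2 hd)
    have h5 : (p : ℝ) ≤ |((u : ℤ) : ℝ)| := by
      rw [← Int.cast_abs]
      exact_mod_cast h4
    have h6 : Real.exp (T / 500) < Real.exp (1 / 8 * L) := Real.exp_lt_exp.2 (by linarith)
    linarith
  have hGSc : (GS.card : ℝ) ≤ 17 * f.natDegree * X := by
    have h1 : (GS.card : ℝ) ≤ ∑ p ∈ pr Y (1 / 8) (9 / 20),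
        (f.natDegree * ((N : ℝ) / (p : ℝ) ^ 2 + 1)) := by
      have h2 : (GS.card : ℝ) ≤ ∑ p ∈ pr Y (1 / 8) (9 / 20),
          (((range N).filter (fun n : ℕ => ((p ^ 2 : ℕ) : ℤ) ∣ f.eval (u * n + v))).card : ℝ) := by
        rw [hGS]
        exact_mod_cast card_biUnion_le
      refine h2.trans (sum_le_sum fun p hp => ?_)
      obtain ⟨hpp, _, _⟩ := mpr p _ _ hp
      have hp1 := (hpl p hp).1
      refine hB0 u v N p hpp ?_ (hndu p hpp hp1)
      have : (B0 : ℝ) < p := lt_of_lt_of_le n5 hp1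
      exact_mod_cast this
    have h2 : ∑ p ∈ pr Y (1 / 8) (9 / 20), ((f.natDegree : ℝ) * ((N : ℝ) / (p : ℝ) ^ 2 + 1)) =
        (f.natDegree : ℝ) * ((N : ℝ) * ∑ p ∈ pr Y (1 / 8) (9 / 20), 1 / (p : ℝ) ^ 2 +
          ((pr Y (1 / 8) (9 / 20)).card : ℝ)) := by
      rw [← mul_sum, sum_add_distrib, mul_sum, sum_const, nsmul_eq_mul, mul_one]
      congr 2
      exact sum_congr rfl fun p _ => by rw [mul_one_div]
    have h3 : ∑ p ∈ pr Y (1 / 8) (9 / 20), 1 / (p : ℝ) ^ 2 ≤ 2 / Real.exp (1 / 8 * L) :=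
      sq_sum _ _ (Real.one_le_exp (by positivity)) fun p hp => (hpl p hp).1
    have h4 : ((pr Y (1 / 8) (9 / 20)).card : ℝ) ≤ Real.exp (9 / 20 * L) := by
      have h5 : pr Y (1 / 8) (9 / 20) ⊆ Icc 1 ⌊Real.exp (9 / 20 * L)⌋₊ := by
        intro p hp
        obtain ⟨hpp, _, _⟩ := mpr p _ _ hp
        rw [mem_Icc]
        exact ⟨hpp.pos, Nat.le_floor (hpl p hp).2.le⟩
      have h6 := card_le_card h5
      rw [Nat.card_Icc, Nat.add_sub_cancel] at h6
      have h7 : (⌊Real.exp (9 / 20 * L)⌋₊ : ℝ) ≤ Real.exp (9 / 20 * L) :=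
        Nat.floor_le (Real.exp_pos _).le
      exact le_trans (by exact_mod_cast h6) h7
    have h5 : (N : ℝ) * (2 / Real.exp (1 / 8 * L)) ≤ 16 * X := by
      have h6 : 2 / Real.exp (1 / 8 * L) = 2 * Real.exp (-(1 / 8 * L)) := by
        rw [Real.exp_neg]
        rfl
      have h7 : Real.exp (-(1 / 8 * L)) ≤ Real.exp (1 / 8 - 1 / 8 * T) :=
        Real.exp_le_exp.2 (by linarith)
      have h8 : Real.exp (1 / 8 - 1 / 8 * T) * Real.exp (101 / 100 * T) ≤ 2 * X := by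
        have h9 : (2 : ℝ) ≤ Real.exp 1 := by
          have := Real.add_one_le_exp (1 : ℝ)
          linarith
        have h10 : Real.exp (1 / 8 - 1 / 8 * T) * Real.exp (101 / 100 * T) ≤ X := by
          rw [← Real.exp_add, hX]
          exact Real.exp_le_exp.2 (by linarith)
        linarith
      rw [h6]
      calc (N : ℝ) * (2 * Real.exp (-(1 / 8 * L)))
          ≤ (4 * Real.exp (101 / 100 * T)) * (2 * Real.exp (1 / 8 - 1 / 8 * T)) := by gcongr
        _ = 8 * (Real.exp (1 / 8 - 1 / 8 * T) * Real.exp (101 / 100 * T)) := by ring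
        _ ≤ 8 * (2 * X) := by gcongr
        _ = 16 * X := by ring
    have h6 : Real.exp (9 / 20 * L) ≤ X := by
      rw [hX]
      exact Real.exp_le_exp.2 (by linarith)
    rw [h2] at h1
    refine h1.trans ?_
    calc (f.natDegree : ℝ) * (N * ∑ p ∈ pr Y (1 / 8) (9 / 20), 1 / (p : ℝ) ^ 2 +
          (pr Y (1 / 8) (9 / 20)).card)
        ≤ f.natDegree * (N * (2 / Real.exp (1 / 8 * L)) + Real.exp (9 / 20 * L)) := by gcongr
      _ ≤ f.natDegree * (16 * X + X) := by gcongr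
      _ = 17 * f.natDegree * X := by ring
  have hGVc : (GV.card : ℝ) ≤ 3 * f.natDegree * X := by
    have h1 : GV.card ≤ f.natDegree + (f.natDegree + f.natDegree) := by
      rw [hGV]
      exact (card_union_le _ _).trans (Nat.add_le_add (val_card f hg u v hu0 0 N)
        ((card_union_le _ _).trans (Nat.add_le_add (val_card f hg u v hu0 1 N)
          (val_card f hg u v hu0 (-1) N))))
    have h2 : (GV.card : ℝ) ≤ 3 * f.natDegree := by
      have : GV.card ≤ 3 * f.natDegree := by omega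
      exact_mod_cast this
    calc (GV.card : ℝ) ≤ 3 * f.natDegree * 1 := by rw [mul_one]; exact h2
      _ ≤ 3 * f.natDegree * X := by gcongr
  -- the good set
  obtain ⟨Good1, hG1⟩ : ∃ Good1 : ℕ → Prop, Good1 = fun n => (c * n + d).Prime ∧
    Real.exp (98 / 100 * T) < ((c * n + d : ℕ) : ℝ) ∧ ((c * n + d : ℕ) : ℝ) ≤ 3 * Real.exp (101 / 100 * T) ∧
    (∀ p : ℕ, p.Prime → (p : ℝ) ≤ Real.exp (min (e1 / 4) (1 / 20) * T) → n % p ∉ F p) ∧
    (∀ p : ℕ, p.Prime → (p : ℝ) ≤ Real.exp (T / 9) → ¬ (p : ℤ) ∣ f.eval (u * n + v)) ∧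
    1 < (f.eval (u * n + v)).natAbs ∧ 4 * ArithmeticFunction.cardFactors (f.eval (u * n + v)).natAbs < 9 * f.natDegree + 6 := ⟨_, rfl⟩
  refine ⟨(range N).filter Good1, ?_, fun n hn => ?_⟩
  swap
  · have := (mem_filter.1 hn).2
    rw [hG1] at this
    exact this
  by_contra hcon
  rw [not_lt, ← hX] at hcon
  obtain ⟨G, hG⟩ : ∃ G : Finset ℕ, G = ((range N).filter Good1 ∪ range (⌊X⌋₊ + 1)) ∪ (GS ∪ GV) :=
    ⟨_, rfl⟩
  have hGc : (G.card : ℝ) ≤ Real.exp (99 / 100 * T) := by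
    have h1 : G.card ≤ (((range N).filter Good1).card + (⌊X⌋₊ + 1)) + (GS.card + GV.card) := by
      rw [hG]
      refine (card_union_le _ _).trans (Nat.add_le_add ?_ (card_union_le _ _))
      have := card_union_le ((range N).filter Good1) (range (⌊X⌋₊ + 1))
      rwa [card_range] at this
    have h2 : (G.card : ℝ) ≤ ((((range N).filter Good1).card : ℝ) + (⌊X⌋₊ + 1)) +
        (GS.card + GV.card) := by exact_mod_cast h1
    have h3 := Nat.floor_le (by linarith : 0 ≤ X)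
    rw [← hX] at n4
    refine le_trans ?_ n4
    nlinarith
  obtain ⟨n, hnG, g1, g2, g3, g4, g5⟩ := h6'' c d F' hd1 hdc hcT6 hcard hadm' hmer' G hGc
  rw [hG, mem_union, mem_union, mem_union, not_or, not_or, not_or] at hnG
  obtain ⟨⟨hn1, hn2⟩, hn3, hn4⟩ := hnG
  have hncd : n ≤ c * n + d := (Nat.le_mul_of_pos_left n (by omega)).trans (Nat.le_add_right _ _)
  have hnN : n ∈ range N := by
    rw [mem_range, hN, Nat.lt_succ_iff]
    exact Nat.le_floor (le_trans (by exact_mod_cast hncd) g3)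
  have hnr : (n : ℝ) ≤ 3 * Real.exp (101 / 100 * T) := le_trans (by exact_mod_cast hncd) g3
  have hlow : ∀ p : ℕ, p.Prime → Real.log p < 1 / 8 * L → ¬ (p : ℤ) ∣ f.eval (u * (n : ℤ) + v) := by
    intro p hp hpL hd
    refine g4 p hp ((ttlt p _).2 hpL) ?_
    rw [memF']
    exact ⟨Nat.mod_lt _ hp.pos, Or.inl ((modF p n).2 hd)⟩
  have hval : f.eval (u * (n : ℤ) + v) ≠ 0 ∧ f.eval (u * (n : ℤ) + v) ≠ 1 ∧
      f.eval (u * (n : ℤ) + v) ≠ -1 := by
    rw [hGV, mem_union, mem_union, mem_filter, mem_filter, mem_filter] at hn4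
    exact ⟨fun h => hn4 (Or.inl ⟨hnN, h⟩), fun h => hn4 (Or.inr (Or.inl ⟨hnN, h⟩)),
      fun h => hn4 (Or.inr (Or.inr ⟨hnN, h⟩))⟩
  obtain ⟨v1, v2, v3⟩ := hval
  have hnat0 : (f.eval (u * (n : ℤ) + v)).natAbs ≠ 0 := Int.natAbs_ne_zero.2 v1
  apply hn1
  rw [mem_filter]
  refine ⟨hnN, ?_⟩
  rw [hG1]
  refine ⟨g1, ?_, g3, ?_, ?_, ?_, ?_⟩
  · rw [← hX]
    have h8 : ⌊X⌋₊ + 1 ≤ n := by
      rw [mem_range] at hn2
      omega
    have h9 := Nat.lt_floor_add_one X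
    have h10 : ((⌊X⌋₊ : ℝ)) + 1 ≤ ((c * n + d : ℕ) : ℝ) := by exact_mod_cast h8.trans hncd
    linarith
  · intro p hp hpe hd
    have h4 := logle p _ hp hpe
    have h5 : min (e1 / 4) (1 / 20) * T ≤ e1 / 4 * T := by gcongr; exact min_le_left _ _
    have h6 : min (e1 / 4) (1 / 20) * T ≤ 1 / 20 * T := by gcongr; exact min_le_right _ _
    have h7 : e1 / 4 * T ≤ e1 / 2 * L := by nlinarith
    refine g4 p hp ((ttlt p _).2 (by linarith)) ?_
    rw [memF']
    exact ⟨Nat.mod_lt _ hp.pos, Or.inr ⟨by linarith, hd⟩⟩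
  · intro p hp hpe
    have h4 := logle p _ hp hpe
    exact hlow p hp (by linarith)
  · have h4 : (f.eval (u * (n : ℤ) + v)).natAbs ≠ 1 := by
      intro h
      rcases Int.natAbs_eq_iff.1 h with h5 | h5
      · exact v2 (by exact_mod_cast h5)
      · exact v3 (by exact_mod_cast h5)
    omega
  · have hm1 : (((f.eval (u * (n : ℤ) + v)).natAbs : ℕ) : ℝ) < Real.exp ((1012 / 1000 * (f.natDegree : ℝ) + 1 / 200) * L) := by
      refine lt_of_le_of_lt ?_ n3
      rw [Nat.cast_natAbs, Int.cast_abs]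
      have hE1 : 1 ≤ Real.exp (1012 / 1000 * T) := Real.one_le_exp (by positivity)
      apply eval_bound _ _ _ (by linarith)
      rw [Int.cast_add, Int.cast_mul, Int.cast_natCast]
      calc |(u : ℝ) * (n : ℝ) + (v : ℝ)| ≤ |(u : ℝ) * (n : ℝ)| + |(v : ℝ)| := abs_add_le _ _
        _ = |(u : ℝ)| * (n : ℝ) + |(v : ℝ)| := by rw [abs_mul, Nat.abs_cast]
        _ ≤ Real.exp (T / 500) * (3 * Real.exp (101 / 100 * T)) + Real.exp (101 / 100 * T) := by
            gcongr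
        _ = 3 * Real.exp (T / 500 + 101 / 100 * T) + Real.exp (101 / 100 * T) := by
            rw [Real.exp_add]
            ring
        _ ≤ 3 * Real.exp (1012 / 1000 * T) + Real.exp (1012 / 1000 * T) := by
            have h9 : Real.exp (T / 500 + 101 / 100 * T) ≤ Real.exp (1012 / 1000 * T) :=
              Real.exp_le_exp.2 (by linarith)
            have h10 : Real.exp (101 / 100 * T) ≤ Real.exp (1012 / 1000 * T) :=
              Real.exp_le_exp.2 (by linarith)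
            linarith
        _ = 4 * Real.exp (1012 / 1000 * T) := by ring
    have hm0 : (0 : ℝ) < (((f.eval (u * (n : ℤ) + v)).natAbs : ℕ) : ℝ) := by
      exact_mod_cast Nat.pos_of_ne_zero hnat0
    have hY2 : 2 ≤ Y := by
      have h4 : Real.exp 1 ≤ Y := by
        rw [hYL]
        exact Real.exp_le_exp.2 (by linarith)
      have h5 := Real.add_one_le_exp (1 : ℝ)
      have h6 : (2 : ℝ) ≤ Y := by linarith
      exact_mod_cast h6
    refine omR _ Y f.natDegree hnat0 hY2 ?_ ?_ ?_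
    · rw [← hL]
      exact ((Real.log_lt_iff_lt_exp hm0).2 hm1).le
    · intro p hp hpd1 hpU hpd
      have hpr : (0 : ℝ) < p := by exact_mod_cast hp.pos
      have h4 : Real.log p < 9 / 20 * L := (ttlt p _).1 hpU
      have h5 : 1 / 8 * L ≤ Real.log p := by
        by_contra hc
        rw [not_le] at hc
        exact hlow p hp hc (Int.natCast_dvd.2 hpd1)
      apply hn3
      rw [hGS, mem_biUnion]
      refine ⟨p, hmem p hp h5 h4, ?_⟩
      rw [mem_filter]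
      exact ⟨hnN, Int.natCast_dvd.2 hpd⟩
    · refine lt_of_le_of_lt (sum_le_sum_of_subset_of_nonneg ?_ fun p hp _ => ?_) g5
      · intro p hp
        rw [mem_filter] at hp
        have hpp := Nat.prime_of_mem_primeFactors hp.1
        have hpd' : (p : ℤ) ∣ f.eval (u * (n : ℤ) + v) := Int.natCast_dvd.2 (Nat.dvd_of_mem_primeFactors hp.1)
        have h4 : Real.log p < 9 / 20 * L := (ttlt p _).1 hp.2
        have h5 : 1 / 8 * L ≤ Real.log p := by
          by_contra hc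
          rw [not_le] at hc
          exact hlow p hpp hc hpd'
        rw [mem_filter]
        refine ⟨hmem p hpp h5 h4, ?_⟩
        rw [memF']
        exact ⟨Nat.mod_lt _ hpp.pos, Or.inl ((modF p n).2 hpd')⟩
      · have h1 := (mem_filter.1 hp).1
        exact rk_nonneg ((ttlt p _).2 (mpr p _ _ h1).2.2).le

end Pool.Agent.H536.OR
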