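import Mathlib
import Pool.Agent.H536.OC.SMerF
import Pool.Agent.H536.OC.SEu
import Pool.Agent.H536.OC.SRlim
import Pool.Agent.H536.OC.SKar
import Pool.Agent.H536.OR.RF

open Finset Filter Topology

/-! Mertens' condition for the roots of an irreducible polynomial; assembly of the theorem for one irreducible polynomial. -/

namespace Pool.Agent.H536.OR

open Polynomial
open Pool.Agent.W23.DC (tt pr Mer)
open Pool.Agent.H474R2.PG (rho)
open Pool.Agent.H536.OC (S_Rlim S_Kar MerX_low MerX_card)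

theorem merF (h1 : S_Rlim) (h2 : S_Kar) : S_MerF := by
  intro f hf hd ε₁ η κ CE hε₁ hε₁2 hη
  obtain ⟨N₀, hN₀⟩ := h2 (fun p => (rho f p : ℝ)) (f.natDegree : ℝ)
    (fun p hp => ⟨Nat.cast_nonneg _, by exact_mod_cast Pool.Agent.H536.OC.MerFAux.rho_le hf hd hp⟩)
    (h1 f hf hd) ε₁ (η / 2) hε₁ (by positivity)
  set T : ℝ := CE / ε₁ * (κ + f.natDegree) with hT
  have hT0 : 0 ≤ T := by positivity
  have hev : ∀ᶠ N : ℕ in Filter.atTop, 2 * T / η + 2 ≤ (N : ℝ) ^ ε₁ :=
    ((tendsto_rpow_atTop hε₁).comp tendsto_natCast_atTop_atTop).eventually_ge_atTop _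
  obtain ⟨N₁, hN₁⟩ := Filter.eventually_atTop.1 hev
  refine ⟨max (max N₀ N₁) 2, fun Y hY h E hE hEY h3 h4 => ?_⟩
  have hY2 : 2 ≤ Y := (le_max_right _ _).trans hY
  have hYN0 : N₀ ≤ Y := (le_max_left _ _).trans ((le_max_left _ _).trans hY)
  have hYN1 : N₁ ≤ Y := (le_max_right _ _).trans ((le_max_left _ _).trans hY)
  have hy := hN₁ Y hYN1
  set y : ℝ := (Y : ℝ) ^ ε₁ with hydef
  have hTη : 0 ≤ 2 * T / η := by positivity
  have hy1 : 1 ≤ y - 1 := by linarith
  have hy0 : 0 < y - 1 := by linarith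
  have hTy : T / (y - 1) ≤ η / 2 := by
    rw [div_le_iff₀ hy0]
    have h3 : 2 * T / η ≤ y - 1 := by linarith
    rw [div_le_iff₀ hη] at h3
    linarith
  intro a b ha hab hb
  have hfil : (pr Y ε₁ (9 / 20)).filter (fun p => a ≤ tt Y p ∧ tt Y p < b) = pr Y a b := by
    unfold pr
    ext p
    simp only [Finset.mem_filter]
    constructor
    · rintro ⟨⟨h3, h4, -, -⟩, h5, h6⟩
      exact ⟨h3, h4, h5, h6⟩
    · rintro ⟨h3, h4, h5, h6⟩
      exact ⟨⟨h3, h4, ha.trans h5, lt_of_lt_of_le h6 hb⟩, h5, h6⟩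
  have hfil' : ∀ inst : DecidablePred (fun p => a ≤ tt Y p ∧ tt Y p < b),
      @Finset.filter _ (fun p => a ≤ tt Y p ∧ tt Y p < b) inst (pr Y ε₁ (9 / 20)) = pr Y a b := by
    intro inst
    rw [← hfil]
    ext x
    simp only [Finset.mem_filter]
  rw [hfil']
  have hsub : ∀ p ∈ pr Y a b, p ∈ pr Y ε₁ (9 / 20) := by
    intro p hp
    rw [← hfil, Finset.mem_filter] at hp
    exact hp.1
  have hprime : ∀ p ∈ pr Y a b, p.Prime := by
    intro p hp
    unfold pr at hp
    rw [Finset.mem_filter] at hp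
    exact hp.2.1
  have hM := hN₀ Y hYN0 a b ha hab (hb.trans (by norm_num))
  have hdiff : |∑ p ∈ pr Y a b, h p - ∑ p ∈ pr Y a b, (rho f p : ℝ) / ((p : ℝ) - 1)| ≤ T / (y - 1) := by
    rw [← Finset.sum_sub_distrib]
    refine (Finset.abs_sum_le_sum_abs _ _).trans ?_
    rw [← Finset.sum_filter_add_sum_filter_not (pr Y a b) (fun p => p ∣ E)]
    have hB : ∑ p ∈ (pr Y a b).filter (fun p => ¬ p ∣ E), |h p - (rho f p : ℝ) / ((p : ℝ) - 1)| = 0 := by
      apply Finset.sum_eq_zero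
      intro p hp
      rw [Finset.mem_filter] at hp
      rw [h3 p (hsub p hp.1) hp.2, sub_self, abs_zero]
    rw [hB, add_zero]
    have h5 : ∑ p ∈ (pr Y a b).filter (fun p => p ∣ E), |h p - (rho f p : ℝ) / ((p : ℝ) - 1)| ≤
        ((pr Y a b).filter (fun p => p ∣ E)).card • ((κ + f.natDegree) / (y - 1)) := by
      apply Finset.sum_le_card_nsmul
      intro p hp
      rw [Finset.mem_filter] at hp
      have hlow := MerX_low hY2 ha hp.1
      rw [← hydef] at hlow
      have hp1 : 0 < (p : ℝ) - 1 := by linarith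
      obtain ⟨h6, h7⟩ := h4 p (hsub p hp.1) hp.2
      have hr : (rho f p : ℝ) ≤ f.natDegree := by
        exact_mod_cast Pool.Agent.H536.OC.MerFAux.rho_le hf hd (hprime p hp.1)
      have h8 : |h p - (rho f p : ℝ) / ((p : ℝ) - 1)| ≤ (κ + f.natDegree) / ((p : ℝ) - 1) := by
        have h9 : 0 ≤ (rho f p : ℝ) / ((p : ℝ) - 1) := by positivity
        have h10 : (rho f p : ℝ) / ((p : ℝ) - 1) ≤ f.natDegree / ((p : ℝ) - 1) :=
          div_le_div_of_nonneg_right hr hp1.le
        have h11 : (0 : ℝ) ≤ κ / ((p : ℝ) - 1) := by positivity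
        rw [add_div, abs_le]
        constructor <;> linarith
      refine h8.trans ?_
      apply div_le_div_of_nonneg_left (by positivity) hy0
      linarith
    refine h5.trans ?_
    rw [nsmul_eq_mul, hT, mul_div_assoc]
    apply mul_le_mul_of_nonneg_right _ (by positivity)
    exact MerX_card hY2 hε₁ ha hE hEY
  have h12 : ∑ p ∈ pr Y a b, h p - Real.log (b / a) =
      (∑ p ∈ pr Y a b, h p - ∑ p ∈ pr Y a b, (rho f p : ℝ) / ((p : ℝ) - 1)) +
      (∑ p ∈ pr Y a b, (rho f p : ℝ) / ((p : ℝ) - 1) - Real.log (b / a)) := by ring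
  rw [h12]
  refine (abs_add_le _ _).trans ?_
  linarith

theorem Fall : S_F := polyF U6 (merF (Pool.Agent.H536.OC.rlim Pool.Agent.H536.OC.eu) Pool.Agent.H536.OC.karM) Pool.Agent.H536.OC.sqF

end Pool.Agent.H536.OR
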