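import Mathlib
import Pool.Agent.H536.OR.W1
import Pool.Agent.H536.OC.SShift

open Finset Filter Topology

namespace Pool.Agent.H536.OR

open Pool.Agent.H536.OC (roots_card shift_solve shift_pow_omega)

/-- congruent arguments -/
theorem pt_tr {l : ℤ} {f : Polynomial ℤ} {x y : ℤ} (h : l ∣ x - y) : l ∣ f.eval x ↔ l ∣ f.eval y := by
  have h1 : l ∣ f.eval x - f.eval y := h.trans (Polynomial.sub_dvd_eval_sub _ _ f)
  constructor
  · intro hd
    have := dvd_sub hd h1
    simpa using this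
  · intro hd
    have := dvd_add h1 hd
    simpa using this

/-- the substitution -/
theorem pt_comp (g : Polynomial ℤ) (q c x : ℤ) :
    (g.comp (Polynomial.C q * Polynomial.X + Polynomial.C c)).eval x = g.eval (q * x + c) := by
  rw [Polynomial.eval_comp]
  simp

theorem pt_deg (g : Polynomial ℤ) (q c : ℤ) {D : ℕ} (hg : g.natDegree ≤ D) :
    (g.comp (Polynomial.C q * Polynomial.X + Polynomial.C c)).natDegree ≤ D := by
  refine Polynomial.natDegree_comp_le.trans ?_
  calc g.natDegree * (Polynomial.C q * Polynomial.X + Polynomial.C c : Polynomial ℤ).natDegree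
      ≤ D * 1 := Nat.mul_le_mul hg Polynomial.natDegree_linear_le
    _ = D := mul_one D

/-- the size of the values -/
theorem pt_size (g : Polynomial ℤ) {D K X P : ℕ} (hX : 1 ≤ X) (hg : g.natDegree ≤ D)
    (hc : ∀ j, |g.coeff j| ≤ X ^ K) (hP : P ≤ X) :
    |((g.eval (P : ℤ) : ℤ) : ℝ)| ≤ (D + 1) * ((X : ℝ) ^ K * (X : ℝ) ^ D) := by
  have hX' : (1 : ℝ) ≤ X := by exact_mod_cast hX
  rw [Polynomial.eval_eq_sum_range' (n := D + 1) (by omega)]
  push_cast
  refine (Finset.abs_sum_le_sum_abs _ _).trans ?_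
  have h1 : ∀ j ∈ range (D + 1), |((g.coeff j : ℤ) : ℝ) * (P : ℝ) ^ j| ≤
      (X : ℝ) ^ K * (X : ℝ) ^ D := by
    intro j hj
    rw [abs_mul]
    have h2 : |((g.coeff j : ℤ) : ℝ)| ≤ (X : ℝ) ^ K := by exact_mod_cast hc j
    have h3 : |(P : ℝ) ^ j| ≤ (X : ℝ) ^ D := by
      rw [abs_of_nonneg (by positivity)]
      have h4 : (P : ℝ) ≤ X := by exact_mod_cast hP
      calc (P : ℝ) ^ j ≤ (X : ℝ) ^ j := by gcongr
        _ ≤ (X : ℝ) ^ D := pow_le_pow_right₀ hX' (by
          rw [mem_range] at hj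
          omega)
    gcongr
  refine (Finset.sum_le_sum h1).trans (le_of_eq ?_)
  rw [Finset.sum_const, card_range, nsmul_eq_mul]
  push_cast
  ring

theorem polyT (h : S_F) : S_PT := by
  classical
  intro f hfi hfd k D K
  obtain ⟨δ, ε, T0, hδ, hε, hU⟩ := h f hfi hfd (k * D)
  have hm : 0 < min δ (1 / 500) := lt_min hδ (by norm_num)
  refine ⟨min δ (1 / 500) / 4, ⌈2 * ((K : ℝ) + 2 * D + 1) / ε⌉₊,
    ⌈Real.exp (max (max 30000 (2 * |T0| + 4)) (2 / ε))⌉₊, by positivity, ?_⟩
  intro X hX g hgd hgc q a m hq hqX hm0 hmX hadm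
  have hX1 : Real.exp (max (max 30000 (2 * |T0| + 4)) (2 / ε)) ≤ X :=
    (Nat.le_ceil _).trans (by exact_mod_cast hX)
  have hXpos : (0 : ℝ) < X := (Real.exp_pos _).trans_le hX1
  obtain ⟨L, hL⟩ : ∃ L, L = Real.log X := ⟨_, rfl⟩
  have hXL : (X : ℝ) = Real.exp L := by rw [hL, Real.exp_log hXpos]
  have hL1 : max (max 30000 (2 * |T0| + 4)) (2 / ε) ≤ L := by
    rw [hL]
    exact (Real.le_log_iff_exp_le hXpos).2 hX1
  have hL500 : 30000 ≤ L := ((le_max_left _ _).trans (le_max_left _ _)).trans hL1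
  have hLT : 2 * |T0| + 4 ≤ L := ((le_max_right _ _).trans (le_max_left _ _)).trans hL1
  have hLe : 2 / ε ≤ L := (le_max_right _ _).trans hL1
  have h7a : Real.log 3 ≤ 2 := by
    rw [Real.log_le_iff_le_exp (by norm_num)]
    have h1 := Real.exp_one_gt_d9
    have h2 : Real.exp 2 = Real.exp 1 * Real.exp 1 := by rw [← Real.exp_add]; norm_num
    rw [h2]
    nlinarith
  have h7b : 0 < Real.log 3 := Real.log_pos (by norm_num)
  obtain ⟨T, hT⟩ : ∃ T, T = 100 / 101 * (L - Real.log 3) := ⟨_, rfl⟩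
  have hTa : 100 / 101 * (L - 2) ≤ T := by rw [hT]; linarith
  have hTb : T ≤ 100 / 101 * L := by rw [hT]; linarith
  have hTL : L / 2 ≤ T := by linarith
  have hT0 : T0 ≤ T := by
    have h1 := le_abs_self T0
    have h2 := abs_nonneg T0
    linarith
  have hTpos : 0 < T := by linarith
  have hrp : ∀ a : ℝ, (X : ℝ) ^ a = Real.exp (L * a) := by
    intro a
    rw [Real.rpow_def_of_pos hXpos, ← hL]
  rw [hrp] at hqX hmX
  have hkey : ∀ a : ℝ, min δ (1 / 500) ≤ a → 2 * (L * (min δ (1 / 500) / 4)) ≤ a * T := by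
    intro a ha
    have ha0 : 0 < a := hm.trans_le ha
    have h1 : L * (min δ (1 / 500) / 4) ≤ L * (a / 4) := by
      have : 0 ≤ L := by linarith
      gcongr
    have h2 : a * (L / 2) ≤ a * T := by
      gcongr
    linarith
  have hmin0 : 0 ≤ L * (min δ (1 / 500) / 4) := by
    have : 0 ≤ L := by linarith
    positivity
  have hqL : ∀ a : ℝ, min δ (1 / 500) ≤ a → (q : ℝ) ≤ Real.exp (a * T) := by
    intro a ha
    refine hqX.trans (Real.exp_le_exp.2 ?_)
    have := hkey a ha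
    linarith
  -- the representative of `a`
  obtain ⟨d', hd1, hdq, hd⟩ : ∃ d' : ℕ, 1 ≤ d' ∧ d' ≤ q ∧ d' ≡ a [MOD q] := by
    by_cases h0 : a % q = 0
    · refine ⟨q, hq, le_rfl, ?_⟩
      unfold Nat.ModEq
      rw [Nat.mod_self, h0]
    · exact ⟨a % q, Nat.one_le_iff_ne_zero.2 h0, (Nat.mod_lt _ (by omega)).le, Nat.mod_modEq _ _⟩
  have hmq : |((m : ℤ) : ℝ)| * q ≤ Real.exp (T / 500) := by
    calc |((m : ℤ) : ℝ)| * q ≤ Real.exp (L * (min δ (1 / 500) / 4)) *
          Real.exp (L * (min δ (1 / 500) / 4)) := by gcongr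
      _ = Real.exp (2 * (L * (min δ (1 / 500) / 4))) := by rw [← Real.exp_add]; ring_nf
      _ ≤ Real.exp (T / 500) := by
        apply Real.exp_le_exp.2
        have := hkey (1 / 500) (min_le_right _ _)
        linarith
  have hdqR : (d' : ℝ) ≤ q := by exact_mod_cast hdq
  -- the forbidden classes
  obtain ⟨F, hF⟩ : ∃ F : ℕ → Finset ℕ, F = fun p => (range p).filter
      (fun x : ℕ => ∃ i, (p : ℤ) ∣ (g i).eval ((q : ℤ) * x + d')) := ⟨_, rfl⟩
  have hmemF : ∀ {p : ℕ}, p.Prime → ∀ n : ℕ, n % p ∈ F p ↔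
      ∃ i, (p : ℤ) ∣ (g i).eval ((q : ℤ) * n + d') := by
    intro p hp n
    rw [hF, mem_filter, mem_range]
    have h1 : ∀ i, (p : ℤ) ∣ (g i).eval ((q : ℤ) * ((n % p : ℕ) : ℤ) + d') ↔
        (p : ℤ) ∣ (g i).eval ((q : ℤ) * n + d') := by
      intro i
      apply pt_tr
      have h2 : (p : ℤ) ∣ ((n % p : ℕ) : ℤ) - n := by
        have h3 : ((n % p : ℕ) : ℤ) ≡ n [ZMOD p] :=
          (Int.natCast_modEq_iff).2 (Nat.mod_modEq n p)
        exact (Int.modEq_iff_dvd).1 h3.symm
      have h3 : (q : ℤ) * ((n % p : ℕ) : ℤ) + d' - ((q : ℤ) * n + d') =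
          (q : ℤ) * (((n % p : ℕ) : ℤ) - n) := by ring
      rw [h3]
      exact h2.mul_left _
    constructor
    · rintro ⟨-, i, hi⟩
      exact ⟨i, (h1 i).1 hi⟩
    · rintro ⟨i, hi⟩
      exact ⟨Nat.mod_lt _ hp.pos, i, (h1 i).2 hi⟩
  obtain ⟨S, hS1, hS2⟩ := hU T hT0 q d' (m * q) (m * d') F hd1 hdq
    (hqL δ (min_le_left _ _))
    (mul_ne_zero hm0 (by exact_mod_cast (by omega : q ≠ 0)))
    (by
      push_cast
      rw [abs_mul, abs_of_nonneg (show (0 : ℝ) ≤ (q : ℝ) from Nat.cast_nonneg q)]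
      exact hmq)
    (by
      push_cast
      rw [abs_mul, abs_of_nonneg (show (0 : ℝ) ≤ (d' : ℝ) from Nat.cast_nonneg d')]
      calc |((m : ℤ) : ℝ)| * d' ≤ |((m : ℤ) : ℝ)| * q := by gcongr
        _ ≤ Real.exp (T / 500) := hmq
        _ ≤ Real.exp (101 / 100 * T) := Real.exp_le_exp.2 (by linarith))
    (by
      intro p hp
      have h3 : F p ⊆ (univ : Finset (Fin k)).biUnion (fun i => (range p).filter
          (fun x : ℕ => (p : ℤ) ∣ ((g i).comp
            (Polynomial.C (q : ℤ) * Polynomial.X + Polynomial.C (d' : ℤ))).eval (x : ℤ))) := by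
        intro x hx
        rw [hF, mem_filter] at hx
        obtain ⟨i, hi⟩ := hx.2
        rw [mem_biUnion]
        refine ⟨i, mem_univ _, mem_filter.2 ⟨hx.1, ?_⟩⟩
        rw [pt_comp]
        exact hi
      refine (card_le_card h3).trans ((card_biUnion_le_card_mul _ _ D ?_).trans (by simp))
      intro i _
      obtain ⟨n0, g1, g2, g3, g4⟩ := hadm p hp
      obtain ⟨n, hn⟩ := shift_solve q a d' hd p hp n0 g1
      refine (roots_card hp _ ⟨n, ?_⟩).trans (pt_deg _ _ _ (hgd i))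
      rw [pt_comp, pt_tr hn]
      exact g4 i)
    (by
      intro p hp
      obtain ⟨n0, g1, g2, g3, g4⟩ := hadm p hp
      obtain ⟨n, hn⟩ := shift_solve q a d' hd p hp n0 g1
      refine ⟨n, ?_, ?_, ?_⟩
      · intro hdv
        apply g2
        have h1 : (p : ℤ) ∣ (q : ℤ) * n + d' := by exact_mod_cast (Int.natCast_dvd_natCast.2 hdv)
        have h2 := dvd_sub h1 hn
        have h3 : (q : ℤ) * n + d' - ((q : ℤ) * n + d' - n0) = n0 := by ring
        rwa [h3] at h2
      · rw [pt_tr (y := m * n0)]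
        · exact g3
        · have h3 : m * (q : ℤ) * n + m * d' - m * n0 = m * ((q : ℤ) * n + d' - n0) := by ring
          rw [h3]
          exact hn.mul_left _
      · rw [hmemF hp]
        rintro ⟨i, hi⟩
        exact g4 i ((pt_tr hn).1 hi))
  have h101 : 3 * Real.exp (101 / 100 * T) = X := by
    rw [hT]
    have : 101 / 100 * (100 / 101 * (L - Real.log 3)) = L - Real.log 3 := by ring
    rw [this, Real.exp_sub, Real.exp_log (by norm_num), ← hXL]
    ring
  have h98 : (X : ℝ) ^ (97 / 100 : ℝ) ≤ Real.exp (98 / 100 * T) := by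
    rw [hrp]
    exact Real.exp_le_exp.2 (by linarith)
  have hinj : Function.Injective (fun n : ℕ => q * n + d') := by
    intro n n' hnn
    have h3 : q * n = q * n' := by
      have h4 : q * n + d' = q * n' + d' := hnn
      omega
    exact Nat.eq_of_mul_eq_mul_left (by omega) h3
  refine ⟨S.image (fun n : ℕ => q * n + d'), ?_, ?_⟩
  · rw [Finset.card_image_of_injective _ hinj]
    exact h98.trans hS1.le
  intro p hpS
  obtain ⟨n, hnS, rfl⟩ := Finset.mem_image.1 hpS
  obtain ⟨hp, hp1, hp2, hf, hl, hm1, hm3⟩ := hS2 n hnS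
  rw [h101] at hp2
  have hpX : q * n + d' ≤ X := by exact_mod_cast hp2
  have hmz : m * (q : ℤ) * n + m * d' = m * (((q * n + d' : ℕ) : ℤ)) := by
    push_cast
    ring
  rw [hmz] at hm1 hm3
  refine ⟨hp, hpX, ?_, ?_, hm1, hm3, ?_, ?_⟩
  · refine Nat.ModEq.trans ?_ hd
    show (q * n + d') % q = d' % q
    rw [Nat.mul_add_mod]
  · exact h98.trans hp1.le
  · intro l hl1 hl2
    by_contra hcon
    push Not at hcon
    refine hl l hl1 (hcon.trans ?_) ?_
    · rw [hrp]
      exact Real.exp_le_exp.2 (by linarith)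
    · rw [hmz]
      exact Int.natCast_dvd.2 hl2
  · intro i
    have hi : ∀ l : ℕ, l.Prime → (l : ℝ) ≤ Real.exp (ε * T) →
        ¬ (l : ℤ) ∣ (g i).eval (((q * n + d' : ℕ) : ℤ)) := by
      intro l hl1 hl2 hl3
      apply hf l hl1 hl2
      rw [hmemF hl1]
      refine ⟨i, ?_⟩
      have : (q : ℤ) * n + d' = ((q * n + d' : ℕ) : ℤ) := by
        push_cast
        ring
      rwa [this]
    have hne : (g i).eval (((q * n + d' : ℕ) : ℤ)) ≠ 0 := by
      intro h0
      refine hi 2 Nat.prime_two ?_ (by rw [h0]; exact dvd_zero _)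
      have h1 : 1 ≤ ε * T := by
        have h2 : 2 ≤ L * ε := by
          have := (div_le_iff₀ hε).1 hLe
          linarith
        nlinarith
      have h2 := Real.add_one_le_exp (ε * T)
      push_cast
      linarith
    refine ⟨hne, ?_⟩
    obtain ⟨z, hz⟩ : ∃ z : ℤ, z = (g i).eval (((q * n + d' : ℕ) : ℤ)) := ⟨_, rfl⟩
    have hsz := pt_size (g i) (X := X) (K := K) (D := D)
      (by
        have h1 : (1 : ℝ) ≤ X := by
          rw [hXL]
          exact Real.one_le_exp (by linarith)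
        exact_mod_cast h1) (hgd i) (hgc i) hpX
    rw [← hz] at hi hne hsz ⊢
    have h1 := shift_pow_omega (Real.exp (ε * T)) (Real.exp_pos _).le (m := z.natAbs)
      (by rwa [Ne, Int.natAbs_eq_zero])
      (fun l hl1 hl2 => by
        by_contra hcon
        push Not at hcon
        exact hi l hl1 hcon.le (Int.natCast_dvd.2 hl2))
    have h2 : ((z.natAbs : ℕ) : ℝ) ≤ Real.exp (((K : ℝ) + 2 * D + 1) * L) := by
      have g1 : ((z.natAbs : ℕ) : ℝ) = |(z : ℝ)| := by
        rw [Nat.cast_natAbs, Int.cast_abs]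
      rw [g1]
      refine hsz.trans ?_
      have g2 : (D : ℝ) + 1 ≤ Real.exp (((D : ℝ) + 1) * L) := by
        have g3 := Real.add_one_le_exp ((D : ℝ) + 1)
        have g4 : Real.exp ((D : ℝ) + 1) ≤ Real.exp (((D : ℝ) + 1) * L) := by
          apply Real.exp_le_exp.2
          exact le_mul_of_one_le_right (by positivity) (by linarith)
        linarith
      have g5 : ((K : ℝ) + 2 * D + 1) * L = ((D : ℝ) + 1) * L + ((K : ℝ) * L + (D : ℝ) * L) := by
        ring
      rw [g5, Real.exp_add, Real.exp_add, Real.exp_nat_mul L K, Real.exp_nat_mul L D, ← hXL]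
      gcongr
    have h3 := h1.trans h2
    rw [← Real.exp_nat_mul] at h3
    have h4 := Real.exp_le_exp.1 h3
    have h5 : ((ArithmeticFunction.cardFactors z.natAbs : ℕ) : ℝ) ≤
        2 * ((K : ℝ) + 2 * D + 1) / ε := by
      rw [le_div_iff₀ hε]
      by_contra hcon
      push Not at hcon
      have h7 : 0 < L / 2 := by linarith
      have h8 : 2 * ((K : ℝ) + 2 * D + 1) * (L / 2) <
          ((ArithmeticFunction.cardFactors z.natAbs : ℕ) : ℝ) * ε * (L / 2) :=
        mul_lt_mul_of_pos_right hcon h7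
      have h9 : ((ArithmeticFunction.cardFactors z.natAbs : ℕ) : ℝ) * ε * (L / 2) ≤
          ((ArithmeticFunction.cardFactors z.natAbs : ℕ) : ℝ) * ε * T := by gcongr
      linarith
    exact_mod_cast h5.trans (Nat.le_ceil _)

end Pool.Agent.H536.OR
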