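import Mathlib
import Pool.Agent.H536.OR.RM
import Pool.Agent.H536.OR.RPT

open Finset

/-! Prime arguments of quadratic polynomials: the theorem and the irreducibility of some polynomials (helper536). -/

namespace Pool.Agent.H536.OR

open Polynomial

theorem PTall : S_PT := polyT Fall

/-- a primitive polynomial of degree two without rational roots is irreducible -/
theorem irr2 {f : ℤ[X]} (hp : f.IsPrimitive) (hd : f.natDegree = 2) (hr : ∀ x : ℚ, (f.map (Int.castRingHom ℚ)).eval x ≠ 0) :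
    Irreducible f := by
  rw [Polynomial.IsPrimitive.Int.irreducible_iff_irreducible_map_cast hp]
  have h1 : (f.map (Int.castRingHom ℚ)).natDegree = 2 := by
    rw [Polynomial.natDegree_map_eq_of_injective (Int.castRingHom ℚ).injective_int, hd]
  apply Polynomial.irreducible_of_degree_le_three_of_not_isRoot
  · rw [h1, mem_Icc]
    constructor <;> norm_num
  · intro x hx
    exact hr x hx

theorem irr8 : Irreducible (8 * X ^ 2 - 1 : ℤ[X]) ∧ (8 * X ^ 2 - 1 : ℤ[X]).natDegree = 2 := by
  have hd : (8 * X ^ 2 - 1 : ℤ[X]).natDegree = 2 := by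
    compute_degree!
  refine ⟨irr2 ?_ hd ?_, hd⟩
  · intro r hr
    rw [Polynomial.C_dvd_iff_dvd_coeff] at hr
    have h := hr 0
    have h2 : (8 * X ^ 2 - 1 : ℤ[X]).coeff 0 = -1 := by simp
    rw [h2] at h
    exact isUnit_of_dvd_unit h (by norm_num)
  · intro x hx
    have h3 : 8 * x ^ 2 = 1 := by
      simp at hx
      linarith
    have h4 : IsSquare (2 : ℚ) := ⟨4 * x, by linarith [h3]⟩
    have h5 : ¬ IsSquare (2 : ℚ) := by
      rw [show (2 : ℚ) = ((2 : ℕ) : ℚ) by norm_num, Rat.isSquare_natCast_iff]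
      intro ⟨r, hr⟩
      rcases Nat.lt_or_ge r 2 with h | h
      · interval_cases r <;> omega
      · nlinarith
    exact h5 h4

theorem irr3 : Irreducible (X ^ 2 + X + 1 : ℤ[X]) ∧ (X ^ 2 + X + 1 : ℤ[X]).natDegree = 2 := by
  have hd : (X ^ 2 + X + 1 : ℤ[X]).natDegree = 2 := by
    compute_degree!
  refine ⟨irr2 (Monic.isPrimitive (by monicity!)) hd ?_, hd⟩
  intro x hx
  simp at hx
  nlinarith [sq_nonneg (2 * x + 1)]

theorem irr1 (c : ℤ) (hc : 0 < c) : Irreducible (X ^ 2 + C c : ℤ[X]) ∧ (X ^ 2 + C c : ℤ[X]).natDegree = 2 := by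
  have hd : (X ^ 2 + C c : ℤ[X]).natDegree = 2 := by
    compute_degree!
  refine ⟨irr2 (Monic.isPrimitive (by monicity!)) hd ?_, hd⟩
  intro x hx
  have h1 : (0 : ℚ) < c := by exact_mod_cast hc
  simp at hx
  nlinarith [sq_nonneg x]

end Pool.Agent.H536.OR
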